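import Pool.Agent.LibMond56.Kill2
import Pool.Agent.LibMV18.Base2

set_option autoImplicit false

/-! MP_ed98ad_ag: packed polynomials of `LibMV18` evaluated at expressions. -/

namespace Pool.Agent.Mond56

open Pool.Agent.Mond61 Pool.Agent.LibMV18

/-- weight of the variable `d` (internal order: `v1..v9`, `Y1..Y4`) -/
def gw (d : ℕ) : ℕ :=
  Bool.rec (motive := fun _ => ℕ) (Bool.rec (motive := fun _ => ℕ) (nat_lit 0) (nat_lit 2) (Nat.blt d (nat_lit 13))) (nat_lit 1)
    (Nat.blt d (nat_lit 9))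

/-- the expression substituted for the variable `d` -/
noncomputable def gxE (sub : List Ex) (d : ℕ) : Ex := sub.getD d (Ex.c (nat_lit 1))

/-- a term code as an expression -/
noncomputable def tvE (sub : List Ex) (c : ℕ) : Ex :=
  Ex.mul (nat_lit 0) (Ex.c (tk c)) (Ex.mul (gw (td c 0)) (gxE sub (td c 0)) (Ex.mul (gw (td c 1)) (gxE sub (td c 1))
    (Ex.mul (gw (td c 2)) (gxE sub (td c 2)) (Ex.mul (gw (td c 3)) (gxE sub (td c 3)) (gxE sub (td c 4))))))

/-- a packed polynomial as an expression -/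
noncomputable def pvE (sub : List Ex) (D N : ℕ) : Ex :=
  Nat.rec (motive := fun _ => Ex) (Ex.lit D (nat_lit 0) (nat_lit 0) (nat_lit 0))
    (fun i ih => Ex.add (tvE sub (tm N i)) ih) (tn N)

/-- `∑ a pv P + b pv N` -/
noncomputable def combE (sub : List Ex) (D : ℕ) (L : List (ℕ × ℕ × ℕ × ℕ)) : Ex :=
  List.rec (motive := fun _ => Ex) (Ex.lit D (nat_lit 0) (nat_lit 0) (nat_lit 0))
    (fun p _ ih => Ex.add (Ex.mul (nat_lit 0) (Ex.c p.1) (pvE sub D p.2.2.1))
      (Ex.add (Ex.mul (nat_lit 0) (Ex.c p.2.1) (pvE sub D p.2.2.2)) ih)) L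

section

variable {s ws : List ℕ} {cb : ℕ} {A : Type*} [CommRing A] (x : ℕ → A) (sub : List Ex)

theorem ev_gxE (hsub : sub.length = 13) (d : ℕ) :
    (gxE sub d).ev s ws cb x = gx (fun i => (sub.getD i (Ex.c 1)).ev s ws cb x) d := by
  unfold gxE gx
  by_cases h : d < 13
  · rw [if_pos h]
  · rw [if_neg h, List.getD_eq_default _ _ (by omega)]
    change (Ex.c 1).ev s ws cb x = 1
    rw [Ex.ev_c, Nat.cast_one]

theorem ev_tvE (hsub : sub.length = 13) (c : ℕ) :
    (tvE sub c).ev s ws cb x = tv (fun i => (sub.getD i (Ex.c 1)).ev s ws cb x) c := by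
  unfold tvE tv
  simp only [Ex.ev_mul, Ex.ev_c, ev_gxE x sub hsub]
  ring

theorem ev_rec (f : ℕ → Ex) (z : Ex) (n : ℕ) :
    (Nat.rec (motive := fun _ => Ex) z (fun i ih => Ex.add (f i) ih) n : Ex).ev s ws cb x =
      ∑ i ∈ Finset.range n, (f i).ev s ws cb x + z.ev s ws cb x := by
  induction n with
  | zero =>
    change z.ev s ws cb x = _
    rw [Finset.sum_range_zero, zero_add]
  | succ n ih =>
    change (Ex.add (f n) (Nat.rec (motive := fun _ => Ex) z (fun i ih => Ex.add (f i) ih) n)).ev s ws cb x = _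
    rw [Ex.ev_add, ih, Finset.sum_range_succ]
    ring

theorem ev_pvE (hsub : sub.length = 13) (D N : ℕ) :
    (pvE sub D N).ev s ws cb x = pv (fun i => (sub.getD i (Ex.c 1)).ev s ws cb x) N := by
  unfold pvE pv
  rw [ev_rec, ev_lit_zero, add_zero]
  exact Finset.sum_congr rfl fun i _ => ev_tvE x sub hsub _

theorem ev_combE_nil (D : ℕ) : (combE sub D []).ev s ws cb x = 0 := ev_lit_zero _ _ _ _ _

theorem ev_combE_cons (hsub : sub.length = 13) (D : ℕ) (p : ℕ × ℕ × ℕ × ℕ) (L : List (ℕ × ℕ × ℕ × ℕ)) :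
    (combE sub D (p :: L)).ev s ws cb x = (p.1 : A) * pv (fun i => (sub.getD i (Ex.c 1)).ev s ws cb x) p.2.2.1 +
      ((p.2.1 : A) * pv (fun i => (sub.getD i (Ex.c 1)).ev s ws cb x) p.2.2.2 + (combE sub D L).ev s ws cb x) := by
  change (Ex.add (Ex.mul 0 (Ex.c p.1) (pvE sub D p.2.2.1)) (Ex.add (Ex.mul 0 (Ex.c p.2.1) (pvE sub D p.2.2.2)) (combE sub D L))).ev
    s ws cb x = _
  rw [Ex.ev_add, Ex.ev_mul, Ex.ev_add, Ex.ev_mul, Ex.ev_c, Ex.ev_c, ev_pvE x sub hsub, ev_pvE x sub hsub]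

/-- the check `row + comb = 0` -/
noncomputable def rchk (s ws Vs : List ℕ) (w cb p t L D : ℕ) (row : Ex) (sub : List Ex) (C : List (ℕ × ℕ × ℕ × ℕ)) : Bool :=
  modChk s ws Vs w cb p t L D (Ex.add row (combE sub D C))

theorem rchk_ev {s ws Vs : List ℕ} {w cb p t L D : ℕ} (hV : AllOK s ws Vs) {row : Ex} {sub : List Ex} {C : List (ℕ × ℕ × ℕ × ℕ)}
    (h : rchk s ws Vs w cb p t L D row sub C = true) {A : Type*} [CommRing A] (hp : (p : A) = 0) (x : ℕ → A) :
    row.ev s ws cb x = - (combE sub D C).ev s ws cb x := by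
  have := modChk_ev s ws Vs w cb p t L D _ hV h hp x
  rw [Ex.ev_add] at this
  exact eq_neg_of_add_eq_zero_left this

/-- without literals the value does not depend on the context -/
theorem ev_onlyLt {s ws : List ℕ} {cb : ℕ} {s' ws' : List ℕ} {cb' n : ℕ} (hn : n ≤ s.length) (hn' : n ≤ s'.length)
    {A : Type*} [CommRing A] (x : ℕ → A) : ∀ e : Ex, onlyLt n e = true → e.ev s ws cb x = e.ev s' ws' cb' x
  | .v i, h => by
    have h' : Nat.blt i n = true := h
    have hi : i < n := by simpa [Nat.blt_eq] using h'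
    rw [Ex.ev_v _ _ _ _ _ (lt_of_lt_of_le hi hn), Ex.ev_v _ _ _ _ _ (lt_of_lt_of_le hi hn')]
  | .c k, _ => by rw [Ex.ev_c, Ex.ev_c]
  | .lit D o m N, h => by
    have h' : Nat.beq m 0 = true := h
    have hm : m = 0 := Nat.eq_of_beq_eq_true h'
    subst hm
    have : ∀ (s ws : List ℕ) (cb : ℕ), (Ex.lit D o 0 N).ev s ws cb x = 0 := by
      intro s ws cb
      unfold Ex.ev Ex.mv
      simp
    rw [this, this]
  | .add a b, h => by
    have h' : and (onlyLt n a) (onlyLt n b) = true := h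
    rw [Bool.and_eq_true] at h'
    rw [Ex.ev_add, Ex.ev_add, ev_onlyLt hn hn' x a h'.1, ev_onlyLt hn hn' x b h'.2]
  | .mul _ a b, h => by
    have h' : and (onlyLt n a) (onlyLt n b) = true := h
    rw [Bool.and_eq_true] at h'
    rw [Ex.ev_mul, Ex.ev_mul, ev_onlyLt hn hn' x a h'.1, ev_onlyLt hn hn' x b h'.2]

end

end Pool.Agent.Mond56
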