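import Pool.Agent.LibMond56.D6C
import Pool.Agent.LibMond56.Sub
import Pool.Agent.LibMV18.F0
import Pool.Agent.LibMV18.F1
import Pool.Agent.LibMV18.F2
import Pool.Agent.LibMV18.F3
import Pool.Agent.LibMV18.F4
import Pool.Agent.LibMV18.F5
import Pool.Agent.LibMV18.F6
import Pool.Agent.LibMV18.F7
import Pool.Agent.LibMV18.F8
import Pool.Agent.LibMV18.F9
import Pool.Agent.LibMV18.F10
import Pool.Agent.LibMV18.F11
import Pool.Agent.LibMV18.F12
import Pool.Agent.LibMV18.F13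
import Pool.Agent.LibMV18.F14
import Pool.Agent.LibMV18.F15
import Pool.Agent.LibMV18.F16
import Pool.Agent.LibMV18.F17
import Pool.Agent.LibMV18.F18
import Pool.Agent.LibMV18.F19

set_option autoImplicit false
set_option maxRecDepth 100000

/-! MP_ed98ad_ag: the rows are the mother fields of LibMV18 on the section (r = 6) -/

namespace Pool.Agent.Mond56

open Pool.Agent.Mond61 Pool.Agent.LibMV18

def S6s : List Nat := [0, 1, 4, 13, 32, 71, 82, 89, 105, 119]
def S6w : List Nat := [1, 1, 1, 1, 1, 1, 2, 2, 2, 2]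
def S6V : List Nat := [0x1, 0x800000000100002013, 0x400000800280021409810000201304026137, 0x200000400140010a84c2900bd42fc3a77cbb93040261b74c26f37f]
theorem S6ok0 : CtxOK S6s S6w 0 (S6V.getD 0 0) := by
  refine ⟨rfl, by decide, ?_⟩
  decide +kernel
theorem S6ok1 : CtxOK S6s S6w 1 (S6V.getD 1 0) := by
  refine ⟨rfl, by decide, ?_⟩
  decide +kernel
theorem S6ok2 : CtxOK S6s S6w 2 (S6V.getD 2 0) := by
  refine ⟨rfl, by decide, ?_⟩
  decide +kernel
theorem S6ok3 : CtxOK S6s S6w 3 (S6V.getD 3 0) := by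
  refine ⟨rfl, by decide, ?_⟩
  decide +kernel
theorem S6ok : AllOK S6s S6w S6V := by
  intro D hD
  have h : D < 4 := hD
  interval_cases D
  · exact S6ok0
  · exact S6ok1
  · exact S6ok2
  · exact S6ok3
/-- `v1..v9`, `Y1..Y4` on the section -/
noncomputable def S6sub : List Ex := [
  (.mul 0 (.c 28) (.v 0)), (.v 1), (.v 0), (.v 2), (.mul 0 (.c 28) (.v 1)), (.add (.mul 0 (.c 3) (.v 2)) (.mul 0 (.c 2) (.v 3))), (.v 3), (.v 4), (.v 5), (.v 6), (.v 7), (.v 8), (.v 9)]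
def S6cmb0 (et : List (ℕ × ℕ)) : List (ℕ × ℕ × ℕ × ℕ) := [(28, 1, (et.getD 0 (0, 0)).1, (et.getD 0 (0, 0)).2), (28, 1, (et.getD 2 (0, 0)).1, (et.getD 2 (0, 0)).2)]
def S6cmb1 (et : List (ℕ × ℕ)) : List (ℕ × ℕ × ℕ × ℕ) := [(28, 1, (et.getD 1 (0, 0)).1, (et.getD 1 (0, 0)).2), (28, 1, (et.getD 4 (0, 0)).1, (et.getD 4 (0, 0)).2)]
def S6cmb2 (et : List (ℕ × ℕ)) : List (ℕ × ℕ × ℕ × ℕ) := [(28, 1, (et.getD 5 (0, 0)).1, (et.getD 5 (0, 0)).2), (3, 26, (et.getD 3 (0, 0)).1, (et.getD 3 (0, 0)).2), (2, 27, (et.getD 6 (0, 0)).1, (et.getD 6 (0, 0)).2)]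
theorem S6r0k0 : rchk S6s S6w S6V 28 16 29 5 143 2 (rowAt R6r0 0) S6sub (S6cmb0 et0) = true := by
  decide +kernel
theorem S6l0k0 : onlyLt 10 (rowAt R6r0 0) = true := by
  decide +kernel
theorem S6r0k1 : rchk S6s S6w S6V 28 16 29 5 143 2 (rowAt R6r0 1) S6sub (S6cmb1 et0) = true := by
  decide +kernel
theorem S6l0k1 : onlyLt 10 (rowAt R6r0 1) = true := by
  decide +kernel
theorem S6r0k2 : rchk S6s S6w S6V 28 16 29 5 143 2 (rowAt R6r0 2) S6sub (S6cmb2 et0) = true := by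
  decide +kernel
theorem S6l0k2 : onlyLt 10 (rowAt R6r0 2) = true := by
  decide +kernel
theorem S6r1k0 : rchk S6s S6w S6V 28 16 29 5 143 2 (rowAt R6r1 0) S6sub (S6cmb0 et1) = true := by
  decide +kernel
theorem S6l1k0 : onlyLt 10 (rowAt R6r1 0) = true := by
  decide +kernel
theorem S6r1k1 : rchk S6s S6w S6V 28 16 29 5 143 2 (rowAt R6r1 1) S6sub (S6cmb1 et1) = true := by
  decide +kernel
theorem S6l1k1 : onlyLt 10 (rowAt R6r1 1) = true := by
  decide +kernel
theorem S6r1k2 : rchk S6s S6w S6V 28 16 29 5 143 2 (rowAt R6r1 2) S6sub (S6cmb2 et1) = true := by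
  decide +kernel
theorem S6l1k2 : onlyLt 10 (rowAt R6r1 2) = true := by
  decide +kernel
theorem S6r2k0 : rchk S6s S6w S6V 28 16 29 5 143 2 (rowAt R6r2 0) S6sub (S6cmb0 et2) = true := by
  decide +kernel
theorem S6l2k0 : onlyLt 10 (rowAt R6r2 0) = true := by
  decide +kernel
theorem S6r2k1 : rchk S6s S6w S6V 28 16 29 5 143 2 (rowAt R6r2 1) S6sub (S6cmb1 et2) = true := by
  decide +kernel
theorem S6l2k1 : onlyLt 10 (rowAt R6r2 1) = true := by
  decide +kernel
theorem S6r2k2 : rchk S6s S6w S6V 28 16 29 5 143 2 (rowAt R6r2 2) S6sub (S6cmb2 et2) = true := by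
  decide +kernel
theorem S6l2k2 : onlyLt 10 (rowAt R6r2 2) = true := by
  decide +kernel
theorem S6r3k0 : rchk S6s S6w S6V 28 16 29 5 143 2 (rowAt R6r3 0) S6sub (S6cmb0 et3) = true := by
  decide +kernel
theorem S6l3k0 : onlyLt 10 (rowAt R6r3 0) = true := by
  decide +kernel
theorem S6r3k1 : rchk S6s S6w S6V 28 16 29 5 143 2 (rowAt R6r3 1) S6sub (S6cmb1 et3) = true := by
  decide +kernel
theorem S6l3k1 : onlyLt 10 (rowAt R6r3 1) = true := by
  decide +kernel
theorem S6r3k2 : rchk S6s S6w S6V 28 16 29 5 143 2 (rowAt R6r3 2) S6sub (S6cmb2 et3) = true := by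
  decide +kernel
theorem S6l3k2 : onlyLt 10 (rowAt R6r3 2) = true := by
  decide +kernel
theorem S6r4k0 : rchk S6s S6w S6V 28 16 29 5 143 2 (rowAt R6r4 0) S6sub (S6cmb0 et4) = true := by
  decide +kernel
theorem S6l4k0 : onlyLt 10 (rowAt R6r4 0) = true := by
  decide +kernel
theorem S6r4k1 : rchk S6s S6w S6V 28 16 29 5 143 2 (rowAt R6r4 1) S6sub (S6cmb1 et4) = true := by
  decide +kernel
theorem S6l4k1 : onlyLt 10 (rowAt R6r4 1) = true := by
  decide +kernel
theorem S6r4k2 : rchk S6s S6w S6V 28 16 29 5 143 2 (rowAt R6r4 2) S6sub (S6cmb2 et4) = true := by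
  decide +kernel
theorem S6l4k2 : onlyLt 10 (rowAt R6r4 2) = true := by
  decide +kernel
theorem S6r5k0 : rchk S6s S6w S6V 28 16 29 5 143 2 (rowAt R6r5 0) S6sub (S6cmb0 et5) = true := by
  decide +kernel
theorem S6l5k0 : onlyLt 10 (rowAt R6r5 0) = true := by
  decide +kernel
theorem S6r5k1 : rchk S6s S6w S6V 28 16 29 5 143 2 (rowAt R6r5 1) S6sub (S6cmb1 et5) = true := by
  decide +kernel
theorem S6l5k1 : onlyLt 10 (rowAt R6r5 1) = true := by
  decide +kernel
theorem S6r5k2 : rchk S6s S6w S6V 28 16 29 5 143 2 (rowAt R6r5 2) S6sub (S6cmb2 et5) = true := by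
  decide +kernel
theorem S6l5k2 : onlyLt 10 (rowAt R6r5 2) = true := by
  decide +kernel
theorem S6r6k0 : rchk S6s S6w S6V 28 16 29 5 143 2 (rowAt R6r6 0) S6sub (S6cmb0 et6) = true := by
  decide +kernel
theorem S6l6k0 : onlyLt 10 (rowAt R6r6 0) = true := by
  decide +kernel
theorem S6r6k1 : rchk S6s S6w S6V 28 16 29 5 143 2 (rowAt R6r6 1) S6sub (S6cmb1 et6) = true := by
  decide +kernel
theorem S6l6k1 : onlyLt 10 (rowAt R6r6 1) = true := by
  decide +kernel
theorem S6r6k2 : rchk S6s S6w S6V 28 16 29 5 143 2 (rowAt R6r6 2) S6sub (S6cmb2 et6) = true := by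
  decide +kernel
theorem S6l6k2 : onlyLt 10 (rowAt R6r6 2) = true := by
  decide +kernel
theorem S6r7k0 : rchk S6s S6w S6V 28 16 29 5 143 2 (rowAt R6r7 0) S6sub (S6cmb0 et7) = true := by
  decide +kernel
theorem S6l7k0 : onlyLt 10 (rowAt R6r7 0) = true := by
  decide +kernel
theorem S6r7k1 : rchk S6s S6w S6V 28 16 29 5 143 2 (rowAt R6r7 1) S6sub (S6cmb1 et7) = true := by
  decide +kernel
theorem S6l7k1 : onlyLt 10 (rowAt R6r7 1) = true := by
  decide +kernel
theorem S6r7k2 : rchk S6s S6w S6V 28 16 29 5 143 2 (rowAt R6r7 2) S6sub (S6cmb2 et7) = true := by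
  decide +kernel
theorem S6l7k2 : onlyLt 10 (rowAt R6r7 2) = true := by
  decide +kernel
theorem S6r8k0 : rchk S6s S6w S6V 28 16 29 5 143 2 (rowAt R6r8 0) S6sub (S6cmb0 et8) = true := by
  decide +kernel
theorem S6l8k0 : onlyLt 10 (rowAt R6r8 0) = true := by
  decide +kernel
theorem S6r8k1 : rchk S6s S6w S6V 28 16 29 5 143 2 (rowAt R6r8 1) S6sub (S6cmb1 et8) = true := by
  decide +kernel
theorem S6l8k1 : onlyLt 10 (rowAt R6r8 1) = true := by
  decide +kernel
theorem S6r8k2 : rchk S6s S6w S6V 28 16 29 5 143 2 (rowAt R6r8 2) S6sub (S6cmb2 et8) = true := by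
  decide +kernel
theorem S6l8k2 : onlyLt 10 (rowAt R6r8 2) = true := by
  decide +kernel
theorem S6r9k0 : rchk S6s S6w S6V 28 16 29 5 143 2 (rowAt R6r9 0) S6sub (S6cmb0 et9) = true := by
  decide +kernel
theorem S6l9k0 : onlyLt 10 (rowAt R6r9 0) = true := by
  decide +kernel
theorem S6r9k1 : rchk S6s S6w S6V 28 16 29 5 143 2 (rowAt R6r9 1) S6sub (S6cmb1 et9) = true := by
  decide +kernel
theorem S6l9k1 : onlyLt 10 (rowAt R6r9 1) = true := by
  decide +kernel
theorem S6r9k2 : rchk S6s S6w S6V 28 16 29 5 143 2 (rowAt R6r9 2) S6sub (S6cmb2 et9) = true := by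
  decide +kernel
theorem S6l9k2 : onlyLt 10 (rowAt R6r9 2) = true := by
  decide +kernel
theorem S6r10k0 : rchk S6s S6w S6V 28 16 29 5 143 2 (rowAt R6r10 0) S6sub (S6cmb0 et10) = true := by
  decide +kernel
theorem S6l10k0 : onlyLt 10 (rowAt R6r10 0) = true := by
  decide +kernel
theorem S6r10k1 : rchk S6s S6w S6V 28 16 29 5 143 2 (rowAt R6r10 1) S6sub (S6cmb1 et10) = true := by
  decide +kernel
theorem S6l10k1 : onlyLt 10 (rowAt R6r10 1) = true := by
  decide +kernel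
theorem S6r10k2 : rchk S6s S6w S6V 28 16 29 5 143 2 (rowAt R6r10 2) S6sub (S6cmb2 et10) = true := by
  decide +kernel
theorem S6l10k2 : onlyLt 10 (rowAt R6r10 2) = true := by
  decide +kernel
theorem S6r11k0 : rchk S6s S6w S6V 28 16 29 5 143 2 (rowAt R6r11 0) S6sub (S6cmb0 et11) = true := by
  decide +kernel
theorem S6l11k0 : onlyLt 10 (rowAt R6r11 0) = true := by
  decide +kernel
theorem S6r11k1 : rchk S6s S6w S6V 28 16 29 5 143 2 (rowAt R6r11 1) S6sub (S6cmb1 et11) = true := by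
  decide +kernel
theorem S6l11k1 : onlyLt 10 (rowAt R6r11 1) = true := by
  decide +kernel
theorem S6r11k2 : rchk S6s S6w S6V 28 16 29 5 143 2 (rowAt R6r11 2) S6sub (S6cmb2 et11) = true := by
  decide +kernel
theorem S6l11k2 : onlyLt 10 (rowAt R6r11 2) = true := by
  decide +kernel
theorem S6r12k0 : rchk S6s S6w S6V 28 16 29 5 143 2 (rowAt R6r12 0) S6sub (S6cmb0 et12) = true := by
  decide +kernel
theorem S6l12k0 : onlyLt 10 (rowAt R6r12 0) = true := by
  decide +kernel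
theorem S6r12k1 : rchk S6s S6w S6V 28 16 29 5 143 2 (rowAt R6r12 1) S6sub (S6cmb1 et12) = true := by
  decide +kernel
theorem S6l12k1 : onlyLt 10 (rowAt R6r12 1) = true := by
  decide +kernel
theorem S6r12k2 : rchk S6s S6w S6V 28 16 29 5 143 2 (rowAt R6r12 2) S6sub (S6cmb2 et12) = true := by
  decide +kernel
theorem S6l12k2 : onlyLt 10 (rowAt R6r12 2) = true := by
  decide +kernel
theorem S6r13k0 : rchk S6s S6w S6V 28 16 29 5 143 2 (rowAt R6r13 0) S6sub (S6cmb0 et13) = true := by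
  decide +kernel
theorem S6l13k0 : onlyLt 10 (rowAt R6r13 0) = true := by
  decide +kernel
theorem S6r13k1 : rchk S6s S6w S6V 28 16 29 5 143 2 (rowAt R6r13 1) S6sub (S6cmb1 et13) = true := by
  decide +kernel
theorem S6l13k1 : onlyLt 10 (rowAt R6r13 1) = true := by
  decide +kernel
theorem S6r13k2 : rchk S6s S6w S6V 28 16 29 5 143 2 (rowAt R6r13 2) S6sub (S6cmb2 et13) = true := by
  decide +kernel
theorem S6l13k2 : onlyLt 10 (rowAt R6r13 2) = true := by
  decide +kernel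
theorem S6r14k0 : rchk S6s S6w S6V 28 16 29 5 214 3 (rowAt R6r14 0) S6sub (S6cmb0 et14) = true := by
  decide +kernel
theorem S6l14k0 : onlyLt 10 (rowAt R6r14 0) = true := by
  decide +kernel
theorem S6r14k1 : rchk S6s S6w S6V 28 16 29 5 214 3 (rowAt R6r14 1) S6sub (S6cmb1 et14) = true := by
  decide +kernel
theorem S6l14k1 : onlyLt 10 (rowAt R6r14 1) = true := by
  decide +kernel
theorem S6r14k2 : rchk S6s S6w S6V 28 16 29 5 214 3 (rowAt R6r14 2) S6sub (S6cmb2 et14) = true := by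
  decide +kernel
theorem S6l14k2 : onlyLt 10 (rowAt R6r14 2) = true := by
  decide +kernel
theorem S6r15k0 : rchk S6s S6w S6V 28 16 29 5 214 3 (rowAt R6r15 0) S6sub (S6cmb0 et15) = true := by
  decide +kernel
theorem S6l15k0 : onlyLt 10 (rowAt R6r15 0) = true := by
  decide +kernel
theorem S6r15k1 : rchk S6s S6w S6V 28 16 29 5 214 3 (rowAt R6r15 1) S6sub (S6cmb1 et15) = true := by
  decide +kernel
theorem S6l15k1 : onlyLt 10 (rowAt R6r15 1) = true := by
  decide +kernel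
theorem S6r15k2 : rchk S6s S6w S6V 28 16 29 5 214 3 (rowAt R6r15 2) S6sub (S6cmb2 et15) = true := by
  decide +kernel
theorem S6l15k2 : onlyLt 10 (rowAt R6r15 2) = true := by
  decide +kernel
theorem S6r16k0 : rchk S6s S6w S6V 28 16 29 5 214 3 (rowAt R6r16 0) S6sub (S6cmb0 et16) = true := by
  decide +kernel
theorem S6l16k0 : onlyLt 10 (rowAt R6r16 0) = true := by
  decide +kernel
theorem S6r16k1 : rchk S6s S6w S6V 28 16 29 5 214 3 (rowAt R6r16 1) S6sub (S6cmb1 et16) = true := by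
  decide +kernel
theorem S6l16k1 : onlyLt 10 (rowAt R6r16 1) = true := by
  decide +kernel
theorem S6r16k2 : rchk S6s S6w S6V 28 16 29 5 214 3 (rowAt R6r16 2) S6sub (S6cmb2 et16) = true := by
  decide +kernel
theorem S6l16k2 : onlyLt 10 (rowAt R6r16 2) = true := by
  decide +kernel
theorem S6r17k0 : rchk S6s S6w S6V 28 16 29 5 214 3 (rowAt R6r17 0) S6sub (S6cmb0 et17) = true := by
  decide +kernel
theorem S6l17k0 : onlyLt 10 (rowAt R6r17 0) = true := by
  decide +kernel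
theorem S6r17k1 : rchk S6s S6w S6V 28 16 29 5 214 3 (rowAt R6r17 1) S6sub (S6cmb1 et17) = true := by
  decide +kernel
theorem S6l17k1 : onlyLt 10 (rowAt R6r17 1) = true := by
  decide +kernel
theorem S6r17k2 : rchk S6s S6w S6V 28 16 29 5 214 3 (rowAt R6r17 2) S6sub (S6cmb2 et17) = true := by
  decide +kernel
theorem S6l17k2 : onlyLt 10 (rowAt R6r17 2) = true := by
  decide +kernel
theorem S6r18k0 : rchk S6s S6w S6V 28 16 29 5 214 3 (rowAt R6r18 0) S6sub (S6cmb0 et18) = true := by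
  decide +kernel
theorem S6l18k0 : onlyLt 10 (rowAt R6r18 0) = true := by
  decide +kernel
theorem S6r18k1 : rchk S6s S6w S6V 28 16 29 5 214 3 (rowAt R6r18 1) S6sub (S6cmb1 et18) = true := by
  decide +kernel
theorem S6l18k1 : onlyLt 10 (rowAt R6r18 1) = true := by
  decide +kernel
theorem S6r18k2 : rchk S6s S6w S6V 28 16 29 5 214 3 (rowAt R6r18 2) S6sub (S6cmb2 et18) = true := by
  decide +kernel
theorem S6l18k2 : onlyLt 10 (rowAt R6r18 2) = true := by
  decide +kernel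
theorem S6r19k0 : rchk S6s S6w S6V 28 16 29 5 214 3 (rowAt R6r19 0) S6sub (S6cmb0 et19) = true := by
  decide +kernel
theorem S6l19k0 : onlyLt 10 (rowAt R6r19 0) = true := by
  decide +kernel
theorem S6r19k1 : rchk S6s S6w S6V 28 16 29 5 214 3 (rowAt R6r19 1) S6sub (S6cmb1 et19) = true := by
  decide +kernel
theorem S6l19k1 : onlyLt 10 (rowAt R6r19 1) = true := by
  decide +kernel
theorem S6r19k2 : rchk S6s S6w S6V 28 16 29 5 214 3 (rowAt R6r19 2) S6sub (S6cmb2 et19) = true := by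
  decide +kernel
theorem S6l19k2 : onlyLt 10 (rowAt R6r19 2) = true := by
  decide +kernel

end Pool.Agent.Mond56
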