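import Pool.Agent.LibMond56.M6
import Pool.Agent.LibMond56.D6R
import Pool.Agent.LibMV18.Main
import Pool.Agent.LibGF7.ExA

set_option autoImplicit false
set_option maxRecDepth 100000

/-! MP_ed98ad_ag: the memberships `M6` of LibGF7 for the mother fields of LibMV18 -/

namespace Pool.Agent.Mond56

open Pool.Agent.Mond61 Pool.Agent.LibMV18 Pool.Agent.LibMX34 Pool.Agent.LibGF7


/-- the point: parameters first, then `Y` -/
def xpt6 {R : Type} [CommRing R] (Y : Fin 4 → R) (u : Fin 6 → R) (n : ℕ) : R :=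
  if h : n < 6 then u ⟨n, h⟩ else if h' : n - 6 < 4 then Y ⟨n - 6, h'⟩ else 0

theorem spt6 {R : Type} [CommRing R] (hp : (29 : R) = 0) (Y : Fin 4 → R) (u : Fin 6 → R) (d : ℕ) (hd : d < 13) :
    (S6sub.getD d (Ex.c 1)).ev S6s S6w 16 (xpt6 Y u) = MvPolynomial.aeval (ptA Y u) (xT d) := by
  have hv : ∀ i : ℕ, i < 10 → (Ex.v i).ev S6s S6w 16 (xpt6 Y u) = xpt6 Y u i := fun i hi =>
    Ex.ev_v _ _ _ _ _ hi
  have e28 : ((28 : ℕ) : R) = -1 := by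
    push_cast
    linear_combination hp
  have hX : ∀ t : Fin 13, MvPolynomial.aeval (ptA Y u) (MvPolynomial.X t : MvPolynomial (Fin 13) ℤ) = ptA Y u t := fun t =>
    MvPolynomial.aeval_X _ _
  interval_cases d
  · change _ = MvPolynomial.aeval (ptA Y u) (MvPolynomial.X 4 : MvPolynomial (Fin 13) ℤ)
    rw [hX]
    change (Ex.mul 0 (Ex.c 28) (Ex.v 0)).ev S6s S6w 16 (xpt6 Y u) = -u 0
    rw [Ex.ev_mul, Ex.ev_c, hv 0 (by decide), e28, neg_mul, one_mul]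
    rfl
  · change _ = MvPolynomial.aeval (ptA Y u) (MvPolynomial.X 5 : MvPolynomial (Fin 13) ℤ)
    rw [hX]
    exact hv 1 (by decide)
  · change _ = MvPolynomial.aeval (ptA Y u) (MvPolynomial.X 6 : MvPolynomial (Fin 13) ℤ)
    rw [hX]
    exact hv 0 (by decide)
  · change _ = MvPolynomial.aeval (ptA Y u) (MvPolynomial.X 7 : MvPolynomial (Fin 13) ℤ)
    rw [hX]
    exact hv 2 (by decide)
  · change _ = MvPolynomial.aeval (ptA Y u) (MvPolynomial.X 8 : MvPolynomial (Fin 13) ℤ)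
    rw [hX]
    change (Ex.mul 0 (Ex.c 28) (Ex.v 1)).ev S6s S6w 16 (xpt6 Y u) = -u 1
    rw [Ex.ev_mul, Ex.ev_c, hv 1 (by decide), e28, neg_mul, one_mul]
    rfl
  · change _ = MvPolynomial.aeval (ptA Y u) (MvPolynomial.X 9 : MvPolynomial (Fin 13) ℤ)
    rw [hX]
    change (Ex.add (Ex.mul 0 (Ex.c 3) (Ex.v 2)) (Ex.mul 0 (Ex.c 2) (Ex.v 3))).ev S6s S6w 16 (xpt6 Y u) = 3 * u 2 + 2 * u 3
    rw [Ex.ev_add, Ex.ev_mul, Ex.ev_mul, Ex.ev_c, Ex.ev_c, hv 2 (by decide), hv 3 (by decide)]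
    rfl
  · change _ = MvPolynomial.aeval (ptA Y u) (MvPolynomial.X 10 : MvPolynomial (Fin 13) ℤ)
    rw [hX]
    exact hv 3 (by decide)
  · change _ = MvPolynomial.aeval (ptA Y u) (MvPolynomial.X 11 : MvPolynomial (Fin 13) ℤ)
    rw [hX]
    exact hv 4 (by decide)
  · change _ = MvPolynomial.aeval (ptA Y u) (MvPolynomial.X 12 : MvPolynomial (Fin 13) ℤ)
    rw [hX]
    exact hv 5 (by decide)
  · change _ = MvPolynomial.aeval (ptA Y u) (MvPolynomial.X 0 : MvPolynomial (Fin 13) ℤ)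
    rw [hX]
    exact hv 6 (by decide)
  · change _ = MvPolynomial.aeval (ptA Y u) (MvPolynomial.X 1 : MvPolynomial (Fin 13) ℤ)
    rw [hX]
    exact hv 7 (by decide)
  · change _ = MvPolynomial.aeval (ptA Y u) (MvPolynomial.X 2 : MvPolynomial (Fin 13) ℤ)
    rw [hX]
    exact hv 8 (by decide)
  · change _ = MvPolynomial.aeval (ptA Y u) (MvPolynomial.X 3 : MvPolynomial (Fin 13) ℤ)
    rw [hX]
    exact hv 9 (by decide)

/-- the value of a mother field coefficient on the section -/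
theorem evP6 {R : Type} [CommRing R] (hp : (29 : R) = 0) (Y : Fin 4 → R) (u : Fin 6 → R) (i : Fin 20) (t : Fin 13) :
    MvPolynomial.aeval (ptA Y u) (etaP i t) =
      pv (fun d => (S6sub.getD d (Ex.c 1)).ev S6s S6w 16 (xpt6 Y u)) ((flds i).et.getD (toI t) (0, 0)).1 -
      pv (fun d => (S6sub.getD d (Ex.c 1)).ev S6s S6w 16 (xpt6 Y u)) ((flds i).et.getD (toI t) (0, 0)).2 := by
  have h : ∀ N : ℕ, MvPolynomial.aeval (ptA Y u) (pv xT N) =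
      pv (fun d => (S6sub.getD d (Ex.c 1)).ev S6s S6w 16 (xpt6 Y u)) N := by
    intro N
    have := map_pv (MvPolynomial.aeval (R := ℤ) (ptA Y u)).toRingHom xT N
    refine Eq.trans this (pv_congr (fun d hd => (spt6 hp Y u d hd).symm) N)
  unfold etaP sv
  rw [map_sub, h, h]
  rfl

theorem rw6k0 {R : Type} [CommRing R] (hp : (29 : R) = 0) (x : ℕ → R) (et : List (ℕ × ℕ)) (row : Ex) {L D : ℕ}
    (q : ℕ → R) (hq : (fun d => (S6sub.getD d (Ex.c 1)).ev S6s S6w 16 x) = q)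
    (h : rchk S6s S6w S6V 28 16 29 5 L D row S6sub (S6cmb0 et) = true) :
    row.ev S6s S6w 16 x = (pv q (et.getD 0 (0, 0)).1 - pv q (et.getD 0 (0, 0)).2) + (pv q (et.getD 2 (0, 0)).1 - pv q (et.getD 2 (0, 0)).2) := by
  have hp' : ((29 : ℕ) : R) = 0 := by exact_mod_cast hp
  rw [rchk_ev S6ok h hp' x]
  unfold S6cmb0
  simp only [ev_combE_cons x S6sub rfl, ev_combE_nil x S6sub, hq]
  push_cast
  linear_combination (-(pv q (et.getD 0 (0, 0)).1 + pv q (et.getD 2 (0, 0)).1)) * hp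

theorem rw6k1 {R : Type} [CommRing R] (hp : (29 : R) = 0) (x : ℕ → R) (et : List (ℕ × ℕ)) (row : Ex) {L D : ℕ}
    (q : ℕ → R) (hq : (fun d => (S6sub.getD d (Ex.c 1)).ev S6s S6w 16 x) = q)
    (h : rchk S6s S6w S6V 28 16 29 5 L D row S6sub (S6cmb1 et) = true) :
    row.ev S6s S6w 16 x = (pv q (et.getD 1 (0, 0)).1 - pv q (et.getD 1 (0, 0)).2) + (pv q (et.getD 4 (0, 0)).1 - pv q (et.getD 4 (0, 0)).2) := by
  have hp' : ((29 : ℕ) : R) = 0 := by exact_mod_cast hp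
  rw [rchk_ev S6ok h hp' x]
  unfold S6cmb1
  simp only [ev_combE_cons x S6sub rfl, ev_combE_nil x S6sub, hq]
  push_cast
  linear_combination (-(pv q (et.getD 1 (0, 0)).1 + pv q (et.getD 4 (0, 0)).1)) * hp

theorem rw6k2 {R : Type} [CommRing R] (hp : (29 : R) = 0) (x : ℕ → R) (et : List (ℕ × ℕ)) (row : Ex) {L D : ℕ}
    (q : ℕ → R) (hq : (fun d => (S6sub.getD d (Ex.c 1)).ev S6s S6w 16 x) = q)
    (h : rchk S6s S6w S6V 28 16 29 5 L D row S6sub (S6cmb2 et) = true) :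
    row.ev S6s S6w 16 x = (pv q (et.getD 5 (0, 0)).1 - pv q (et.getD 5 (0, 0)).2) - 3 * (pv q (et.getD 3 (0, 0)).1 - pv q (et.getD 3 (0, 0)).2) - 2 * (pv q (et.getD 6 (0, 0)).1 - pv q (et.getD 6 (0, 0)).2) := by
  have hp' : ((29 : ℕ) : R) = 0 := by exact_mod_cast hp
  rw [rchk_ev S6ok h hp' x]
  unfold S6cmb2
  simp only [ev_combE_cons x S6sub rfl, ev_combE_nil x S6sub, hq]
  push_cast
  linear_combination (-(pv q (et.getD 5 (0, 0)).1 + pv q (et.getD 3 (0, 0)).2 + pv q (et.getD 6 (0, 0)).2)) * hp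

theorem key6 {R : Type} [CommRing R] (hp : (29 : R) = 0) (Y : Fin 4 → R) (u : Fin 6 → R) {M : Type} [AddCommGroup M] [Module R M]
    (y : Fin 3 → M) (i : Fin 20)
    (h : (MvPolynomial.aeval (ptA Y u) (etaP i (ivO 0)) + MvPolynomial.aeval (ptA Y u) (etaP i (ivO 2))) • y 0 +
      (MvPolynomial.aeval (ptA Y u) (etaP i (ivO 1)) + MvPolynomial.aeval (ptA Y u) (etaP i (ivO 4))) • y 1 +
      (MvPolynomial.aeval (ptA Y u) (etaP i (ivO 5)) - 3 * MvPolynomial.aeval (ptA Y u) (etaP i (ivO 3)) -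
        2 * MvPolynomial.aeval (ptA Y u) (etaP i (ivO 6))) • y 2 = 0)
    (row : List Ex) (et : List (ℕ × ℕ)) (het : (flds i).et = et) {L D : ℕ}
    (h0 : rchk S6s S6w S6V 28 16 29 5 L D (rowAt row 0) S6sub (S6cmb0 et) = true)
    (g0 : onlyLt 10 (rowAt row 0) = true)
    (h1 : rchk S6s S6w S6V 28 16 29 5 L D (rowAt row 1) S6sub (S6cmb1 et) = true)
    (g1 : onlyLt 10 (rowAt row 1) = true)
    (h2 : rchk S6s S6w S6V 28 16 29 5 L D (rowAt row 2) S6sub (S6cmb2 et) = true)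
    (g2 : onlyLt 10 (rowAt row 2) = true)
    : ∑ k : Fin 3, ((rowAt row k).ev C6s C6w 16 (xpt6 Y u)) • y k = 0 := by
  subst het
  have e0 := rw6k0 hp (xpt6 Y u) _ _ _ rfl h0
  rw [← ev_onlyLt (s := C6s) (ws := C6w) (cb := 16) (s' := S6s) (ws' := S6w) (cb' := 16) (n := 10) (by decide) (by decide) (xpt6 Y u) _ g0] at e0
  have e1 := rw6k1 hp (xpt6 Y u) _ _ _ rfl h1
  rw [← ev_onlyLt (s := C6s) (ws := C6w) (cb := 16) (s' := S6s) (ws' := S6w) (cb' := 16) (n := 10) (by decide) (by decide) (xpt6 Y u) _ g1] at e1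
  have e2 := rw6k2 hp (xpt6 Y u) _ _ _ rfl h2
  rw [← ev_onlyLt (s := C6s) (ws := C6w) (cb := 16) (s' := S6s) (ws' := S6w) (cb' := 16) (n := 10) (by decide) (by decide) (xpt6 Y u) _ g2] at e2
  rw [Fin.sum_univ_three]
  simp only [evP6 hp] at h
  refine Eq.trans ?_ h
  congr 1
  · congr 1
    · exact congrArg (· • y 0) e0
    · exact congrArg (· • y 1) e1
  · exact congrArg (· • y 2) e2

/-- the memberships of LibGF7 -/
theorem m6 : LibGF7.M6 etaP := by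
  intro R _ hp Y u M _ _ y hrel
  have hp' : ((29 : ℕ) : R) = 0 := by exact_mod_cast hp
  have hl : ∀ r ∈ R6rows, ∑ k : Fin 3, ((rowAt r k).ev C6s C6w 16 (xpt6 Y u)) • y k = 0 := by
    intro r hr
    unfold R6rows at hr
    simp only [List.mem_cons, List.not_mem_nil, or_false] at hr
    rcases hr with rfl | rfl | rfl | rfl | rfl | rfl | rfl | rfl | rfl | rfl | rfl | rfl | rfl | rfl | rfl | rfl | rfl | rfl | rfl | rfl
    · exact key6 hp Y u y 0 (hrel 0) R6r0 et0 rfl S6r0k0 S6l0k0 S6r0k1 S6l0k1 S6r0k2 S6l0k2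
    · exact key6 hp Y u y 1 (hrel 1) R6r1 et1 rfl S6r1k0 S6l1k0 S6r1k1 S6l1k1 S6r1k2 S6l1k2
    · exact key6 hp Y u y 2 (hrel 2) R6r2 et2 rfl S6r2k0 S6l2k0 S6r2k1 S6l2k1 S6r2k2 S6l2k2
    · exact key6 hp Y u y 3 (hrel 3) R6r3 et3 rfl S6r3k0 S6l3k0 S6r3k1 S6l3k1 S6r3k2 S6l3k2
    · exact key6 hp Y u y 4 (hrel 4) R6r4 et4 rfl S6r4k0 S6l4k0 S6r4k1 S6l4k1 S6r4k2 S6l4k2
    · exact key6 hp Y u y 5 (hrel 5) R6r5 et5 rfl S6r5k0 S6l5k0 S6r5k1 S6l5k1 S6r5k2 S6l5k2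
    · exact key6 hp Y u y 6 (hrel 6) R6r6 et6 rfl S6r6k0 S6l6k0 S6r6k1 S6l6k1 S6r6k2 S6l6k2
    · exact key6 hp Y u y 7 (hrel 7) R6r7 et7 rfl S6r7k0 S6l7k0 S6r7k1 S6l7k1 S6r7k2 S6l7k2
    · exact key6 hp Y u y 8 (hrel 8) R6r8 et8 rfl S6r8k0 S6l8k0 S6r8k1 S6l8k1 S6r8k2 S6l8k2
    · exact key6 hp Y u y 9 (hrel 9) R6r9 et9 rfl S6r9k0 S6l9k0 S6r9k1 S6l9k1 S6r9k2 S6l9k2
    · exact key6 hp Y u y 10 (hrel 10) R6r10 et10 rfl S6r10k0 S6l10k0 S6r10k1 S6l10k1 S6r10k2 S6l10k2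
    · exact key6 hp Y u y 11 (hrel 11) R6r11 et11 rfl S6r11k0 S6l11k0 S6r11k1 S6l11k1 S6r11k2 S6l11k2
    · exact key6 hp Y u y 12 (hrel 12) R6r12 et12 rfl S6r12k0 S6l12k0 S6r12k1 S6l12k1 S6r12k2 S6l12k2
    · exact key6 hp Y u y 13 (hrel 13) R6r13 et13 rfl S6r13k0 S6l13k0 S6r13k1 S6l13k1 S6r13k2 S6l13k2
    · exact key6 hp Y u y 14 (hrel 14) R6r14 et14 rfl S6r14k0 S6l14k0 S6r14k1 S6l14k1 S6r14k2 S6l14k2
    · exact key6 hp Y u y 15 (hrel 15) R6r15 et15 rfl S6r15k0 S6l15k0 S6r15k1 S6l15k1 S6r15k2 S6l15k2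
    · exact key6 hp Y u y 16 (hrel 16) R6r16 et16 rfl S6r16k0 S6l16k0 S6r16k1 S6l16k1 S6r16k2 S6l16k2
    · exact key6 hp Y u y 17 (hrel 17) R6r17 et17 rfl S6r17k0 S6l17k0 S6r17k1 S6l17k1 S6r17k2 S6l17k2
    · exact key6 hp Y u y 18 (hrel 18) R6r18 et18 rfl S6r18k0 S6l18k0 S6r18k1 S6l18k1 S6r18k2 S6l18k2
    · exact key6 hp Y u y 19 (hrel 19) R6r19 et19 rfl S6r19k0 S6l19k0 S6r19k1 S6l19k1 S6r19k2 S6l19k2
  refine ⟨fun a g => ?_, fun S hS j g => ?_⟩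
  · have h := M6u hp' (xpt6 Y u) y hl a a.2 g
    have e : xpt6 Y u a = u a := dif_pos a.2
    rwa [e] at h
  · obtain ⟨d, hd, he⟩ := M6y hp' (xpt6 Y u) y hl S (fun a ha => by
      have e : xpt6 Y u a = u ⟨a, ha⟩ := dif_pos ha
      rw [e]
      exact hS _) j j.2 g
    refine ⟨d, hd, ?_⟩
    have e : xpt6 Y u (6 + j) = Y j := by
      unfold xpt6
      rw [dif_neg (by omega), dif_pos (by omega)]
      congr 1
      ext
      simp
    rwa [e] at he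

end Pool.Agent.Mond56
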