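import Pool.Agent.LibMond56.D7C
import Pool.Agent.LibMond56.Sub
import Pool.Agent.LibMV18.F0
import Pool.Agent.LibMV18.F1
import Pool.Agent.LibMV18.F2
import Pool.Agent.LibMV18.F3
import Pool.Agent.LibMV18.F4
import Pool.Agent.LibMV18.F5
import Pool.Agent.LibMV18.F6
import Pool.Agent.LibMV18.F7
import Pool.Agent.LibMV18.F8
import Pool.Agent.LibMV18.F9
import Pool.Agent.LibMV18.F10
import Pool.Agent.LibMV18.F11
import Pool.Agent.LibMV18.F12
import Pool.Agent.LibMV18.F13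
import Pool.Agent.LibMV18.F14
import Pool.Agent.LibMV18.F15
import Pool.Agent.LibMV18.F16
import Pool.Agent.LibMV18.F17
import Pool.Agent.LibMV18.F18
import Pool.Agent.LibMV18.F19

set_option autoImplicit false
set_option maxRecDepth 100000

/-! MP_ed98ad_ag: the rows are the mother fields of LibMV18 on the section (r = 7) -/

namespace Pool.Agent.Mond56

open Pool.Agent.Mond61 Pool.Agent.LibMV18

def S7s : List Nat := [0, 1, 4, 13, 32, 71, 124, 148, 158, 166, 172]
def S7w : List Nat := [1, 1, 1, 1, 1, 1, 1, 2, 2, 2, 2]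
def S7V : List Nat := [0x1, 0x10000000000000800000000100002013, 0x100000000000008000010405010420130000080001009810000201304026137, 0x10000000000000800001040501042013082028082110d852197ec7f974e693701009830130bb93040261b74c26f37f]
theorem S7ok0 : CtxOK S7s S7w 0 (S7V.getD 0 0) := by
  refine ⟨rfl, by decide, ?_⟩
  decide +kernel
theorem S7ok1 : CtxOK S7s S7w 1 (S7V.getD 1 0) := by
  refine ⟨rfl, by decide, ?_⟩
  decide +kernel
theorem S7ok2 : CtxOK S7s S7w 2 (S7V.getD 2 0) := by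
  refine ⟨rfl, by decide, ?_⟩
  decide +kernel
theorem S7ok3 : CtxOK S7s S7w 3 (S7V.getD 3 0) := by
  refine ⟨rfl, by decide, ?_⟩
  decide +kernel
theorem S7ok : AllOK S7s S7w S7V := by
  intro D hD
  have h : D < 4 := hD
  interval_cases D
  · exact S7ok0
  · exact S7ok1
  · exact S7ok2
  · exact S7ok3
/-- `v1..v9`, `Y1..Y4` on the section -/
noncomputable def S7sub : List Ex := [
  (.mul 0 (.c 28) (.v 0)), (.v 1), (.add (.v 0) (.v 6)), (.v 2), (.mul 0 (.c 28) (.v 1)), (.add (.mul 0 (.c 3) (.v 2)) (.add (.mul 0 (.c 2) (.v 3)) (.v 6))), (.v 3), (.v 4), (.v 5), (.v 7), (.v 8), (.v 9), (.v 10)]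
def S7cmb0 (et : List (ℕ × ℕ)) : List (ℕ × ℕ × ℕ × ℕ) := [(28, 1, (et.getD 0 (0, 0)).1, (et.getD 0 (0, 0)).2), (28, 1, (et.getD 2 (0, 0)).1, (et.getD 2 (0, 0)).2), (1, 28, (et.getD 5 (0, 0)).1, (et.getD 5 (0, 0)).2), (26, 3, (et.getD 3 (0, 0)).1, (et.getD 3 (0, 0)).2), (27, 2, (et.getD 6 (0, 0)).1, (et.getD 6 (0, 0)).2)]
def S7cmb1 (et : List (ℕ × ℕ)) : List (ℕ × ℕ × ℕ × ℕ) := [(28, 1, (et.getD 1 (0, 0)).1, (et.getD 1 (0, 0)).2), (28, 1, (et.getD 4 (0, 0)).1, (et.getD 4 (0, 0)).2)]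
theorem S7r0k0 : rchk S7s S7w S7V 28 16 29 5 249 2 (rowAt R7r0 0) S7sub (S7cmb0 et0) = true := by
  decide +kernel
theorem S7l0k0 : onlyLt 11 (rowAt R7r0 0) = true := by
  decide +kernel
theorem S7r0k1 : rchk S7s S7w S7V 28 16 29 5 249 2 (rowAt R7r0 1) S7sub (S7cmb1 et0) = true := by
  decide +kernel
theorem S7l0k1 : onlyLt 11 (rowAt R7r0 1) = true := by
  decide +kernel
theorem S7r1k0 : rchk S7s S7w S7V 28 16 29 5 249 2 (rowAt R7r1 0) S7sub (S7cmb0 et1) = true := by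
  decide +kernel
theorem S7l1k0 : onlyLt 11 (rowAt R7r1 0) = true := by
  decide +kernel
theorem S7r1k1 : rchk S7s S7w S7V 28 16 29 5 249 2 (rowAt R7r1 1) S7sub (S7cmb1 et1) = true := by
  decide +kernel
theorem S7l1k1 : onlyLt 11 (rowAt R7r1 1) = true := by
  decide +kernel
theorem S7r2k0 : rchk S7s S7w S7V 28 16 29 5 249 2 (rowAt R7r2 0) S7sub (S7cmb0 et2) = true := by
  decide +kernel
theorem S7l2k0 : onlyLt 11 (rowAt R7r2 0) = true := by
  decide +kernel
theorem S7r2k1 : rchk S7s S7w S7V 28 16 29 5 249 2 (rowAt R7r2 1) S7sub (S7cmb1 et2) = true := by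
  decide +kernel
theorem S7l2k1 : onlyLt 11 (rowAt R7r2 1) = true := by
  decide +kernel
theorem S7r3k0 : rchk S7s S7w S7V 28 16 29 5 249 2 (rowAt R7r3 0) S7sub (S7cmb0 et3) = true := by
  decide +kernel
theorem S7l3k0 : onlyLt 11 (rowAt R7r3 0) = true := by
  decide +kernel
theorem S7r3k1 : rchk S7s S7w S7V 28 16 29 5 249 2 (rowAt R7r3 1) S7sub (S7cmb1 et3) = true := by
  decide +kernel
theorem S7l3k1 : onlyLt 11 (rowAt R7r3 1) = true := by
  decide +kernel
theorem S7r4k0 : rchk S7s S7w S7V 28 16 29 5 249 2 (rowAt R7r4 0) S7sub (S7cmb0 et4) = true := by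
  decide +kernel
theorem S7l4k0 : onlyLt 11 (rowAt R7r4 0) = true := by
  decide +kernel
theorem S7r4k1 : rchk S7s S7w S7V 28 16 29 5 249 2 (rowAt R7r4 1) S7sub (S7cmb1 et4) = true := by
  decide +kernel
theorem S7l4k1 : onlyLt 11 (rowAt R7r4 1) = true := by
  decide +kernel
theorem S7r5k0 : rchk S7s S7w S7V 28 16 29 5 249 2 (rowAt R7r5 0) S7sub (S7cmb0 et5) = true := by
  decide +kernel
theorem S7l5k0 : onlyLt 11 (rowAt R7r5 0) = true := by
  decide +kernel
theorem S7r5k1 : rchk S7s S7w S7V 28 16 29 5 249 2 (rowAt R7r5 1) S7sub (S7cmb1 et5) = true := by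
  decide +kernel
theorem S7l5k1 : onlyLt 11 (rowAt R7r5 1) = true := by
  decide +kernel
theorem S7r6k0 : rchk S7s S7w S7V 28 16 29 5 249 2 (rowAt R7r6 0) S7sub (S7cmb0 et6) = true := by
  decide +kernel
theorem S7l6k0 : onlyLt 11 (rowAt R7r6 0) = true := by
  decide +kernel
theorem S7r6k1 : rchk S7s S7w S7V 28 16 29 5 249 2 (rowAt R7r6 1) S7sub (S7cmb1 et6) = true := by
  decide +kernel
theorem S7l6k1 : onlyLt 11 (rowAt R7r6 1) = true := by
  decide +kernel
theorem S7r7k0 : rchk S7s S7w S7V 28 16 29 5 249 2 (rowAt R7r7 0) S7sub (S7cmb0 et7) = true := by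
  decide +kernel
theorem S7l7k0 : onlyLt 11 (rowAt R7r7 0) = true := by
  decide +kernel
theorem S7r7k1 : rchk S7s S7w S7V 28 16 29 5 249 2 (rowAt R7r7 1) S7sub (S7cmb1 et7) = true := by
  decide +kernel
theorem S7l7k1 : onlyLt 11 (rowAt R7r7 1) = true := by
  decide +kernel
theorem S7r8k0 : rchk S7s S7w S7V 28 16 29 5 249 2 (rowAt R7r8 0) S7sub (S7cmb0 et8) = true := by
  decide +kernel
theorem S7l8k0 : onlyLt 11 (rowAt R7r8 0) = true := by
  decide +kernel
theorem S7r8k1 : rchk S7s S7w S7V 28 16 29 5 249 2 (rowAt R7r8 1) S7sub (S7cmb1 et8) = true := by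
  decide +kernel
theorem S7l8k1 : onlyLt 11 (rowAt R7r8 1) = true := by
  decide +kernel
theorem S7r9k0 : rchk S7s S7w S7V 28 16 29 5 249 2 (rowAt R7r9 0) S7sub (S7cmb0 et9) = true := by
  decide +kernel
theorem S7l9k0 : onlyLt 11 (rowAt R7r9 0) = true := by
  decide +kernel
theorem S7r9k1 : rchk S7s S7w S7V 28 16 29 5 249 2 (rowAt R7r9 1) S7sub (S7cmb1 et9) = true := by
  decide +kernel
theorem S7l9k1 : onlyLt 11 (rowAt R7r9 1) = true := by
  decide +kernel
theorem S7r10k0 : rchk S7s S7w S7V 28 16 29 5 249 2 (rowAt R7r10 0) S7sub (S7cmb0 et10) = true := by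
  decide +kernel
theorem S7l10k0 : onlyLt 11 (rowAt R7r10 0) = true := by
  decide +kernel
theorem S7r10k1 : rchk S7s S7w S7V 28 16 29 5 249 2 (rowAt R7r10 1) S7sub (S7cmb1 et10) = true := by
  decide +kernel
theorem S7l10k1 : onlyLt 11 (rowAt R7r10 1) = true := by
  decide +kernel
theorem S7r11k0 : rchk S7s S7w S7V 28 16 29 5 249 2 (rowAt R7r11 0) S7sub (S7cmb0 et11) = true := by
  decide +kernel
theorem S7l11k0 : onlyLt 11 (rowAt R7r11 0) = true := by
  decide +kernel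
theorem S7r11k1 : rchk S7s S7w S7V 28 16 29 5 249 2 (rowAt R7r11 1) S7sub (S7cmb1 et11) = true := by
  decide +kernel
theorem S7l11k1 : onlyLt 11 (rowAt R7r11 1) = true := by
  decide +kernel
theorem S7r12k0 : rchk S7s S7w S7V 28 16 29 5 249 2 (rowAt R7r12 0) S7sub (S7cmb0 et12) = true := by
  decide +kernel
theorem S7l12k0 : onlyLt 11 (rowAt R7r12 0) = true := by
  decide +kernel
theorem S7r12k1 : rchk S7s S7w S7V 28 16 29 5 249 2 (rowAt R7r12 1) S7sub (S7cmb1 et12) = true := by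
  decide +kernel
theorem S7l12k1 : onlyLt 11 (rowAt R7r12 1) = true := by
  decide +kernel
theorem S7r13k0 : rchk S7s S7w S7V 28 16 29 5 249 2 (rowAt R7r13 0) S7sub (S7cmb0 et13) = true := by
  decide +kernel
theorem S7l13k0 : onlyLt 11 (rowAt R7r13 0) = true := by
  decide +kernel
theorem S7r13k1 : rchk S7s S7w S7V 28 16 29 5 249 2 (rowAt R7r13 1) S7sub (S7cmb1 et13) = true := by
  decide +kernel
theorem S7l13k1 : onlyLt 11 (rowAt R7r13 1) = true := by
  decide +kernel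
theorem S7r14k0 : rchk S7s S7w S7V 28 16 29 5 373 3 (rowAt R7r14 0) S7sub (S7cmb0 et14) = true := by
  decide +kernel
theorem S7l14k0 : onlyLt 11 (rowAt R7r14 0) = true := by
  decide +kernel
theorem S7r14k1 : rchk S7s S7w S7V 28 16 29 5 373 3 (rowAt R7r14 1) S7sub (S7cmb1 et14) = true := by
  decide +kernel
theorem S7l14k1 : onlyLt 11 (rowAt R7r14 1) = true := by
  decide +kernel
theorem S7r15k0 : rchk S7s S7w S7V 28 16 29 5 373 3 (rowAt R7r15 0) S7sub (S7cmb0 et15) = true := by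
  decide +kernel
theorem S7l15k0 : onlyLt 11 (rowAt R7r15 0) = true := by
  decide +kernel
theorem S7r15k1 : rchk S7s S7w S7V 28 16 29 5 373 3 (rowAt R7r15 1) S7sub (S7cmb1 et15) = true := by
  decide +kernel
theorem S7l15k1 : onlyLt 11 (rowAt R7r15 1) = true := by
  decide +kernel
theorem S7r16k0 : rchk S7s S7w S7V 28 16 29 5 373 3 (rowAt R7r16 0) S7sub (S7cmb0 et16) = true := by
  decide +kernel
theorem S7l16k0 : onlyLt 11 (rowAt R7r16 0) = true := by
  decide +kernel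
theorem S7r16k1 : rchk S7s S7w S7V 28 16 29 5 373 3 (rowAt R7r16 1) S7sub (S7cmb1 et16) = true := by
  decide +kernel
theorem S7l16k1 : onlyLt 11 (rowAt R7r16 1) = true := by
  decide +kernel
theorem S7r17k0 : rchk S7s S7w S7V 28 16 29 5 373 3 (rowAt R7r17 0) S7sub (S7cmb0 et17) = true := by
  decide +kernel
theorem S7l17k0 : onlyLt 11 (rowAt R7r17 0) = true := by
  decide +kernel
theorem S7r17k1 : rchk S7s S7w S7V 28 16 29 5 373 3 (rowAt R7r17 1) S7sub (S7cmb1 et17) = true := by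
  decide +kernel
theorem S7l17k1 : onlyLt 11 (rowAt R7r17 1) = true := by
  decide +kernel
theorem S7r18k0 : rchk S7s S7w S7V 28 16 29 5 373 3 (rowAt R7r18 0) S7sub (S7cmb0 et18) = true := by
  decide +kernel
theorem S7l18k0 : onlyLt 11 (rowAt R7r18 0) = true := by
  decide +kernel
theorem S7r18k1 : rchk S7s S7w S7V 28 16 29 5 373 3 (rowAt R7r18 1) S7sub (S7cmb1 et18) = true := by
  decide +kernel
theorem S7l18k1 : onlyLt 11 (rowAt R7r18 1) = true := by
  decide +kernel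
theorem S7r19k0 : rchk S7s S7w S7V 28 16 29 5 373 3 (rowAt R7r19 0) S7sub (S7cmb0 et19) = true := by
  decide +kernel
theorem S7l19k0 : onlyLt 11 (rowAt R7r19 0) = true := by
  decide +kernel
theorem S7r19k1 : rchk S7s S7w S7V 28 16 29 5 373 3 (rowAt R7r19 1) S7sub (S7cmb1 et19) = true := by
  decide +kernel
theorem S7l19k1 : onlyLt 11 (rowAt R7r19 1) = true := by
  decide +kernel

end Pool.Agent.Mond56
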