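import Pool.Agent.LibMond56.M7
import Pool.Agent.LibMond56.D7R
import Pool.Agent.LibMV18.Main
import Pool.Agent.LibGF7.ExA

set_option autoImplicit false
set_option maxRecDepth 100000

/-! MP_ed98ad_ag: the memberships `M7` of LibGF7 for the mother fields of LibMV18 -/

namespace Pool.Agent.Mond56

open Pool.Agent.Mond61 Pool.Agent.LibMV18 Pool.Agent.LibMX34 Pool.Agent.LibGF7


/-- the point: parameters first, then `Y` -/
def xpt7 {R : Type} [CommRing R] (Y : Fin 4 → R) (u : Fin 7 → R) (n : ℕ) : R :=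
  if h : n < 7 then u ⟨n, h⟩ else if h' : n - 7 < 4 then Y ⟨n - 7, h'⟩ else 0

theorem spt7 {R : Type} [CommRing R] (hp : (29 : R) = 0) (Y : Fin 4 → R) (u : Fin 7 → R) (d : ℕ) (hd : d < 13) :
    (S7sub.getD d (Ex.c 1)).ev S7s S7w 16 (xpt7 Y u) = MvPolynomial.aeval (ptB Y u) (xT d) := by
  have hv : ∀ i : ℕ, i < 11 → (Ex.v i).ev S7s S7w 16 (xpt7 Y u) = xpt7 Y u i := fun i hi =>
    Ex.ev_v _ _ _ _ _ hi
  have e28 : ((28 : ℕ) : R) = -1 := by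
    push_cast
    linear_combination hp
  have hX : ∀ t : Fin 13, MvPolynomial.aeval (ptB Y u) (MvPolynomial.X t : MvPolynomial (Fin 13) ℤ) = ptB Y u t := fun t =>
    MvPolynomial.aeval_X _ _
  interval_cases d
  · change _ = MvPolynomial.aeval (ptB Y u) (MvPolynomial.X 4 : MvPolynomial (Fin 13) ℤ)
    rw [hX]
    change (Ex.mul 0 (Ex.c 28) (Ex.v 0)).ev S7s S7w 16 (xpt7 Y u) = -u 0
    rw [Ex.ev_mul, Ex.ev_c, hv 0 (by decide), e28, neg_mul, one_mul]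
    rfl
  · change _ = MvPolynomial.aeval (ptB Y u) (MvPolynomial.X 5 : MvPolynomial (Fin 13) ℤ)
    rw [hX]
    exact hv 1 (by decide)
  · change _ = MvPolynomial.aeval (ptB Y u) (MvPolynomial.X 6 : MvPolynomial (Fin 13) ℤ)
    rw [hX]
    change (Ex.add (Ex.v 0) (Ex.v 6)).ev S7s S7w 16 (xpt7 Y u) = u 0 + u 6
    rw [Ex.ev_add, hv 0 (by decide), hv 6 (by decide)]
    rfl
  · change _ = MvPolynomial.aeval (ptB Y u) (MvPolynomial.X 7 : MvPolynomial (Fin 13) ℤ)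
    rw [hX]
    exact hv 2 (by decide)
  · change _ = MvPolynomial.aeval (ptB Y u) (MvPolynomial.X 8 : MvPolynomial (Fin 13) ℤ)
    rw [hX]
    change (Ex.mul 0 (Ex.c 28) (Ex.v 1)).ev S7s S7w 16 (xpt7 Y u) = -u 1
    rw [Ex.ev_mul, Ex.ev_c, hv 1 (by decide), e28, neg_mul, one_mul]
    rfl
  · change _ = MvPolynomial.aeval (ptB Y u) (MvPolynomial.X 9 : MvPolynomial (Fin 13) ℤ)
    rw [hX]
    change (Ex.add (Ex.mul 0 (Ex.c 3) (Ex.v 2)) (Ex.add (Ex.mul 0 (Ex.c 2) (Ex.v 3)) (Ex.v 6))).ev S7s S7w 16 (xpt7 Y u) = 3 * u 2 + 2 * u 3 + u 6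
    rw [Ex.ev_add, Ex.ev_mul, Ex.ev_add, Ex.ev_mul, Ex.ev_c, Ex.ev_c, hv 2 (by decide), hv 3 (by decide), hv 6 (by decide), ← add_assoc]
    rfl
  · change _ = MvPolynomial.aeval (ptB Y u) (MvPolynomial.X 10 : MvPolynomial (Fin 13) ℤ)
    rw [hX]
    exact hv 3 (by decide)
  · change _ = MvPolynomial.aeval (ptB Y u) (MvPolynomial.X 11 : MvPolynomial (Fin 13) ℤ)
    rw [hX]
    exact hv 4 (by decide)
  · change _ = MvPolynomial.aeval (ptB Y u) (MvPolynomial.X 12 : MvPolynomial (Fin 13) ℤ)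
    rw [hX]
    exact hv 5 (by decide)
  · change _ = MvPolynomial.aeval (ptB Y u) (MvPolynomial.X 0 : MvPolynomial (Fin 13) ℤ)
    rw [hX]
    exact hv 7 (by decide)
  · change _ = MvPolynomial.aeval (ptB Y u) (MvPolynomial.X 1 : MvPolynomial (Fin 13) ℤ)
    rw [hX]
    exact hv 8 (by decide)
  · change _ = MvPolynomial.aeval (ptB Y u) (MvPolynomial.X 2 : MvPolynomial (Fin 13) ℤ)
    rw [hX]
    exact hv 9 (by decide)
  · change _ = MvPolynomial.aeval (ptB Y u) (MvPolynomial.X 3 : MvPolynomial (Fin 13) ℤ)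
    rw [hX]
    exact hv 10 (by decide)

/-- the value of a mother field coefficient on the section -/
theorem evP7 {R : Type} [CommRing R] (hp : (29 : R) = 0) (Y : Fin 4 → R) (u : Fin 7 → R) (i : Fin 20) (t : Fin 13) :
    MvPolynomial.aeval (ptB Y u) (etaP i t) =
      pv (fun d => (S7sub.getD d (Ex.c 1)).ev S7s S7w 16 (xpt7 Y u)) ((flds i).et.getD (toI t) (0, 0)).1 -
      pv (fun d => (S7sub.getD d (Ex.c 1)).ev S7s S7w 16 (xpt7 Y u)) ((flds i).et.getD (toI t) (0, 0)).2 := by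
  have h : ∀ N : ℕ, MvPolynomial.aeval (ptB Y u) (pv xT N) =
      pv (fun d => (S7sub.getD d (Ex.c 1)).ev S7s S7w 16 (xpt7 Y u)) N := by
    intro N
    have := map_pv (MvPolynomial.aeval (R := ℤ) (ptB Y u)).toRingHom xT N
    refine Eq.trans this (pv_congr (fun d hd => (spt7 hp Y u d hd).symm) N)
  unfold etaP sv
  rw [map_sub, h, h]
  rfl

theorem rw7k0 {R : Type} [CommRing R] (hp : (29 : R) = 0) (x : ℕ → R) (et : List (ℕ × ℕ)) (row : Ex) {L D : ℕ}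
    (q : ℕ → R) (hq : (fun d => (S7sub.getD d (Ex.c 1)).ev S7s S7w 16 x) = q)
    (h : rchk S7s S7w S7V 28 16 29 5 L D row S7sub (S7cmb0 et) = true) :
    row.ev S7s S7w 16 x = (pv q (et.getD 0 (0, 0)).1 - pv q (et.getD 0 (0, 0)).2) + (pv q (et.getD 2 (0, 0)).1 - pv q (et.getD 2 (0, 0)).2) - (pv q (et.getD 5 (0, 0)).1 - pv q (et.getD 5 (0, 0)).2) + 3 * (pv q (et.getD 3 (0, 0)).1 - pv q (et.getD 3 (0, 0)).2) + 2 * (pv q (et.getD 6 (0, 0)).1 - pv q (et.getD 6 (0, 0)).2) := by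
  have hp' : ((29 : ℕ) : R) = 0 := by exact_mod_cast hp
  rw [rchk_ev S7ok h hp' x]
  unfold S7cmb0
  simp only [ev_combE_cons x S7sub rfl, ev_combE_nil x S7sub, hq]
  push_cast
  linear_combination (-(pv q (et.getD 0 (0, 0)).1 + pv q (et.getD 2 (0, 0)).1 + pv q (et.getD 5 (0, 0)).2 + pv q (et.getD 3 (0, 0)).1 + pv q (et.getD 6 (0, 0)).1)) * hp

theorem rw7k1 {R : Type} [CommRing R] (hp : (29 : R) = 0) (x : ℕ → R) (et : List (ℕ × ℕ)) (row : Ex) {L D : ℕ}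
    (q : ℕ → R) (hq : (fun d => (S7sub.getD d (Ex.c 1)).ev S7s S7w 16 x) = q)
    (h : rchk S7s S7w S7V 28 16 29 5 L D row S7sub (S7cmb1 et) = true) :
    row.ev S7s S7w 16 x = (pv q (et.getD 1 (0, 0)).1 - pv q (et.getD 1 (0, 0)).2) + (pv q (et.getD 4 (0, 0)).1 - pv q (et.getD 4 (0, 0)).2) := by
  have hp' : ((29 : ℕ) : R) = 0 := by exact_mod_cast hp
  rw [rchk_ev S7ok h hp' x]
  unfold S7cmb1
  simp only [ev_combE_cons x S7sub rfl, ev_combE_nil x S7sub, hq]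
  push_cast
  linear_combination (-(pv q (et.getD 1 (0, 0)).1 + pv q (et.getD 4 (0, 0)).1)) * hp

theorem key7 {R : Type} [CommRing R] (hp : (29 : R) = 0) (Y : Fin 4 → R) (u : Fin 7 → R) {M : Type} [AddCommGroup M] [Module R M]
    (y : Fin 2 → M) (i : Fin 20)
    (h : (MvPolynomial.aeval (ptB Y u) (etaP i (ivO 0)) + MvPolynomial.aeval (ptB Y u) (etaP i (ivO 2)) -
        MvPolynomial.aeval (ptB Y u) (etaP i (ivO 5)) + 3 * MvPolynomial.aeval (ptB Y u) (etaP i (ivO 3)) +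
        2 * MvPolynomial.aeval (ptB Y u) (etaP i (ivO 6))) • y 0 +
      (MvPolynomial.aeval (ptB Y u) (etaP i (ivO 1)) + MvPolynomial.aeval (ptB Y u) (etaP i (ivO 4))) • y 1 = 0)
    (row : List Ex) (et : List (ℕ × ℕ)) (het : (flds i).et = et) {L D : ℕ}
    (h0 : rchk S7s S7w S7V 28 16 29 5 L D (rowAt row 0) S7sub (S7cmb0 et) = true)
    (g0 : onlyLt 11 (rowAt row 0) = true)
    (h1 : rchk S7s S7w S7V 28 16 29 5 L D (rowAt row 1) S7sub (S7cmb1 et) = true)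
    (g1 : onlyLt 11 (rowAt row 1) = true)
    : ∑ k : Fin 2, ((rowAt row k).ev C7s C7w 16 (xpt7 Y u)) • y k = 0 := by
  subst het
  have e0 := rw7k0 hp (xpt7 Y u) _ _ _ rfl h0
  rw [← ev_onlyLt (s := C7s) (ws := C7w) (cb := 16) (s' := S7s) (ws' := S7w) (cb' := 16) (n := 11) (by decide) (by decide) (xpt7 Y u) _ g0] at e0
  have e1 := rw7k1 hp (xpt7 Y u) _ _ _ rfl h1
  rw [← ev_onlyLt (s := C7s) (ws := C7w) (cb := 16) (s' := S7s) (ws' := S7w) (cb' := 16) (n := 11) (by decide) (by decide) (xpt7 Y u) _ g1] at e1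
  rw [Fin.sum_univ_two]
  simp only [evP7 hp] at h
  refine Eq.trans ?_ h
  congr 1
  · exact congrArg (· • y 0) e0
  · exact congrArg (· • y 1) e1

/-- the memberships of LibGF7 -/
theorem m7 : LibGF7.M7 etaP := by
  intro R _ hp Y u M _ _ y hrel
  have hp' : ((29 : ℕ) : R) = 0 := by exact_mod_cast hp
  have hl : ∀ r ∈ R7rows, ∑ k : Fin 2, ((rowAt r k).ev C7s C7w 16 (xpt7 Y u)) • y k = 0 := by
    intro r hr
    unfold R7rows at hr
    simp only [List.mem_cons, List.not_mem_nil, or_false] at hr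
    rcases hr with rfl | rfl | rfl | rfl | rfl | rfl | rfl | rfl | rfl | rfl | rfl | rfl | rfl | rfl | rfl | rfl | rfl | rfl | rfl | rfl
    · exact key7 hp Y u y 0 (hrel 0) R7r0 et0 rfl S7r0k0 S7l0k0 S7r0k1 S7l0k1
    · exact key7 hp Y u y 1 (hrel 1) R7r1 et1 rfl S7r1k0 S7l1k0 S7r1k1 S7l1k1
    · exact key7 hp Y u y 2 (hrel 2) R7r2 et2 rfl S7r2k0 S7l2k0 S7r2k1 S7l2k1
    · exact key7 hp Y u y 3 (hrel 3) R7r3 et3 rfl S7r3k0 S7l3k0 S7r3k1 S7l3k1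
    · exact key7 hp Y u y 4 (hrel 4) R7r4 et4 rfl S7r4k0 S7l4k0 S7r4k1 S7l4k1
    · exact key7 hp Y u y 5 (hrel 5) R7r5 et5 rfl S7r5k0 S7l5k0 S7r5k1 S7l5k1
    · exact key7 hp Y u y 6 (hrel 6) R7r6 et6 rfl S7r6k0 S7l6k0 S7r6k1 S7l6k1
    · exact key7 hp Y u y 7 (hrel 7) R7r7 et7 rfl S7r7k0 S7l7k0 S7r7k1 S7l7k1
    · exact key7 hp Y u y 8 (hrel 8) R7r8 et8 rfl S7r8k0 S7l8k0 S7r8k1 S7l8k1
    · exact key7 hp Y u y 9 (hrel 9) R7r9 et9 rfl S7r9k0 S7l9k0 S7r9k1 S7l9k1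
    · exact key7 hp Y u y 10 (hrel 10) R7r10 et10 rfl S7r10k0 S7l10k0 S7r10k1 S7l10k1
    · exact key7 hp Y u y 11 (hrel 11) R7r11 et11 rfl S7r11k0 S7l11k0 S7r11k1 S7l11k1
    · exact key7 hp Y u y 12 (hrel 12) R7r12 et12 rfl S7r12k0 S7l12k0 S7r12k1 S7l12k1
    · exact key7 hp Y u y 13 (hrel 13) R7r13 et13 rfl S7r13k0 S7l13k0 S7r13k1 S7l13k1
    · exact key7 hp Y u y 14 (hrel 14) R7r14 et14 rfl S7r14k0 S7l14k0 S7r14k1 S7l14k1
    · exact key7 hp Y u y 15 (hrel 15) R7r15 et15 rfl S7r15k0 S7l15k0 S7r15k1 S7l15k1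
    · exact key7 hp Y u y 16 (hrel 16) R7r16 et16 rfl S7r16k0 S7l16k0 S7r16k1 S7l16k1
    · exact key7 hp Y u y 17 (hrel 17) R7r17 et17 rfl S7r17k0 S7l17k0 S7r17k1 S7l17k1
    · exact key7 hp Y u y 18 (hrel 18) R7r18 et18 rfl S7r18k0 S7l18k0 S7r18k1 S7l18k1
    · exact key7 hp Y u y 19 (hrel 19) R7r19 et19 rfl S7r19k0 S7l19k0 S7r19k1 S7l19k1
  refine ⟨fun a g => ?_, fun S hS j g => ?_⟩
  · have h := M7u hp' (xpt7 Y u) y hl a a.2 g
    have e : xpt7 Y u a = u a := dif_pos a.2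
    rwa [e] at h
  · obtain ⟨d, hd, he⟩ := M7y hp' (xpt7 Y u) y hl S (fun a ha => by
      have e : xpt7 Y u a = u ⟨a, ha⟩ := dif_pos ha
      rw [e]
      exact hS _) j j.2 g
    refine ⟨d, hd, ?_⟩
    have e : xpt7 Y u (7 + j) = Y j := by
      unfold xpt7
      rw [dif_neg (by omega), dif_pos (by omega)]
      congr 1
      ext
      simp
    rwa [e] at he

end Pool.Agent.Mond56
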