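import Pool.Agent.LibMond56.D6C

set_option autoImplicit false
set_option maxRecDepth 100000

/-! MP_ed98ad_ag: modulo 29: Y_3 times a generator in terms of the parameters (r = 6) -/

namespace Pool.Agent.Mond56

open Pool.Agent.Mond61

noncomputable def R6y2g0hs : List (ℕ × Ex) := [(0, .c 0), (0, .c 0), (0, .c 0), (0, .c 0), (0, .c 0), (0, .c 0), (0, .c 0), (0, .c 0), (0, .c 0), (0, .c 12), (0, .c 27), (0, .c 20), (0, .c 0), (0, .c 0)]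
noncomputable def R6y2g0ds : List Ex := [
  (.add (.mul 0 (.c 7) (.mul 1 (.v 0) (.v 0))) (.add (.mul 1 (.v 0) (.v 4)) (.add (.mul 0 (.c 13) (.mul 1 (.v 1) (.v 3))) (.add (.mul 0 (.c 2) (.mul 1 (.v 2) (.v 5))) (.add (.mul 0 (.c 13) (.mul 1 (.v 3) (.v 5))) (.mul 0 (.c 28) (.mul 1 (.v 4) (.v 4)))))))),
  (.add (.mul 0 (.c 9) (.mul 1 (.v 0) (.v 1))) (.add (.mul 0 (.c 7) (.mul 1 (.v 0) (.v 5))) (.add (.mul 0 (.c 25) (.mul 1 (.v 1) (.v 4))) (.add (.mul 0 (.c 28) (.mul 1 (.v 2) (.v 2))) (.add (.mul 0 (.c 22) (.mul 1 (.v 2) (.v 3))) (.add (.mul 0 (.c 8) (.mul 1 (.v 3) (.v 3))) (.mul 0 (.c 15) (.mul 1 (.v 4) (.v 5))))))))),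
  (.add (.mul 0 (.c 23) (.mul 1 (.v 0) (.v 2))) (.add (.mul 0 (.c 14) (.mul 1 (.v 0) (.v 3))) (.add (.mul 1 (.v 1) (.v 1)) (.add (.mul 0 (.c 11) (.mul 1 (.v 1) (.v 5))) (.add (.mul 0 (.c 6) (.mul 1 (.v 2) (.v 4))) (.add (.mul 0 (.c 21) (.mul 1 (.v 3) (.v 4))) (.mul 0 (.c 16) (.mul 1 (.v 5) (.v 5)))))))))]
theorem R6y2g0c0 : ychk C6s C6w C6V 20 16 29 5 38715 2 8 0 R6y2g0ds R6y2g0hs R6rows 0 = true := by
  decide +kernel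
theorem R6y2g0c1 : ychk C6s C6w C6V 20 16 29 5 38715 2 8 0 R6y2g0ds R6y2g0hs R6rows 1 = true := by
  decide +kernel
theorem R6y2g0c2 : ychk C6s C6w C6V 20 16 29 5 38715 2 8 0 R6y2g0ds R6y2g0hs R6rows 2 = true := by
  decide +kernel
theorem R6y2g0 : ∀ k < 3, ychk C6s C6w C6V 20 16 29 5 38715 2 8 0 R6y2g0ds R6y2g0hs R6rows k = true := by
  intro k hk
  interval_cases k
  · exact R6y2g0c0
  · exact R6y2g0c1
  · exact R6y2g0c2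
theorem R6y2g0l0 : onlyLt 6 (rowAt R6y2g0ds 0) = true := by
  decide +kernel
theorem R6y2g0l1 : onlyLt 6 (rowAt R6y2g0ds 1) = true := by
  decide +kernel
theorem R6y2g0l2 : onlyLt 6 (rowAt R6y2g0ds 2) = true := by
  decide +kernel
theorem R6y2g0l : ∀ k < 3, onlyLt 6 (rowAt R6y2g0ds k) = true := by
  intro k hk
  interval_cases k
  · exact R6y2g0l0
  · exact R6y2g0l1
  · exact R6y2g0l2
noncomputable def R6y2g1hs : List (ℕ × Ex) := [(0, .c 1), (0, .c 0), (0, .c 6), (0, .c 19), (0, .c 0), (0, .c 0), (0, .c 0), (0, .c 0), (0, .c 0), (0, .c 0), (0, .c 0), (0, .c 0), (0, .c 0), (0, .c 0)]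
noncomputable def R6y2g1ds : List Ex := [
  (.add (.mul 0 (.c 14) (.mul 1 (.v 0) (.v 2))) (.add (.mul 0 (.c 9) (.mul 1 (.v 0) (.v 3))) (.add (.mul 0 (.c 16) (.mul 1 (.v 1) (.v 1))) (.add (.mul 0 (.c 22) (.mul 1 (.v 1) (.v 5))) (.add (.mul 0 (.c 7) (.mul 1 (.v 2) (.v 4))) (.add (.mul 0 (.c 21) (.mul 1 (.v 3) (.v 4))) (.mul 1 (.v 5) (.v 5)))))))),
  (.add (.mul 0 (.c 7) (.mul 1 (.v 0) (.v 0))) (.add (.mul 0 (.c 24) (.mul 1 (.v 0) (.v 4))) (.add (.mul 0 (.c 8) (.mul 1 (.v 1) (.v 2))) (.add (.mul 0 (.c 3) (.mul 1 (.v 1) (.v 3))) (.add (.mul 0 (.c 14) (.mul 1 (.v 2) (.v 5))) (.add (.mul 0 (.c 12) (.mul 1 (.v 3) (.v 5))) (.mul 0 (.c 5) (.mul 1 (.v 4) (.v 4))))))))),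
  (.add (.mul 0 (.c 13) (.mul 1 (.v 0) (.v 1))) (.add (.mul 0 (.c 13) (.mul 1 (.v 0) (.v 5))) (.add (.mul 0 (.c 5) (.mul 1 (.v 1) (.v 4))) (.add (.mul 0 (.c 15) (.mul 1 (.v 2) (.v 2))) (.add (.mul 0 (.c 17) (.mul 1 (.v 2) (.v 3))) (.add (.mul 0 (.c 26) (.mul 1 (.v 3) (.v 3))) (.mul 0 (.c 23) (.mul 1 (.v 4) (.v 5)))))))))]
theorem R6y2g1c0 : ychk C6s C6w C6V 20 16 29 5 38715 2 8 1 R6y2g1ds R6y2g1hs R6rows 0 = true := by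
  decide +kernel
theorem R6y2g1c1 : ychk C6s C6w C6V 20 16 29 5 38715 2 8 1 R6y2g1ds R6y2g1hs R6rows 1 = true := by
  decide +kernel
theorem R6y2g1c2 : ychk C6s C6w C6V 20 16 29 5 38715 2 8 1 R6y2g1ds R6y2g1hs R6rows 2 = true := by
  decide +kernel
theorem R6y2g1 : ∀ k < 3, ychk C6s C6w C6V 20 16 29 5 38715 2 8 1 R6y2g1ds R6y2g1hs R6rows k = true := by
  intro k hk
  interval_cases k
  · exact R6y2g1c0
  · exact R6y2g1c1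
  · exact R6y2g1c2
theorem R6y2g1l0 : onlyLt 6 (rowAt R6y2g1ds 0) = true := by
  decide +kernel
theorem R6y2g1l1 : onlyLt 6 (rowAt R6y2g1ds 1) = true := by
  decide +kernel
theorem R6y2g1l2 : onlyLt 6 (rowAt R6y2g1ds 2) = true := by
  decide +kernel
theorem R6y2g1l : ∀ k < 3, onlyLt 6 (rowAt R6y2g1ds k) = true := by
  intro k hk
  interval_cases k
  · exact R6y2g1l0
  · exact R6y2g1l1
  · exact R6y2g1l2
noncomputable def R6y2g2hs : List (ℕ × Ex) := [(0, .c 0), (0, .c 0), (0, .c 0), (0, .c 0), (0, .c 3), (0, .c 5), (0, .c 0), (0, .c 7), (0, .c 12), (0, .c 0), (0, .c 0), (0, .c 0), (0, .c 0), (0, .c 0)]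
noncomputable def R6y2g2ds : List Ex := [
  (.add (.mul 0 (.c 26) (.mul 1 (.v 0) (.v 1))) (.add (.mul 0 (.c 15) (.mul 1 (.v 0) (.v 5))) (.add (.mul 0 (.c 24) (.mul 1 (.v 1) (.v 4))) (.add (.mul 0 (.c 25) (.mul 1 (.v 2) (.v 2))) (.add (.mul 0 (.c 24) (.mul 1 (.v 2) (.v 3))) (.add (.mul 0 (.c 5) (.mul 1 (.v 3) (.v 3))) (.mul 0 (.c 18) (.mul 1 (.v 4) (.v 5))))))))),
  (.add (.mul 0 (.c 27) (.mul 1 (.v 0) (.v 2))) (.add (.mul 0 (.c 3) (.mul 1 (.v 0) (.v 3))) (.add (.mul 0 (.c 13) (.mul 1 (.v 1) (.v 1))) (.add (.mul 0 (.c 2) (.mul 1 (.v 1) (.v 5))) (.add (.mul 0 (.c 20) (.mul 1 (.v 2) (.v 4))) (.add (.mul 0 (.c 23) (.mul 1 (.v 3) (.v 4))) (.mul 0 (.c 11) (.mul 1 (.v 5) (.v 5))))))))),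
  (.add (.mul 0 (.c 12) (.mul 1 (.v 0) (.v 0))) (.add (.mul 0 (.c 6) (.mul 1 (.v 0) (.v 4))) (.add (.mul 0 (.c 16) (.mul 1 (.v 1) (.v 2))) (.add (.mul 0 (.c 19) (.mul 1 (.v 1) (.v 3))) (.add (.mul 0 (.c 27) (.mul 1 (.v 2) (.v 5))) (.add (.mul 1 (.v 3) (.v 5)) (.mul 0 (.c 5) (.mul 1 (.v 4) (.v 4)))))))))]
theorem R6y2g2c0 : ychk C6s C6w C6V 20 16 29 5 38715 2 8 2 R6y2g2ds R6y2g2hs R6rows 0 = true := by
  decide +kernel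
theorem R6y2g2c1 : ychk C6s C6w C6V 20 16 29 5 38715 2 8 2 R6y2g2ds R6y2g2hs R6rows 1 = true := by
  decide +kernel
theorem R6y2g2c2 : ychk C6s C6w C6V 20 16 29 5 38715 2 8 2 R6y2g2ds R6y2g2hs R6rows 2 = true := by
  decide +kernel
theorem R6y2g2 : ∀ k < 3, ychk C6s C6w C6V 20 16 29 5 38715 2 8 2 R6y2g2ds R6y2g2hs R6rows k = true := by
  intro k hk
  interval_cases k
  · exact R6y2g2c0
  · exact R6y2g2c1
  · exact R6y2g2c2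
theorem R6y2g2l0 : onlyLt 6 (rowAt R6y2g2ds 0) = true := by
  decide +kernel
theorem R6y2g2l1 : onlyLt 6 (rowAt R6y2g2ds 1) = true := by
  decide +kernel
theorem R6y2g2l2 : onlyLt 6 (rowAt R6y2g2ds 2) = true := by
  decide +kernel
theorem R6y2g2l : ∀ k < 3, onlyLt 6 (rowAt R6y2g2ds k) = true := by
  intro k hk
  interval_cases k
  · exact R6y2g2l0
  · exact R6y2g2l1
  · exact R6y2g2l2

end Pool.Agent.Mond56
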