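import Pool.Agent.LibMond56.D7C

set_option autoImplicit false
set_option maxRecDepth 100000

/-! MP_ed98ad_ag: modulo 29: Y_1 times a generator in terms of the parameters (r = 7) -/

namespace Pool.Agent.Mond56

open Pool.Agent.Mond61

noncomputable def R7y0g0hs : List (ℕ × Ex) := [(0, .c 5), (0, .c 0), (0, .c 1), (0, .c 27), (0, .c 12), (0, .c 23), (0, .c 26), (0, .c 0), (0, .c 0), (0, .c 0), (0, .c 0), (0, .c 0), (0, .c 0), (0, .c 0)]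
noncomputable def R7y0g0ds : List Ex := [
  (.add (.mul 0 (.c 26) (.mul 1 (.v 0) (.v 0))) (.add (.mul 0 (.c 11) (.mul 1 (.v 0) (.v 1))) (.add (.mul 0 (.c 20) (.mul 1 (.v 0) (.v 2))) (.add (.mul 0 (.c 26) (.mul 1 (.v 0) (.v 3))) (.add (.mul 0 (.c 24) (.mul 1 (.v 0) (.v 4))) (.add (.mul 0 (.c 24) (.mul 1 (.v 0) (.v 5))) (.add (.mul 0 (.c 8) (.mul 1 (.v 0) (.v 6))) (.add (.mul 0 (.c 18) (.mul 1 (.v 1) (.v 1))) (.add (.mul 0 (.c 13) (.mul 1 (.v 1) (.v 2))) (.add (.mul 0 (.c 4) (.mul 1 (.v 1) (.v 3))) (.add (.mul 0 (.c 4) (.mul 1 (.v 1) (.v 4))) (.add (.mul 1 (.v 1) (.v 5)) (.add (.mul 0 (.c 17) (.mul 1 (.v 1) (.v 6))) (.add (.mul 0 (.c 24) (.mul 1 (.v 2) (.v 2))) (.add (.mul 1 (.v 2) (.v 3)) (.add (.mul 0 (.c 3) (.mul 1 (.v 2) (.v 4))) (.add (.mul 0 (.c 11) (.mul 1 (.v 2) (.v 5))) (.add (.mul 0 (.c 10) (.mul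 1 (.v 2) (.v 6))) (.add (.mul 0 (.c 11) (.mul 1 (.v 3) (.v 3))) (.add (.mul 0 (.c 24) (.mul 1 (.v 3) (.v 4))) (.add (.mul 0 (.c 22) (.mul 1 (.v 3) (.v 5))) (.add (.mul 0 (.c 6) (.mul 1 (.v 3) (.v 6))) (.add (.mul 0 (.c 20) (.mul 1 (.v 4) (.v 4))) (.add (.mul 0 (.c 9) (.mul 1 (.v 4) (.v 5))) (.add (.mul 0 (.c 16) (.mul 1 (.v 5) (.v 5))) (.add (.mul 1 (.v 5) (.v 6)) (.mul 0 (.c 5) (.mul 1 (.v 6) (.v 6))))))))))))))))))))))))))))),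
  (.add (.mul 0 (.c 11) (.mul 1 (.v 0) (.v 0))) (.add (.mul 0 (.c 24) (.mul 1 (.v 0) (.v 2))) (.add (.mul 0 (.c 24) (.mul 1 (.v 0) (.v 3))) (.add (.mul 1 (.v 0) (.v 4)) (.add (.mul 0 (.c 18) (.mul 1 (.v 0) (.v 6))) (.add (.mul 0 (.c 28) (.mul 1 (.v 1) (.v 1))) (.add (.mul 0 (.c 18) (.mul 1 (.v 1) (.v 2))) (.add (.mul 0 (.c 24) (.mul 1 (.v 1) (.v 3))) (.add (.mul 0 (.c 26) (.mul 1 (.v 1) (.v 6))) (.add (.mul 0 (.c 14) (.mul 1 (.v 2) (.v 4))) (.add (.mul 0 (.c 17) (.mul 1 (.v 2) (.v 5))) (.add (.mul 0 (.c 26) (.mul 1 (.v 2) (.v 6))) (.add (.mul 0 (.c 28) (.mul 1 (.v 3) (.v 4))) (.add (.mul 0 (.c 25) (.mul 1 (.v 3) (.v 5))) (.add (.mul 0 (.c 8) (.mul 1 (.v 3) (.v 6))) (.add (.mul 0 (.c 13) (.mul 1 (.v 4) (.v 4))) (.add (.mul 0 (.c 14) (.mul 1 (.v 4) (.v 6))) (.add (.mul 0 (.c 22) (.mul 1 (.v 5) (.v 5))) (.add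 (.mul 0 (.c 14) (.mul 1 (.v 5) (.v 6))) (.mul 0 (.c 20) (.mul 1 (.v 6) (.v 6))))))))))))))))))))))]
theorem R7y0g0c0 : ychk C7s C7w C7V 20 16 29 5 36883 2 7 0 R7y0g0ds R7y0g0hs R7rows 0 = true := by
  decide +kernel
theorem R7y0g0c1 : ychk C7s C7w C7V 20 16 29 5 36883 2 7 0 R7y0g0ds R7y0g0hs R7rows 1 = true := by
  decide +kernel
theorem R7y0g0 : ∀ k < 2, ychk C7s C7w C7V 20 16 29 5 36883 2 7 0 R7y0g0ds R7y0g0hs R7rows k = true := by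
  intro k hk
  interval_cases k
  · exact R7y0g0c0
  · exact R7y0g0c1
theorem R7y0g0l0 : onlyLt 7 (rowAt R7y0g0ds 0) = true := by
  decide +kernel
theorem R7y0g0l1 : onlyLt 7 (rowAt R7y0g0ds 1) = true := by
  decide +kernel
theorem R7y0g0l : ∀ k < 2, onlyLt 7 (rowAt R7y0g0ds k) = true := by
  intro k hk
  interval_cases k
  · exact R7y0g0l0
  · exact R7y0g0l1
noncomputable def R7y0g1hs : List (ℕ × Ex) := [(0, .c 26), (0, .c 0), (0, .c 2), (0, .c 16), (0, .c 22), (0, .c 19), (0, .c 21), (0, .c 0), (0, .c 0), (0, .c 7), (0, .c 0), (0, .c 0), (0, .c 18), (0, .c 0)]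
noncomputable def R7y0g1ds : List Ex := [
  (.add (.mul 0 (.c 17) (.mul 1 (.v 0) (.v 0))) (.add (.mul 0 (.c 8) (.mul 1 (.v 0) (.v 1))) (.add (.mul 0 (.c 15) (.mul 1 (.v 0) (.v 2))) (.add (.mul 0 (.c 13) (.mul 1 (.v 0) (.v 3))) (.add (.mul 0 (.c 2) (.mul 1 (.v 0) (.v 5))) (.add (.mul 0 (.c 8) (.mul 1 (.v 0) (.v 6))) (.add (.mul 0 (.c 8) (.mul 1 (.v 1) (.v 1))) (.add (.mul 0 (.c 2) (.mul 1 (.v 1) (.v 2))) (.add (.mul 0 (.c 2) (.mul 1 (.v 1) (.v 3))) (.add (.mul 0 (.c 10) (.mul 1 (.v 1) (.v 4))) (.add (.mul 0 (.c 3) (.mul 1 (.v 1) (.v 6))) (.add (.mul 0 (.c 2) (.mul 1 (.v 2) (.v 2))) (.add (.mul 0 (.c 3) (.mul 1 (.v 2) (.v 3))) (.add (.mul 0 (.c 2) (.mul 1 (.v 2) (.v 4))) (.add (.mul 0 (.c 9) (.mul 1 (.v 3) (.v 3))) (.add (.mul 0 (.c 27) (.mul 1 (.v 3) (.v 4))) (.add (.mul 0 (.c 22) (.mul 1 (.v 3) (.v 5)))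 (.add (.mul 0 (.c 2) (.mul 1 (.v 3) (.v 6))) (.add (.mul 0 (.c 3) (.mul 1 (.v 4) (.v 4))) (.add (.mul 0 (.c 10) (.mul 1 (.v 4) (.v 6))) (.add (.mul 0 (.c 15) (.mul 1 (.v 5) (.v 5))) (.add (.mul 0 (.c 24) (.mul 1 (.v 5) (.v 6))) (.mul 0 (.c 15) (.mul 1 (.v 6) (.v 6))))))))))))))))))))))))),
  (.add (.mul 0 (.c 13) (.mul 1 (.v 0) (.v 0))) (.add (.mul 0 (.c 19) (.mul 1 (.v 0) (.v 1))) (.add (.mul 0 (.c 27) (.mul 1 (.v 0) (.v 2))) (.add (.mul 0 (.c 20) (.mul 1 (.v 0) (.v 3))) (.add (.mul 0 (.c 25) (.mul 1 (.v 0) (.v 4))) (.add (.mul 0 (.c 9) (.mul 1 (.v 0) (.v 5))) (.add (.mul 0 (.c 23) (.mul 1 (.v 0) (.v 6))) (.add (.mul 0 (.c 27) (.mul 1 (.v 1) (.v 1))) (.add (.mul 0 (.c 5) (.mul 1 (.v 1) (.v 2))) (.add (.mul 0 (.c 17) (.mul 1 (.v 1) (.v 3))) (.add (.mul 0 (.c 8) (.mul 1 (.v 1) (.v 4))) (.add (.mul 0 (.c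 12) (.mul 1 (.v 1) (.v 6))) (.add (.mul 0 (.c 20) (.mul 1 (.v 2) (.v 2))) (.add (.mul 0 (.c 20) (.mul 1 (.v 2) (.v 3))) (.add (.mul 0 (.c 18) (.mul 1 (.v 2) (.v 4))) (.add (.mul 0 (.c 3) (.mul 1 (.v 2) (.v 5))) (.add (.mul 0 (.c 19) (.mul 1 (.v 2) (.v 6))) (.add (.mul 0 (.c 13) (.mul 1 (.v 3) (.v 3))) (.add (.mul 0 (.c 17) (.mul 1 (.v 3) (.v 4))) (.add (.mul 0 (.c 15) (.mul 1 (.v 3) (.v 5))) (.add (.mul 0 (.c 20) (.mul 1 (.v 3) (.v 6))) (.add (.mul 0 (.c 5) (.mul 1 (.v 4) (.v 4))) (.add (.mul 0 (.c 14) (.mul 1 (.v 4) (.v 5))) (.add (.mul 0 (.c 20) (.mul 1 (.v 4) (.v 6))) (.add (.mul 0 (.c 15) (.mul 1 (.v 5) (.v 5))) (.add (.mul 0 (.c 19) (.mul 1 (.v 5) (.v 6))) (.mul 0 (.c 23) (.mul 1 (.v 6) (.v 6)))))))))))))))))))))))))))))]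
theorem R7y0g1c0 : ychk C7s C7w C7V 20 16 29 5 36883 2 7 1 R7y0g1ds R7y0g1hs R7rows 0 = true := by
  decide +kernel
theorem R7y0g1c1 : ychk C7s C7w C7V 20 16 29 5 36883 2 7 1 R7y0g1ds R7y0g1hs R7rows 1 = true := by
  decide +kernel
theorem R7y0g1 : ∀ k < 2, ychk C7s C7w C7V 20 16 29 5 36883 2 7 1 R7y0g1ds R7y0g1hs R7rows k = true := by
  intro k hk
  interval_cases k
  · exact R7y0g1c0
  · exact R7y0g1c1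
theorem R7y0g1l0 : onlyLt 7 (rowAt R7y0g1ds 0) = true := by
  decide +kernel
theorem R7y0g1l1 : onlyLt 7 (rowAt R7y0g1ds 1) = true := by
  decide +kernel
theorem R7y0g1l : ∀ k < 2, onlyLt 7 (rowAt R7y0g1ds k) = true := by
  intro k hk
  interval_cases k
  · exact R7y0g1l0
  · exact R7y0g1l1

end Pool.Agent.Mond56
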