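import Pool.Agent.Mond61.PolyCert4

set_option autoImplicit false

/-! MP_ed98ad_ag: from kernel-checked identities `∑ h_i ρ_ik = δ_{k k₀} t` (mod `p`) to `t • l_{k₀} = 0` in every module
in which the relations `∑ ρ_ik l_k = 0` hold. -/

namespace Pool.Agent.Mond56

open Pool.Agent.Mond61

/-- the power of a variable -/
noncomputable def vpow (a wa n : ℕ) : Ex :=
  Nat.rec (motive := fun _ => Ex) (Ex.c (nat_lit 1)) (fun _ e => Ex.mul wa (Ex.v a) e) n

theorem ev_vpow (s ws : List ℕ) (cb : ℕ) {A : Type*} [CommSemiring A] (x : ℕ → A) (a wa n : ℕ) (ha : a < s.length) :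
    (vpow a wa n).ev s ws cb x = x a ^ n := by
  induction n with
  | zero =>
    change (Ex.c 1).ev s ws cb x = _
    rw [Ex.ev_c, Nat.cast_one, pow_zero]
  | succ n ih =>
    change (Ex.mul wa (Ex.v a) (vpow a wa n)).ev s ws cb x = _
    rw [Ex.ev_mul, ih, Ex.ev_v _ _ _ _ _ ha, pow_succ']

/-- the `k`-th component of a row -/
noncomputable def rowAt (r : List Ex) (k : ℕ) : Ex := r.getD k (Ex.c (nat_lit 0))

/-- `∑ h_i ρ_ik + base` -/
noncomputable def cmb (k : ℕ) (base : Ex) (hs : List (ℕ × Ex)) : List (List Ex) → Ex :=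
  List.rec (motive := fun _ => List (List Ex) → Ex) (fun _ => base)
    (fun h _ ih rs => List.rec (motive := fun _ => Ex) base
      (fun r rs' _ => Ex.add (Ex.mul h.1 h.2 (rowAt r k)) (ih rs')) rs) hs

theorem cmb_nil (k : ℕ) (base : Ex) (rs : List (List Ex)) : cmb k base [] rs = base := rfl
theorem cmb_cons_nil (k : ℕ) (base : Ex) (h : ℕ × Ex) (hs : List (ℕ × Ex)) : cmb k base (h :: hs) [] = base := rfl
theorem cmb_cons_cons (k : ℕ) (base : Ex) (h : ℕ × Ex) (hs : List (ℕ × Ex)) (r : List Ex) (rs : List (List Ex)) :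
    cmb k base (h :: hs) (r :: rs) = Ex.add (Ex.mul h.1 h.2 (rowAt r k)) (cmb k base hs rs) := rfl

/-- the base: minus the target in the component `k₀` -/
noncomputable def bse (p D k₀ : ℕ) (tg : Ex) (k : ℕ) : Ex :=
  Bool.rec (motive := fun _ => Ex) (Ex.lit D (nat_lit 0) (nat_lit 0) (nat_lit 0))
    (Ex.mul (nat_lit 0) (Ex.c (Nat.sub p (nat_lit 1))) tg) (Nat.beq k k₀)

theorem bse_self (p D k₀ : ℕ) (tg : Ex) : bse p D k₀ tg k₀ = Ex.mul 0 (Ex.c (p - 1)) tg := by
  unfold bse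
  rw [show Nat.beq k₀ k₀ = true from Nat.beq_refl k₀]
  rfl

theorem bse_ne (p D k₀ : ℕ) (tg : Ex) {k : ℕ} (h : k ≠ k₀) : bse p D k₀ tg k = Ex.lit D 0 0 0 := by
  unfold bse
  have : Nat.beq k k₀ = false := by
    rw [← Bool.not_eq_true]
    exact fun h' => h (Nat.eq_of_beq_eq_true h')
  rw [this]

theorem ev_lit_zero (s ws : List ℕ) (cb D : ℕ) {A : Type*} [CommSemiring A] (x : ℕ → A) :
    (Ex.lit D 0 0 0).ev s ws cb x = 0 := by
  unfold Ex.ev Ex.mv
  simp

/-- the check for the component `k` -/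
noncomputable def kchk (s ws Vs : List ℕ) (w cb p t L D : ℕ) (k₀ : ℕ) (tg : Ex) (hs : List (ℕ × Ex)) (rs : List (List Ex))
    (k : ℕ) : Bool :=
  modChk s ws Vs w cb p t L D (cmb k (bse p D k₀ tg k) hs rs)

theorem kill {s ws Vs : List ℕ} {w cb p t L D : ℕ} (hV : AllOK s ws Vs) {K k₀ : ℕ} (hk₀ : k₀ < K) {tg : Ex}
    {hs : List (ℕ × Ex)} {rs : List (List Ex)} (hp1 : 0 < p)
    (h : ∀ k < K, kchk s ws Vs w cb p t L D k₀ tg hs rs k = true)
    {A : Type*} [CommRing A] (hp : (p : A) = 0) (x : ℕ → A) {M : Type*} [AddCommGroup M] [Module A M] (l : Fin K → M)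
    (hl : ∀ r ∈ rs, ∑ k : Fin K, ((rowAt r k).ev s ws cb x) • l k = 0) :
    (tg.ev s ws cb x) • l ⟨k₀, hk₀⟩ = 0 := by
  have h0 : ∀ k : Fin K, (cmb k (bse p D k₀ tg k) hs rs).ev s ws cb x = 0 := fun k =>
    modChk_ev s ws Vs w cb p t L D _ hV (h k k.2) hp x
  have key : ∀ (hs : List (ℕ × Ex)) (rs : List (List Ex)), (∀ r ∈ rs, ∑ k : Fin K, ((rowAt r k).ev s ws cb x) • l k = 0) →
      ∑ k : Fin K, ((cmb k (bse p D k₀ tg k) hs rs).ev s ws cb x) • l k =
        ∑ k : Fin K, ((bse p D k₀ tg k).ev s ws cb x) • l k := by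
    intro hs
    induction hs with
    | nil => intro rs _; rfl
    | cons h hs ih =>
      intro rs hr
      cases rs with
      | nil => rfl
      | cons r rs =>
        have h1 := ih rs fun r' hr' => hr r' (List.mem_cons_of_mem _ hr')
        rw [← h1]
        have h2 := hr r (by simp)
        calc ∑ k : Fin K, ((cmb k (bse p D k₀ tg k) (h :: hs) (r :: rs)).ev s ws cb x) • l k
            = ∑ k : Fin K, (h.2.ev s ws cb x • ((rowAt r k).ev s ws cb x • l k) +
                ((cmb k (bse p D k₀ tg k) hs rs).ev s ws cb x) • l k) := by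
              refine Finset.sum_congr rfl fun k _ => ?_
              rw [cmb_cons_cons, Ex.ev_add, Ex.ev_mul, add_smul, mul_smul]
          _ = ∑ k : Fin K, ((cmb k (bse p D k₀ tg k) hs rs).ev s ws cb x) • l k := by
              rw [Finset.sum_add_distrib, ← Finset.smul_sum, h2, smul_zero, zero_add]
  have h3 := key hs rs hl
  rw [Finset.sum_eq_zero (fun k _ => by rw [h0 k, zero_smul])] at h3
  have h4 : ∑ k : Fin K, ((bse p D k₀ tg k).ev s ws cb x) • l k = - ((tg.ev s ws cb x) • l ⟨k₀, hk₀⟩) := by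
    rw [Finset.sum_eq_single (⟨k₀, hk₀⟩ : Fin K)]
    · change ((bse p D k₀ tg k₀).ev s ws cb x) • l ⟨k₀, hk₀⟩ = _
      rw [bse_self, Ex.ev_mul, Ex.ev_c, Nat.cast_sub (by omega), Nat.cast_one, hp, zero_sub, neg_mul, one_mul, neg_smul]
    · intro k _ hk
      have hk' : (k : ℕ) ≠ k₀ := fun h => hk (Fin.ext h)
      rw [bse_ne p D k₀ tg hk', ev_lit_zero, zero_smul]
    · intro h
      exact absurd (Finset.mem_univ _) h
  rw [h4] at h3
  exact neg_eq_zero.1 h3.symm

end Pool.Agent.Mond56
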