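import Pool.Agent.LibMond56.Kill

set_option autoImplicit false

/-! MP_ed98ad_ag: vector targets, expressions in the first variables. -/

namespace Pool.Agent.Mond56

open Pool.Agent.Mond61

/-- the check of the component `k` for a vector target -/
noncomputable def kchkV (s ws Vs : List ℕ) (w cb p t L D : ℕ) (tgs : List Ex) (hs : List (ℕ × Ex)) (rs : List (List Ex))
    (k : ℕ) : Bool :=
  modChk s ws Vs w cb p t L D (cmb k (Ex.mul (nat_lit 0) (Ex.c (Nat.sub p (nat_lit 1))) (rowAt tgs k)) hs rs)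

theorem killV {s ws Vs : List ℕ} {w cb p t L D : ℕ} (hV : AllOK s ws Vs) {K : ℕ} {tgs : List Ex}
    {hs : List (ℕ × Ex)} {rs : List (List Ex)} (hp1 : 0 < p)
    (h : ∀ k < K, kchkV s ws Vs w cb p t L D tgs hs rs k = true)
    {A : Type*} [CommRing A] (hp : (p : A) = 0) (x : ℕ → A) {M : Type*} [AddCommGroup M] [Module A M] (l : Fin K → M)
    (hl : ∀ r ∈ rs, ∑ k : Fin K, ((rowAt r k).ev s ws cb x) • l k = 0) :
    ∑ k : Fin K, ((rowAt tgs k).ev s ws cb x) • l k = 0 := by
  have h0 : ∀ k : Fin K, (cmb k (Ex.mul 0 (Ex.c (p - 1)) (rowAt tgs k)) hs rs).ev s ws cb x = 0 := fun k =>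
    modChk_ev s ws Vs w cb p t L D _ hV (h k k.2) hp x
  have key : ∀ (hs : List (ℕ × Ex)) (rs : List (List Ex)), (∀ r ∈ rs, ∑ k : Fin K, ((rowAt r k).ev s ws cb x) • l k = 0) →
      ∑ k : Fin K, ((cmb k (Ex.mul 0 (Ex.c (p - 1)) (rowAt tgs k)) hs rs).ev s ws cb x) • l k =
        ∑ k : Fin K, ((Ex.mul 0 (Ex.c (p - 1)) (rowAt tgs k)).ev s ws cb x) • l k := by
    intro hs
    induction hs with
    | nil => intro rs _; rfl
    | cons h hs ih =>
      intro rs hr
      cases rs with
      | nil => rfl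
      | cons r rs =>
        have h1 := ih rs fun r' hr' => hr r' (List.mem_cons_of_mem _ hr')
        rw [← h1]
        have h2 := hr r (by simp)
        calc ∑ k : Fin K, ((cmb k (Ex.mul 0 (Ex.c (p - 1)) (rowAt tgs k)) (h :: hs) (r :: rs)).ev s ws cb x) • l k
            = ∑ k : Fin K, (h.2.ev s ws cb x • ((rowAt r k).ev s ws cb x • l k) +
                ((cmb k (Ex.mul 0 (Ex.c (p - 1)) (rowAt tgs k)) hs rs).ev s ws cb x) • l k) := by
              refine Finset.sum_congr rfl fun k _ => ?_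
              rw [cmb_cons_cons, Ex.ev_add, Ex.ev_mul, add_smul, mul_smul]
          _ = ∑ k : Fin K, ((cmb k (Ex.mul 0 (Ex.c (p - 1)) (rowAt tgs k)) hs rs).ev s ws cb x) • l k := by
              rw [Finset.sum_add_distrib, ← Finset.smul_sum, h2, smul_zero, zero_add]
  have h3 := key hs rs hl
  rw [Finset.sum_eq_zero (fun k _ => by rw [h0 k, zero_smul])] at h3
  have h4 : ∑ k : Fin K, ((Ex.mul 0 (Ex.c (p - 1)) (rowAt tgs k)).ev s ws cb x) • l k =
      - ∑ k : Fin K, ((rowAt tgs k).ev s ws cb x) • l k := by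
    rw [← Finset.sum_neg_distrib]
    refine Finset.sum_congr rfl fun k _ => ?_
    rw [Ex.ev_mul, Ex.ev_c, Nat.cast_sub (by omega), Nat.cast_one, hp, zero_sub, neg_mul, one_mul, neg_smul]
  rw [h4] at h3
  exact neg_eq_zero.1 h3.symm

/-- the expression is built from constants and the variables `< n` -/
noncomputable def onlyLt (n : ℕ) (e : Ex) : Bool :=
  Ex.rec (motive := fun _ => Bool) (fun i => Nat.blt i n) (fun _ => true)
    (fun _ _ m _ => Nat.beq m (nat_lit 0)) (fun _ _ x y => and x y) (fun _ _ _ x y => and x y) e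

theorem onlyLt_mem {s ws : List ℕ} {cb n : ℕ} (hn : n ≤ s.length) {A : Type*} [CommRing A] (x : ℕ → A) (S : Subring A)
    (hS : ∀ a < n, x a ∈ S) : ∀ e : Ex, onlyLt n e = true → e.ev s ws cb x ∈ S
  | .v i, h => by
    have h' : Nat.blt i n = true := h
    have hi : i < n := by simpa [Nat.blt_eq] using h'
    rw [Ex.ev_v _ _ _ _ _ (lt_of_lt_of_le hi hn)]
    exact hS i hi
  | .c k, _ => by rw [Ex.ev_c]; exact natCast_mem S k
  | .lit D o m N, h => by
    have h' : Nat.beq m 0 = true := h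
    have hm : m = 0 := Nat.eq_of_beq_eq_true h'
    subst hm
    have : (Ex.lit D o 0 N).ev s ws cb x = 0 := by
      unfold Ex.ev Ex.mv
      simp
    rw [this]
    exact S.zero_mem
  | .add a b, h => by
    have h' : and (onlyLt n a) (onlyLt n b) = true := h
    rw [Bool.and_eq_true] at h'
    rw [Ex.ev_add]
    exact S.add_mem (onlyLt_mem hn x S hS a h'.1) (onlyLt_mem hn x S hS b h'.2)
  | .mul _ a b, h => by
    have h' : and (onlyLt n a) (onlyLt n b) = true := h
    rw [Bool.and_eq_true] at h'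
    rw [Ex.ev_mul]
    exact S.mul_mem (onlyLt_mem hn x S hS a h'.1) (onlyLt_mem hn x S hS b h'.2)

/-- target `x_j l_g - ∑ d_g' l_g'` in the form `(p-1) x_j` in the component `g` plus `d` -/
noncomputable def ytg (p j wj g : ℕ) (ds : List Ex) (k : ℕ) : Ex :=
  Bool.rec (motive := fun _ => Ex) (rowAt ds k)
    (Ex.add (Ex.mul (nat_lit 0) (Ex.c (Nat.sub p (nat_lit 1))) (Ex.v j)) (rowAt ds k)) (Nat.beq k g)

/-- the check of the component `k` for `x_j l_g = ∑ d_g' l_g'` -/
noncomputable def ychk (s ws Vs : List ℕ) (w cb p t L D : ℕ) (j g : ℕ) (ds : List Ex) (hs : List (ℕ × Ex))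
    (rs : List (List Ex)) (k : ℕ) : Bool :=
  modChk s ws Vs w cb p t L D (cmb k (Bool.rec (motive := fun _ => Ex) (rowAt ds k)
    (Ex.add (Ex.mul (nat_lit 0) (Ex.c (Nat.sub p (nat_lit 1))) (Ex.v j)) (rowAt ds k)) (Nat.beq k g)) hs rs)

theorem killY {s ws Vs : List ℕ} {w cb p t L D : ℕ} (hV : AllOK s ws Vs) {K j g : ℕ} (hj : j < s.length) (hg : g < K)
    {ds : List Ex} {hs : List (ℕ × Ex)} {rs : List (List Ex)} (hp1 : 0 < p)
    (h : ∀ k < K, ychk s ws Vs w cb p t L D j g ds hs rs k = true)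
    {A : Type*} [CommRing A] (hp : (p : A) = 0) (x : ℕ → A) {M : Type*} [AddCommGroup M] [Module A M] (l : Fin K → M)
    (hl : ∀ r ∈ rs, ∑ k : Fin K, ((rowAt r k).ev s ws cb x) • l k = 0) :
    x j • l ⟨g, hg⟩ = ∑ k : Fin K, ((rowAt ds k).ev s ws cb x) • l k := by
  set B : ℕ → Ex := fun k => Bool.rec (motive := fun _ => Ex) (rowAt ds k)
    (Ex.add (Ex.mul (nat_lit 0) (Ex.c (Nat.sub p (nat_lit 1))) (Ex.v j)) (rowAt ds k)) (Nat.beq k g) with hB
  have h0 : ∀ k : Fin K, (cmb k (B k) hs rs).ev s ws cb x = 0 := fun k =>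
    modChk_ev s ws Vs w cb p t L D _ hV (h k k.2) hp x
  have key : ∀ (hs : List (ℕ × Ex)) (rs : List (List Ex)), (∀ r ∈ rs, ∑ k : Fin K, ((rowAt r k).ev s ws cb x) • l k = 0) →
      ∑ k : Fin K, ((cmb k (B k) hs rs).ev s ws cb x) • l k = ∑ k : Fin K, ((B k).ev s ws cb x) • l k := by
    intro hs
    induction hs with
    | nil => intro rs _; rfl
    | cons h hs ih =>
      intro rs hr
      cases rs with
      | nil => rfl
      | cons r rs =>
        have h1 := ih rs fun r' hr' => hr r' (List.mem_cons_of_mem _ hr')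
        rw [← h1]
        have h2 := hr r (by simp)
        calc ∑ k : Fin K, ((cmb k (B k) (h :: hs) (r :: rs)).ev s ws cb x) • l k
            = ∑ k : Fin K, (h.2.ev s ws cb x • ((rowAt r k).ev s ws cb x • l k) +
                ((cmb k (B k) hs rs).ev s ws cb x) • l k) := by
              refine Finset.sum_congr rfl fun k _ => ?_
              rw [cmb_cons_cons, Ex.ev_add, Ex.ev_mul, add_smul, mul_smul]
          _ = ∑ k : Fin K, ((cmb k (B k) hs rs).ev s ws cb x) • l k := by
              rw [Finset.sum_add_distrib, ← Finset.smul_sum, h2, smul_zero, zero_add]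
  have h3 := key hs rs hl
  rw [Finset.sum_eq_zero (fun k _ => by rw [h0 k, zero_smul])] at h3
  have h4 : ∀ k : Fin K, ((B k).ev s ws cb x) • l k =
      ((rowAt ds k).ev s ws cb x) • l k - (if k = ⟨g, hg⟩ then x j • l k else 0) := by
    intro k
    by_cases hk : k = ⟨g, hg⟩
    · subst hk
      rw [if_pos rfl]
      have : B g = Ex.add (Ex.mul 0 (Ex.c (p - 1)) (Ex.v j)) (rowAt ds g) := by
        rw [hB]
        simp only
        rw [show Nat.beq g g = true from Nat.beq_refl g]
        rfl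
      change ((B g).ev s ws cb x) • l ⟨g, hg⟩ = _
      rw [this, Ex.ev_add, Ex.ev_mul, Ex.ev_c, Ex.ev_v _ _ _ _ _ hj, Nat.cast_sub (by omega), Nat.cast_one, hp, zero_sub,
        neg_mul, one_mul, add_smul, neg_smul]
      abel
    · rw [if_neg hk, sub_zero]
      have : B k = rowAt ds k := by
        rw [hB]
        simp only
        have hb : Nat.beq k g = false := by
          rw [← Bool.not_eq_true]
          exact fun h' => hk (Fin.ext (Nat.eq_of_beq_eq_true h'))
        rw [hb]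
      rw [this]
  rw [Finset.sum_congr rfl fun k _ => h4 k, Finset.sum_sub_distrib, Finset.sum_ite_eq' Finset.univ] at h3
  simp only [Finset.mem_univ, if_true] at h3
  exact (sub_eq_zero.1 h3.symm).symm

end Pool.Agent.Mond56
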