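import Pool.Agent.LibMond56.LT
import Pool.Agent.LibMV18.F0
import Pool.Agent.LibMV18.F1
import Pool.Agent.LibMV18.F2
import Pool.Agent.LibMV18.F3
import Pool.Agent.LibMV18.F4

set_option autoImplicit false
set_option maxRecDepth 100000

/-! MP_ed98ad_ag: liftability identities of the mother fields 0..4 -/

namespace Pool.Agent.Mond56

open Pool.Agent.Mond61 Pool.Agent.LibMV18

noncomputable def X0p : List Ex := [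
  (.add (.mul 1 (.v 0) (.v 6)) (.add (.mul 1 (.v 3) (.v 7)) (.mul 1 (.v 3) (.v 11)))),
  (.add (.mul 0 (.c 3) (.mul 1 (.v 0) (.v 1))) (.add (.mul 0 (.c 2) (.mul 1 (.v 0) (.v 4))) (.add (.mul 1 (.v 0) (.v 7)) (.add (.mul 0 (.c 3) (.mul 1 (.v 2) (.v 2))) (.add (.mul 0 (.c 2) (.mul 1 (.v 2) (.v 5))) (.add (.mul 0 (.c 2) (.mul 1 (.v 2) (.v 10))) (.add (.mul 0 (.c 2) (.mul 1 (.v 3) (.v 10))) (.add (.mul 0 (.c 3) (.mul 1 (.v 4) (.v 8))) (.add (.mul 0 (.c 2) (.mul 1 (.v 5) (.v 10))) (.add (.mul 1 (.v 6) (.v 7)) (.mul 1 (.v 6) (.v 11)))))))))))),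
  (.add (.mul 0 (.c 2) (.mul 1 (.v 0) (.v 10))) (.add (.mul 0 (.c 2) (.mul 1 (.v 1) (.v 4))) (.add (.mul 1 (.v 2) (.v 8)) (.add (.mul 0 (.c 2) (.mul 1 (.v 2) (.v 9))) (.add (.mul 1 (.v 3) (.v 8)) (.add (.mul 1 (.v 4) (.v 4)) (.add (.mul 0 (.c 2) (.mul 1 (.v 4) (.v 7))) (.add (.mul 0 (.c 3) (.mul 1 (.v 6) (.v 10))) (.mul 1 (.v 11) (.v 11))))))))))]
noncomputable def X0n : List Ex := [
  (.add (.mul 1 (.v 0) (.v 8)) (.add (.mul 1 (.v 4) (.v 5)) (.mul 1 (.v 4) (.v 10)))),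
  (.add (.mul 0 (.c 2) (.mul 1 (.v 0) (.v 11))) (.add (.mul 1 (.v 1) (.v 6)) (.add (.mul 0 (.c 2) (.mul 1 (.v 1) (.v 9))) (.add (.mul 0 (.c 2) (.mul 1 (.v 2) (.v 3))) (.add (.mul 1 (.v 3) (.v 3)) (.add (.mul 0 (.c 2) (.mul 1 (.v 3) (.v 5))) (.add (.mul 1 (.v 4) (.v 6)) (.add (.mul 0 (.c 3) (.mul 1 (.v 8) (.v 11))) (.mul 1 (.v 10) (.v 10)))))))))),
  (.add (.mul 0 (.c 3) (.mul 1 (.v 0) (.v 2))) (.add (.mul 0 (.c 2) (.mul 1 (.v 0) (.v 3))) (.add (.mul 1 (.v 0) (.v 5)) (.add (.mul 0 (.c 3) (.mul 1 (.v 1) (.v 1))) (.add (.mul 0 (.c 2) (.mul 1 (.v 1) (.v 7))) (.add (.mul 0 (.c 2) (.mul 1 (.v 1) (.v 11))) (.add (.mul 0 (.c 3) (.mul 1 (.v 3) (.v 6))) (.add (.mul 0 (.c 2) (.mul 1 (.v 4) (.v 11))) (.add (.mul 1 (.v 5) (.v 8)) (.add (.mul 0 (.c 2) (.mul 1 (.v 7) (.v 11))) (.mul 1 (.v 8) (.v 10))))))))))))]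
theorem L0j0 : lchk side0 0 2 et0 X0p X0n = true := by
  decide +kernel
theorem L0j1 : lchk side1 1 2 et0 X0p X0n = true := by
  decide +kernel
theorem L0j2 : lchk side2 2 2 et0 X0p X0n = true := by
  decide +kernel
theorem L0j3 : lchk side3 3 2 et0 X0p X0n = true := by
  decide +kernel
noncomputable def X1p : List Ex := [
  (.mul 1 (.v 3) (.v 4)),
  (.add (.mul 0 (.c 2) (.mul 1 (.v 0) (.v 11))) (.add (.mul 1 (.v 1) (.v 6)) (.add (.mul 0 (.c 2) (.mul 1 (.v 1) (.v 9))) (.add (.mul 0 (.c 3) (.mul 1 (.v 3) (.v 5))) (.add (.mul 1 (.v 4) (.v 6)) (.add (.mul 0 (.c 3) (.mul 1 (.v 8) (.v 11))) (.mul 0 (.c 3) (.mul 1 (.v 10) (.v 10))))))))),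
  (.add (.mul 0 (.c 2) (.mul 1 (.v 1) (.v 7))) (.add (.mul 0 (.c 2) (.mul 1 (.v 1) (.v 11))) (.add (.mul 1 (.v 2) (.v 8)) (.add (.mul 1 (.v 4) (.v 7)) (.add (.mul 0 (.c 2) (.mul 1 (.v 7) (.v 11))) (.mul 0 (.c 2) (.mul 1 (.v 11) (.v 11))))))))]
noncomputable def X1n : List Ex := [
  (.add (.mul 0 (.c 3) (.mul 1 (.v 0) (.v 6))) (.add (.mul 1 (.v 0) (.v 8)) (.add (.mul 0 (.c 2) (.mul 1 (.v 0) (.v 9))) (.add (.mul 1 (.v 3) (.v 7)) (.mul 1 (.v 3) (.v 11)))))),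
  (.add (.mul 0 (.c 3) (.mul 1 (.v 0) (.v 1))) (.add (.mul 0 (.c 2) (.mul 1 (.v 0) (.v 4))) (.add (.mul 1 (.v 0) (.v 7)) (.add (.mul 0 (.c 3) (.mul 1 (.v 2) (.v 2))) (.add (.mul 0 (.c 3) (.mul 1 (.v 3) (.v 10))) (.add (.mul 0 (.c 3) (.mul 1 (.v 4) (.v 8))) (.add (.mul 1 (.v 6) (.v 7)) (.mul 1 (.v 6) (.v 11))))))))),
  (.add (.mul 0 (.c 2) (.mul 1 (.v 1) (.v 4))) (.add (.mul 1 (.v 2) (.v 6)) (.add (.mul 1 (.v 4) (.v 4)) (.mul 1 (.v 4) (.v 11)))))]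
theorem L1j0 : lchk side0 0 2 et1 X1p X1n = true := by
  decide +kernel
theorem L1j1 : lchk side1 1 2 et1 X1p X1n = true := by
  decide +kernel
theorem L1j2 : lchk side2 2 2 et1 X1p X1n = true := by
  decide +kernel
theorem L1j3 : lchk side3 3 2 et1 X1p X1n = true := by
  decide +kernel
noncomputable def X2p : List Ex := [
  (.add (.mul 0 (.c 5) (.mul 1 (.v 0) (.v 9))) (.add (.mul 0 (.c 6) (.mul 1 (.v 1) (.v 3))) (.add (.mul 0 (.c 6) (.mul 1 (.v 2) (.v 4))) (.add (.mul 1 (.v 3) (.v 7)) (.add (.mul 0 (.c 3) (.mul 1 (.v 3) (.v 11))) (.add (.mul 1 (.v 4) (.v 5)) (.mul 0 (.c 3) (.mul 1 (.v 4) (.v 10))))))))),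
  (.add (.mul 1 (.v 0) (.v 7)) (.add (.mul 0 (.c 3) (.mul 1 (.v 2) (.v 2))) (.add (.mul 0 (.c 6) (.mul 1 (.v 2) (.v 10))) (.add (.mul 0 (.c 5) (.mul 1 (.v 3) (.v 5))) (.add (.mul 1 (.v 6) (.v 7)) (.mul 0 (.c 3) (.mul 1 (.v 10) (.v 10)))))))),
  (.add (.mul 1 (.v 0) (.v 5)) (.add (.mul 0 (.c 3) (.mul 1 (.v 1) (.v 1))) (.add (.mul 0 (.c 6) (.mul 1 (.v 1) (.v 11))) (.add (.mul 0 (.c 5) (.mul 1 (.v 4) (.v 7))) (.add (.mul 1 (.v 5) (.v 8)) (.mul 0 (.c 3) (.mul 1 (.v 11) (.v 11))))))))]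
noncomputable def X2n : List Ex := [
  (.add (.mul 0 (.c 2) (.mul 1 (.v 0) (.v 6))) (.mul 0 (.c 2) (.mul 1 (.v 0) (.v 8)))),
  (.add (.mul 0 (.c 9) (.mul 1 (.v 0) (.v 1))) (.add (.mul 0 (.c 6) (.mul 1 (.v 0) (.v 11))) (.add (.mul 1 (.v 1) (.v 8)) (.add (.mul 1 (.v 1) (.v 9)) (.add (.mul 0 (.c 2) (.mul 1 (.v 2) (.v 5))) (.add (.mul 0 (.c 3) (.mul 1 (.v 3) (.v 10))) (.add (.mul 0 (.c 2) (.mul 1 (.v 5) (.v 10))) (.add (.mul 0 (.c 3) (.mul 1 (.v 6) (.v 11))) (.mul 0 (.c 3) (.mul 1 (.v 8) (.v 11))))))))))),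
  (.add (.mul 0 (.c 9) (.mul 1 (.v 0) (.v 2))) (.add (.mul 0 (.c 6) (.mul 1 (.v 0) (.v 10))) (.add (.mul 0 (.c 2) (.mul 1 (.v 1) (.v 7))) (.add (.mul 1 (.v 2) (.v 6)) (.add (.mul 1 (.v 2) (.v 9)) (.add (.mul 0 (.c 3) (.mul 1 (.v 4) (.v 11))) (.add (.mul 0 (.c 3) (.mul 1 (.v 6) (.v 10))) (.add (.mul 0 (.c 2) (.mul 1 (.v 7) (.v 11))) (.mul 0 (.c 3) (.mul 1 (.v 8) (.v 10)))))))))))]
theorem L2j0 : lchk side0 0 2 et2 X2p X2n = true := by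
  decide +kernel
theorem L2j1 : lchk side1 1 2 et2 X2p X2n = true := by
  decide +kernel
theorem L2j2 : lchk side2 2 2 et2 X2p X2n = true := by
  decide +kernel
theorem L2j3 : lchk side3 3 2 et2 X2p X2n = true := by
  decide +kernel
noncomputable def X3p : List Ex := [
  (.add (.mul 0 (.c 4) (.mul 1 (.v 0) (.v 6))) (.add (.mul 0 (.c 3) (.mul 1 (.v 0) (.v 9))) (.add (.mul 0 (.c 6) (.mul 1 (.v 2) (.v 4))) (.add (.mul 0 (.c 2) (.mul 1 (.v 4) (.v 5))) (.mul 0 (.c 4) (.mul 1 (.v 4) (.v 10))))))),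
  (.add (.mul 0 (.c 4) (.mul 1 (.v 0) (.v 4))) (.add (.mul 0 (.c 2) (.mul 1 (.v 0) (.v 11))) (.add (.mul 0 (.c 3) (.mul 1 (.v 1) (.v 9))) (.add (.mul 0 (.c 4) (.mul 1 (.v 2) (.v 10))) (.add (.mul 1 (.v 3) (.v 5)) (.add (.mul 0 (.c 6) (.mul 1 (.v 4) (.v 8))) (.add (.mul 0 (.c 3) (.mul 1 (.v 8) (.v 11))) (.mul 0 (.c 7) (.mul 1 (.v 10) (.v 10)))))))))),
  (.add (.mul 0 (.c 2) (.mul 1 (.v 0) (.v 5))) (.add (.mul 0 (.c 6) (.mul 1 (.v 1) (.v 1))) (.add (.mul 0 (.c 4) (.mul 1 (.v 1) (.v 4))) (.add (.mul 0 (.c 2) (.mul 1 (.v 1) (.v 7))) (.add (.mul 0 (.c 2) (.mul 1 (.v 1) (.v 11))) (.add (.mul 0 (.c 4) (.mul 1 (.v 2) (.v 8))) (.add (.mul 0 (.c 2) (.mul 1 (.v 3) (.v 8))) (.add (.mul 0 (.c 2) (.mul 1 (.v 4) (.v 4))) (.add (.mul 0 (.c 4) (.mul 1 (.v 4) (.v 7))) (.add (.mul 0 (.c 2) (.mul 1 (.v 4) (.v 11))) (.add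 (.mul 0 (.c 2) (.mul 1 (.v 5) (.v 8))) (.mul 0 (.c 2) (.mul 1 (.v 7) (.v 11))))))))))))))]
noncomputable def X3n : List Ex := [
  (.add (.mul 0 (.c 6) (.mul 1 (.v 0) (.v 8))) (.add (.mul 1 (.v 3) (.v 7)) (.mul 1 (.v 3) (.v 11)))),
  (.add (.mul 0 (.c 3) (.mul 1 (.v 0) (.v 1))) (.add (.mul 1 (.v 0) (.v 7)) (.add (.mul 0 (.c 4) (.mul 1 (.v 1) (.v 6))) (.add (.mul 1 (.v 1) (.v 8)) (.add (.mul 0 (.c 3) (.mul 1 (.v 2) (.v 2))) (.add (.mul 0 (.c 4) (.mul 1 (.v 2) (.v 3))) (.add (.mul 0 (.c 4) (.mul 1 (.v 2) (.v 5))) (.add (.mul 0 (.c 2) (.mul 1 (.v 3) (.v 3))) (.add (.mul 0 (.c 5) (.mul 1 (.v 3) (.v 10))) (.add (.mul 0 (.c 2) (.mul 1 (.v 4) (.v 6))) (.add (.mul 0 (.c 4) (.mul 1 (.v 5) (.v 10))) (.add (.mul 1 (.v 6) (.v 7)) (.mul 1 (.v 6) (.v 11)))))))))))))),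
  (.add (.mul 0 (.c 6) (.mul 1 (.v 0) (.v 2))) (.add (.mul 0 (.c 4) (.mul 1 (.v 0) (.v 3))) (.add (.mul 0 (.c 8) (.mul 1 (.v 0) (.v 10))) (.add (.mul 0 (.c 3) (.mul 1 (.v 2) (.v 9))) (.add (.mul 0 (.c 6) (.mul 1 (.v 3) (.v 6))) (.add (.mul 0 (.c 6) (.mul 1 (.v 6) (.v 10))) (.add (.mul 0 (.c 2) (.mul 1 (.v 8) (.v 10))) (.mul 0 (.c 4) (.mul 1 (.v 11) (.v 11))))))))))]
theorem L3j0 : lchk side0 0 2 et3 X3p X3n = true := by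
  decide +kernel
theorem L3j1 : lchk side1 1 2 et3 X3p X3n = true := by
  decide +kernel
theorem L3j2 : lchk side2 2 2 et3 X3p X3n = true := by
  decide +kernel
theorem L3j3 : lchk side3 3 2 et3 X3p X3n = true := by
  decide +kernel
noncomputable def X4p : List Ex := [
  (.add (.mul 0 (.c 2) (.mul 1 (.v 0) (.v 7))) (.add (.mul 1 (.v 0) (.v 11)) (.add (.mul 1 (.v 4) (.v 6)) (.add (.mul 1 (.v 4) (.v 8)) (.mul 1 (.v 4) (.v 9)))))),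
  (.mul 1 (.v 1) (.v 4)),
  (.add (.mul 1 (.v 0) (.v 9)) (.add (.mul 0 (.c 3) (.mul 1 (.v 1) (.v 2))) (.add (.mul 0 (.c 3) (.mul 1 (.v 1) (.v 10))) (.add (.mul 0 (.c 3) (.mul 1 (.v 4) (.v 5))) (.add (.mul 1 (.v 8) (.v 8)) (.add (.mul 1 (.v 8) (.v 9)) (.mul 0 (.c 3) (.mul 1 (.v 10) (.v 11)))))))))]
noncomputable def X4n : List Ex := [
  (.mul 1 (.v 0) (.v 4)),
  (.add (.mul 1 (.v 1) (.v 11)) (.add (.mul 0 (.c 2) (.mul 1 (.v 2) (.v 6))) (.add (.mul 0 (.c 2) (.mul 1 (.v 2) (.v 8))) (.add (.mul 0 (.c 2) (.mul 1 (.v 2) (.v 9))) (.add (.mul 1 (.v 3) (.v 6)) (.add (.mul 1 (.v 3) (.v 8)) (.add (.mul 1 (.v 3) (.v 9)) (.add (.mul 0 (.c 2) (.mul 1 (.v 6) (.v 10))) (.add (.mul 0 (.c 2) (.mul 1 (.v 8) (.v 10))) (.mul 0 (.c 2) (.mul 1 (.v 9) (.v 10)))))))))))),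
  (.add (.mul 0 (.c 3) (.mul 1 (.v 0) (.v 0))) (.add (.mul 0 (.c 2) (.mul 1 (.v 0) (.v 6))) (.add (.mul 0 (.c 2) (.mul 1 (.v 0) (.v 8))) (.add (.mul 0 (.c 3) (.mul 1 (.v 1) (.v 3))) (.add (.mul 0 (.c 2) (.mul 1 (.v 2) (.v 7))) (.add (.mul 0 (.c 3) (.mul 1 (.v 3) (.v 11))) (.mul 0 (.c 2) (.mul 1 (.v 6) (.v 8)))))))))]
theorem L4j0 : lchk side0 0 2 et4 X4p X4n = true := by
  decide +kernel
theorem L4j1 : lchk side1 1 2 et4 X4p X4n = true := by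
  decide +kernel
theorem L4j2 : lchk side2 2 2 et4 X4p X4n = true := by
  decide +kernel
theorem L4j3 : lchk side3 3 2 et4 X4p X4n = true := by
  decide +kernel

end Pool.Agent.Mond56
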