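import Pool.Agent.LibMond56.LT
import Pool.Agent.LibMV18.F5
import Pool.Agent.LibMV18.F6
import Pool.Agent.LibMV18.F7
import Pool.Agent.LibMV18.F8
import Pool.Agent.LibMV18.F9

set_option autoImplicit false
set_option maxRecDepth 100000

/-! MP_ed98ad_ag: liftability identities of the mother fields 5..9 -/

namespace Pool.Agent.Mond56

open Pool.Agent.Mond61 Pool.Agent.LibMV18

noncomputable def X5p : List Ex := [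
  (.add (.mul 1 (.v 0) (.v 7)) (.add (.mul 0 (.c 2) (.mul 1 (.v 1) (.v 6))) (.add (.mul 0 (.c 2) (.mul 1 (.v 1) (.v 9))) (.add (.mul 0 (.c 2) (.mul 1 (.v 2) (.v 3))) (.add (.mul 0 (.c 2) (.mul 1 (.v 3) (.v 5))) (.add (.mul 1 (.v 4) (.v 6)) (.add (.mul 1 (.v 4) (.v 8)) (.add (.mul 0 (.c 3) (.mul 1 (.v 4) (.v 9))) (.mul 0 (.c 2) (.mul 1 (.v 6) (.v 7))))))))))),
  (.add (.mul 1 (.v 1) (.v 4)) (.add (.mul 1 (.v 1) (.v 7)) (.add (.mul 0 (.c 2) (.mul 1 (.v 6) (.v 10))) (.mul 1 (.v 9) (.v 10))))),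
  (.add (.mul 1 (.v 0) (.v 9)) (.add (.mul 0 (.c 3) (.mul 1 (.v 1) (.v 2))) (.add (.mul 1 (.v 1) (.v 10)) (.add (.mul 0 (.c 3) (.mul 1 (.v 4) (.v 5))) (.add (.mul 1 (.v 5) (.v 7)) (.add (.mul 1 (.v 6) (.v 6)) (.add (.mul 1 (.v 6) (.v 9)) (.mul 1 (.v 7) (.v 10)))))))))]
noncomputable def X5n : List Ex := [
  (.add (.mul 0 (.c 2) (.mul 1 (.v 0) (.v 1))) (.add (.mul 1 (.v 0) (.v 4)) (.add (.mul 0 (.c 2) (.mul 1 (.v 2) (.v 2))) (.add (.mul 0 (.c 2) (.mul 1 (.v 2) (.v 5))) (.add (.mul 0 (.c 2) (.mul 1 (.v 2) (.v 10))) (.add (.mul 0 (.c 2) (.mul 1 (.v 5) (.v 10))) (.mul 0 (.c 2) (.mul 1 (.v 9) (.v 11))))))))),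
  (.add (.mul 0 (.c 2) (.mul 1 (.v 1) (.v 11))) (.add (.mul 0 (.c 2) (.mul 1 (.v 3) (.v 6))) (.add (.mul 1 (.v 3) (.v 9)) (.add (.mul 0 (.c 2) (.mul 1 (.v 5) (.v 8))) (.mul 1 (.v 5) (.v 9)))))),
  (.add (.mul 0 (.c 3) (.mul 1 (.v 0) (.v 0))) (.add (.mul 0 (.c 2) (.mul 1 (.v 0) (.v 6))) (.add (.mul 0 (.c 2) (.mul 1 (.v 0) (.v 8))) (.add (.mul 1 (.v 1) (.v 3)) (.add (.mul 0 (.c 2) (.mul 1 (.v 1) (.v 5))) (.add (.mul 1 (.v 2) (.v 7)) (.add (.mul 1 (.v 2) (.v 11)) (.add (.mul 1 (.v 3) (.v 7)) (.add (.mul 0 (.c 3) (.mul 1 (.v 5) (.v 11))) (.mul 0 (.c 2) (.mul 1 (.v 6) (.v 8))))))))))))]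
theorem L5j0 : lchk side0 0 2 et5 X5p X5n = true := by
  decide +kernel
theorem L5j1 : lchk side1 1 2 et5 X5p X5n = true := by
  decide +kernel
theorem L5j2 : lchk side2 2 2 et5 X5p X5n = true := by
  decide +kernel
theorem L5j3 : lchk side3 3 2 et5 X5p X5n = true := by
  decide +kernel
noncomputable def X6p : List Ex := [
  (.add (.mul 1 (.v 0) (.v 11)) (.add (.mul 0 (.c 2) (.mul 1 (.v 1) (.v 6))) (.add (.mul 0 (.c 2) (.mul 1 (.v 1) (.v 9))) (.add (.mul 0 (.c 2) (.mul 1 (.v 2) (.v 3))) (.add (.mul 0 (.c 3) (.mul 1 (.v 3) (.v 5))) (.add (.mul 1 (.v 3) (.v 10)) (.add (.mul 1 (.v 4) (.v 9)) (.mul 0 (.c 2) (.mul 1 (.v 6) (.v 7)))))))))),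
  (.add (.mul 0 (.c 2) (.mul 1 (.v 0) (.v 3))) (.add (.mul 1 (.v 1) (.v 7)) (.add (.mul 1 (.v 1) (.v 11)) (.add (.mul 0 (.c 2) (.mul 1 (.v 3) (.v 6))) (.add (.mul 0 (.c 2) (.mul 1 (.v 3) (.v 8))) (.mul 1 (.v 3) (.v 9))))))),
  (.add (.mul 0 (.c 2) (.mul 1 (.v 0) (.v 6))) (.add (.mul 0 (.c 2) (.mul 1 (.v 0) (.v 8))) (.add (.mul 0 (.c 2) (.mul 1 (.v 0) (.v 9))) (.add (.mul 0 (.c 2) (.mul 1 (.v 1) (.v 5))) (.add (.mul 0 (.c 2) (.mul 1 (.v 1) (.v 10))) (.add (.mul 1 (.v 2) (.v 7)) (.add (.mul 1 (.v 2) (.v 11)) (.add (.mul 1 (.v 3) (.v 4)) (.add (.mul 1 (.v 5) (.v 7)) (.add (.mul 1 (.v 5) (.v 11)) (.add (.mul 1 (.v 6) (.v 6)) (.add (.mul 0 (.c 2) (.mul 1 (.v 6) (.v 8))) (.add (.mul 1 (.v 6) (.v 9)) (.add (.mul 1 (.v 7) (.v 10)) (.add (.mul 1 (.v 8) (.v 8)) (.add (.mul 1 (.v 8) (.v 9)) (.mul 1 (.v 10)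 (.v 11))))))))))))))))))]
noncomputable def X6n : List Ex := [
  (.add (.mul 0 (.c 2) (.mul 1 (.v 0) (.v 1))) (.add (.mul 1 (.v 0) (.v 4)) (.add (.mul 1 (.v 0) (.v 7)) (.add (.mul 0 (.c 2) (.mul 1 (.v 2) (.v 2))) (.add (.mul 0 (.c 2) (.mul 1 (.v 2) (.v 5))) (.add (.mul 0 (.c 2) (.mul 1 (.v 2) (.v 10))) (.add (.mul 1 (.v 3) (.v 3)) (.add (.mul 1 (.v 4) (.v 6)) (.add (.mul 1 (.v 4) (.v 8)) (.add (.mul 0 (.c 2) (.mul 1 (.v 5) (.v 10))) (.mul 0 (.c 2) (.mul 1 (.v 9) (.v 11))))))))))))),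
  (.add (.mul 0 (.c 2) (.mul 1 (.v 0) (.v 5))) (.add (.mul 0 (.c 2) (.mul 1 (.v 0) (.v 10))) (.add (.mul 1 (.v 1) (.v 4)) (.add (.mul 0 (.c 2) (.mul 1 (.v 2) (.v 6))) (.add (.mul 0 (.c 2) (.mul 1 (.v 2) (.v 8))) (.add (.mul 0 (.c 2) (.mul 1 (.v 2) (.v 9))) (.add (.mul 0 (.c 2) (.mul 1 (.v 5) (.v 6))) (.add (.mul 0 (.c 2) (.mul 1 (.v 5) (.v 8))) (.add (.mul 1 (.v 5) (.v 9)) (.add (.mul 0 (.c 2) (.mul 1 (.v 6) (.v 10))) (.add (.mul 0 (.c 2) (.mul 1 (.v 8) (.v 10))) (.mul 1 (.v 9) (.v 10))))))))))))),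
  (.add (.mul 0 (.c 2) (.mul 1 (.v 1) (.v 3))) (.add (.mul 1 (.v 2) (.v 4)) (.add (.mul 1 (.v 3) (.v 7)) (.add (.mul 1 (.v 3) (.v 11)) (.add (.mul 1 (.v 4) (.v 5)) (.mul 1 (.v 4) (.v 10)))))))]
theorem L6j0 : lchk side0 0 2 et6 X6p X6n = true := by
  decide +kernel
theorem L6j1 : lchk side1 1 2 et6 X6p X6n = true := by
  decide +kernel
theorem L6j2 : lchk side2 2 2 et6 X6p X6n = true := by
  decide +kernel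
theorem L6j3 : lchk side3 3 2 et6 X6p X6n = true := by
  decide +kernel
noncomputable def X7p : List Ex := [
  (.add (.mul 0 (.c 2) (.mul 1 (.v 0) (.v 7))) (.add (.mul 0 (.c 6) (.mul 1 (.v 2) (.v 3))) (.add (.mul 0 (.c 5) (.mul 1 (.v 3) (.v 5))) (.add (.mul 1 (.v 3) (.v 10)) (.add (.mul 1 (.v 4) (.v 6)) (.mul 0 (.c 5) (.mul 1 (.v 4) (.v 9)))))))),
  (.add (.mul 0 (.c 2) (.mul 1 (.v 0) (.v 3))) (.add (.mul 0 (.c 2) (.mul 1 (.v 0) (.v 5))) (.add (.mul 1 (.v 1) (.v 4)) (.add (.mul 1 (.v 1) (.v 11)) (.add (.mul 0 (.c 3) (.mul 1 (.v 3) (.v 8))) (.mul 0 (.c 4) (.mul 1 (.v 3) (.v 9)))))))),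
  (.add (.mul 0 (.c 2) (.mul 1 (.v 0) (.v 9))) (.add (.mul 0 (.c 2) (.mul 1 (.v 1) (.v 5))) (.add (.mul 1 (.v 3) (.v 4)) (.add (.mul 0 (.c 2) (.mul 1 (.v 3) (.v 11))) (.add (.mul 0 (.c 4) (.mul 1 (.v 4) (.v 5))) (.add (.mul 0 (.c 2) (.mul 1 (.v 5) (.v 11))) (.add (.mul 1 (.v 6) (.v 8)) (.mul 0 (.c 2) (.mul 1 (.v 8) (.v 9))))))))))]
noncomputable def X7n : List Ex := [
  (.add (.mul 0 (.c 6) (.mul 1 (.v 0) (.v 1))) (.add (.mul 1 (.v 0) (.v 4)) (.add (.mul 0 (.c 3) (.mul 1 (.v 0) (.v 11))) (.mul 1 (.v 3) (.v 3))))),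
  (.add (.mul 0 (.c 2) (.mul 1 (.v 0) (.v 10))) (.add (.mul 0 (.c 2) (.mul 1 (.v 2) (.v 6))) (.add (.mul 0 (.c 4) (.mul 1 (.v 2) (.v 9))) (.add (.mul 0 (.c 2) (.mul 1 (.v 3) (.v 6))) (.add (.mul 1 (.v 5) (.v 6)) (.add (.mul 1 (.v 6) (.v 10)) (.mul 0 (.c 4) (.mul 1 (.v 9) (.v 10))))))))),
  (.add (.mul 0 (.c 3) (.mul 1 (.v 0) (.v 0))) (.add (.mul 0 (.c 2) (.mul 1 (.v 0) (.v 6))) (.add (.mul 1 (.v 1) (.v 3)) (.add (.mul 0 (.c 2) (.mul 1 (.v 1) (.v 10))) (.add (.mul 0 (.c 2) (.mul 1 (.v 2) (.v 7))) (.add (.mul 1 (.v 2) (.v 11)) (.add (.mul 0 (.c 3) (.mul 1 (.v 3) (.v 7))) (.add (.mul 1 (.v 4) (.v 10)) (.mul 0 (.c 2) (.mul 1 (.v 10) (.v 11)))))))))))]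
theorem L7j0 : lchk side0 0 2 et7 X7p X7n = true := by
  decide +kernel
theorem L7j1 : lchk side1 1 2 et7 X7p X7n = true := by
  decide +kernel
theorem L7j2 : lchk side2 2 2 et7 X7p X7n = true := by
  decide +kernel
theorem L7j3 : lchk side3 3 2 et7 X7p X7n = true := by
  decide +kernel
noncomputable def X8p : List Ex := [
  (.add (.mul 0 (.c 4) (.mul 1 (.v 2) (.v 2))) (.add (.mul 0 (.c 2) (.mul 1 (.v 2) (.v 3))) (.add (.mul 0 (.c 4) (.mul 1 (.v 2) (.v 5))) (.add (.mul 0 (.c 4) (.mul 1 (.v 2) (.v 10))) (.add (.mul 0 (.c 4) (.mul 1 (.v 3) (.v 5))) (.add (.mul 1 (.v 4) (.v 6)) (.add (.mul 0 (.c 5) (.mul 1 (.v 4) (.v 9))) (.add (.mul 0 (.c 4) (.mul 1 (.v 5) (.v 10))) (.mul 0 (.c 4) (.mul 1 (.v 9) (.v 11))))))))))),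
  (.add (.mul 0 (.c 12) (.mul 1 (.v 0) (.v 2))) (.add (.mul 0 (.c 2) (.mul 1 (.v 0) (.v 3))) (.add (.mul 0 (.c 8) (.mul 1 (.v 0) (.v 5))) (.add (.mul 0 (.c 4) (.mul 1 (.v 0) (.v 10))) (.add (.mul 0 (.c 6) (.mul 1 (.v 2) (.v 6))) (.add (.mul 0 (.c 2) (.mul 1 (.v 2) (.v 9))) (.add (.mul 0 (.c 2) (.mul 1 (.v 3) (.v 8))) (.add (.mul 0 (.c 2) (.mul 1 (.v 5) (.v 6))) (.add (.mul 0 (.c 4) (.mul 1 (.v 5) (.v 8))) (.mul 0 (.c 2) (.mul 1 (.v 5) (.v 9)))))))))))),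
  (.add (.mul 0 (.c 2) (.mul 1 (.v 0) (.v 8))) (.add (.mul 1 (.v 3) (.v 4)) (.add (.mul 1 (.v 4) (.v 5)) (.add (.mul 0 (.c 2) (.mul 1 (.v 4) (.v 10))) (.add (.mul 0 (.c 2) (.mul 1 (.v 5) (.v 11))) (.add (.mul 0 (.c 4) (.mul 1 (.v 6) (.v 8))) (.add (.mul 1 (.v 8) (.v 8)) (.mul 1 (.v 10) (.v 11)))))))))]
noncomputable def X8n : List Ex := [
  (.add (.mul 0 (.c 8) (.mul 1 (.v 0) (.v 1))) (.add (.mul 0 (.c 2) (.mul 1 (.v 0) (.v 4))) (.add (.mul 1 (.v 0) (.v 7)) (.add (.mul 0 (.c 4) (.mul 1 (.v 1) (.v 6))) (.add (.mul 0 (.c 4) (.mul 1 (.v 1) (.v 9))) (.add (.mul 1 (.v 3) (.v 3)) (.add (.mul 0 (.c 2) (.mul 1 (.v 3) (.v 10))) (.add (.mul 1 (.v 4) (.v 8)) (.mul 0 (.c 4) (.mul 1 (.v 6) (.v 7))))))))))),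
  (.add (.mul 0 (.c 3) (.mul 1 (.v 1) (.v 7))) (.add (.mul 0 (.c 2) (.mul 1 (.v 1) (.v 11))) (.add (.mul 0 (.c 2) (.mul 1 (.v 2) (.v 8))) (.add (.mul 0 (.c 3) (.mul 1 (.v 3) (.v 9))) (.mul 0 (.c 2) (.mul 1 (.v 8) (.v 10))))))),
  (.add (.mul 0 (.c 3) (.mul 1 (.v 0) (.v 0))) (.add (.mul 0 (.c 2) (.mul 1 (.v 0) (.v 6))) (.add (.mul 0 (.c 3) (.mul 1 (.v 0) (.v 9))) (.add (.mul 0 (.c 9) (.mul 1 (.v 1) (.v 2))) (.add (.mul 0 (.c 5) (.mul 1 (.v 1) (.v 3))) (.add (.mul 1 (.v 1) (.v 10)) (.add (.mul 1 (.v 2) (.v 4)) (.add (.mul 1 (.v 2) (.v 7)) (.add (.mul 1 (.v 2) (.v 11)) (.add (.mul 1 (.v 3) (.v 7)) (.add (.mul 0 (.c 4) (.mul 1 (.v 3) (.v 11))) (.add (.mul 0 (.c 2) (.mul 1 (.v 5) (.v 7))) (.add (.mul 0 (.c 2) (.mul 1 (.v 6) (.v 6))) (.add (.mul 0 (.c 2) (.mul 1 (.v 6) (.v 9))) (.add (.mul 0 (.c 2) (.mul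 1 (.v 7) (.v 10))) (.mul 1 (.v 8) (.v 9)))))))))))))))))]
theorem L8j0 : lchk side0 0 2 et8 X8p X8n = true := by
  decide +kernel
theorem L8j1 : lchk side1 1 2 et8 X8p X8n = true := by
  decide +kernel
theorem L8j2 : lchk side2 2 2 et8 X8p X8n = true := by
  decide +kernel
theorem L8j3 : lchk side3 3 2 et8 X8p X8n = true := by
  decide +kernel
noncomputable def X9p : List Ex := [
  (.add (.mul 0 (.c 2) (.mul 1 (.v 0) (.v 5))) (.add (.mul 1 (.v 0) (.v 10)) (.add (.mul 1 (.v 3) (.v 6)) (.add (.mul 1 (.v 3) (.v 8)) (.mul 1 (.v 3) (.v 9)))))),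
  (.add (.mul 1 (.v 0) (.v 9)) (.add (.mul 0 (.c 3) (.mul 1 (.v 1) (.v 2))) (.add (.mul 0 (.c 3) (.mul 1 (.v 2) (.v 11))) (.add (.mul 0 (.c 3) (.mul 1 (.v 3) (.v 7))) (.add (.mul 1 (.v 6) (.v 6)) (.add (.mul 1 (.v 6) (.v 9)) (.mul 0 (.c 3) (.mul 1 (.v 10) (.v 11))))))))),
  (.mul 1 (.v 2) (.v 3))]
noncomputable def X9n : List Ex := [
  (.mul 1 (.v 0) (.v 3)),
  (.add (.mul 0 (.c 3) (.mul 1 (.v 0) (.v 0))) (.add (.mul 0 (.c 2) (.mul 1 (.v 0) (.v 6))) (.add (.mul 0 (.c 2) (.mul 1 (.v 0) (.v 8))) (.add (.mul 0 (.c 2) (.mul 1 (.v 1) (.v 5))) (.add (.mul 0 (.c 3) (.mul 1 (.v 2) (.v 4))) (.add (.mul 0 (.c 3) (.mul 1 (.v 4) (.v 10))) (.mul 0 (.c 2) (.mul 1 (.v 6) (.v 8))))))))),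
  (.add (.mul 0 (.c 2) (.mul 1 (.v 1) (.v 6))) (.add (.mul 0 (.c 2) (.mul 1 (.v 1) (.v 8))) (.add (.mul 0 (.c 2) (.mul 1 (.v 1) (.v 9))) (.add (.mul 1 (.v 2) (.v 10)) (.add (.mul 1 (.v 4) (.v 6)) (.add (.mul 1 (.v 4) (.v 8)) (.add (.mul 1 (.v 4) (.v 9)) (.add (.mul 0 (.c 2) (.mul 1 (.v 6) (.v 11))) (.add (.mul 0 (.c 2) (.mul 1 (.v 8) (.v 11))) (.mul 0 (.c 2) (.mul 1 (.v 9) (.v 11))))))))))))]
theorem L9j0 : lchk side0 0 2 et9 X9p X9n = true := by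
  decide +kernel
theorem L9j1 : lchk side1 1 2 et9 X9p X9n = true := by
  decide +kernel
theorem L9j2 : lchk side2 2 2 et9 X9p X9n = true := by
  decide +kernel
theorem L9j3 : lchk side3 3 2 et9 X9p X9n = true := by
  decide +kernel

end Pool.Agent.Mond56
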