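import Pool.Agent.LibMond56.LT
import Pool.Agent.LibMV18.F10
import Pool.Agent.LibMV18.F11
import Pool.Agent.LibMV18.F12
import Pool.Agent.LibMV18.F13
import Pool.Agent.LibMV18.F14

set_option autoImplicit false
set_option maxRecDepth 100000

/-! MP_ed98ad_ag: liftability identities of the mother fields 10..14 -/

namespace Pool.Agent.Mond56

open Pool.Agent.Mond61 Pool.Agent.LibMV18

noncomputable def X10p : List Ex := [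
  (.add (.mul 1 (.v 0) (.v 5)) (.add (.mul 0 (.c 2) (.mul 1 (.v 1) (.v 4))) (.add (.mul 0 (.c 2) (.mul 1 (.v 2) (.v 8))) (.add (.mul 0 (.c 2) (.mul 1 (.v 2) (.v 9))) (.add (.mul 1 (.v 3) (.v 6)) (.add (.mul 1 (.v 3) (.v 8)) (.add (.mul 0 (.c 3) (.mul 1 (.v 3) (.v 9))) (.add (.mul 0 (.c 2) (.mul 1 (.v 4) (.v 7))) (.mul 0 (.c 2) (.mul 1 (.v 5) (.v 8))))))))))),
  (.add (.mul 1 (.v 0) (.v 9)) (.add (.mul 0 (.c 3) (.mul 1 (.v 1) (.v 2))) (.add (.mul 1 (.v 2) (.v 11)) (.add (.mul 0 (.c 3) (.mul 1 (.v 3) (.v 7))) (.add (.mul 1 (.v 5) (.v 7)) (.add (.mul 1 (.v 5) (.v 11)) (.add (.mul 1 (.v 8) (.v 8)) (.mul 1 (.v 8) (.v 9))))))))),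
  (.add (.mul 1 (.v 2) (.v 3)) (.add (.mul 1 (.v 2) (.v 5)) (.add (.mul 0 (.c 2) (.mul 1 (.v 8) (.v 11))) (.mul 1 (.v 9) (.v 11)))))]
noncomputable def X10n : List Ex := [
  (.add (.mul 0 (.c 2) (.mul 1 (.v 0) (.v 2))) (.add (.mul 1 (.v 0) (.v 3)) (.add (.mul 0 (.c 2) (.mul 1 (.v 1) (.v 1))) (.add (.mul 0 (.c 2) (.mul 1 (.v 1) (.v 7))) (.add (.mul 0 (.c 2) (.mul 1 (.v 1) (.v 11))) (.add (.mul 0 (.c 2) (.mul 1 (.v 7) (.v 11))) (.mul 0 (.c 2) (.mul 1 (.v 9) (.v 10))))))))),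
  (.add (.mul 0 (.c 3) (.mul 1 (.v 0) (.v 0))) (.add (.mul 0 (.c 2) (.mul 1 (.v 0) (.v 6))) (.add (.mul 0 (.c 2) (.mul 1 (.v 0) (.v 8))) (.add (.mul 1 (.v 1) (.v 5)) (.add (.mul 1 (.v 1) (.v 10)) (.add (.mul 1 (.v 2) (.v 4)) (.add (.mul 0 (.c 2) (.mul 1 (.v 2) (.v 7))) (.add (.mul 1 (.v 4) (.v 5)) (.add (.mul 0 (.c 2) (.mul 1 (.v 6) (.v 8))) (.mul 0 (.c 3) (.mul 1 (.v 7) (.v 10)))))))))))),
  (.add (.mul 0 (.c 2) (.mul 1 (.v 2) (.v 10))) (.add (.mul 0 (.c 2) (.mul 1 (.v 4) (.v 8))) (.add (.mul 1 (.v 4) (.v 9)) (.add (.mul 0 (.c 2) (.mul 1 (.v 6) (.v 7))) (.mul 1 (.v 7) (.v 9))))))]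
theorem L10j0 : lchk side0 0 2 et10 X10p X10n = true := by
  decide +kernel
theorem L10j1 : lchk side1 1 2 et10 X10p X10n = true := by
  decide +kernel
theorem L10j2 : lchk side2 2 2 et10 X10p X10n = true := by
  decide +kernel
theorem L10j3 : lchk side3 3 2 et10 X10p X10n = true := by
  decide +kernel
noncomputable def X11p : List Ex := [
  (.add (.mul 0 (.c 2) (.mul 1 (.v 0) (.v 2))) (.add (.mul 1 (.v 0) (.v 3)) (.add (.mul 1 (.v 0) (.v 5)) (.add (.mul 0 (.c 2) (.mul 1 (.v 1) (.v 1))) (.add (.mul 0 (.c 2) (.mul 1 (.v 1) (.v 7))) (.add (.mul 0 (.c 2) (.mul 1 (.v 1) (.v 11))) (.add (.mul 1 (.v 3) (.v 6)) (.add (.mul 1 (.v 3) (.v 8)) (.add (.mul 1 (.v 4) (.v 4)) (.add (.mul 0 (.c 2) (.mul 1 (.v 7) (.v 11))) (.mul 0 (.c 2) (.mul 1 (.v 9) (.v 10))))))))))))),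
  (.add (.mul 1 (.v 1) (.v 3)) (.add (.mul 0 (.c 2) (.mul 1 (.v 2) (.v 4))) (.add (.mul 1 (.v 3) (.v 7)) (.add (.mul 1 (.v 3) (.v 11)) (.add (.mul 1 (.v 4) (.v 5)) (.mul 1 (.v 4) (.v 10))))))),
  (.add (.mul 0 (.c 2) (.mul 1 (.v 0) (.v 7))) (.add (.mul 0 (.c 2) (.mul 1 (.v 0) (.v 11))) (.add (.mul 0 (.c 2) (.mul 1 (.v 1) (.v 6))) (.add (.mul 0 (.c 2) (.mul 1 (.v 1) (.v 8))) (.add (.mul 0 (.c 2) (.mul 1 (.v 1) (.v 9))) (.add (.mul 1 (.v 2) (.v 3)) (.add (.mul 0 (.c 2) (.mul 1 (.v 6) (.v 7))) (.add (.mul 0 (.c 2) (.mul 1 (.v 6) (.v 11))) (.add (.mul 0 (.c 2) (.mul 1 (.v 7) (.v 8))) (.add (.mul 1 (.v 7) (.v 9)) (.add (.mul 0 (.c 2) (.mul 1 (.v 8) (.v 11))) (.mul 1 (.v 9) (.v 11)))))))))))))]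
noncomputable def X11n : List Ex := [
  (.add (.mul 1 (.v 0) (.v 10)) (.add (.mul 0 (.c 2) (.mul 1 (.v 1) (.v 4))) (.add (.mul 0 (.c 2) (.mul 1 (.v 2) (.v 8))) (.add (.mul 0 (.c 2) (.mul 1 (.v 2) (.v 9))) (.add (.mul 1 (.v 3) (.v 9)) (.add (.mul 0 (.c 3) (.mul 1 (.v 4) (.v 7))) (.add (.mul 1 (.v 4) (.v 11)) (.mul 0 (.c 2) (.mul 1 (.v 5) (.v 8)))))))))),
  (.add (.mul 0 (.c 2) (.mul 1 (.v 0) (.v 6))) (.add (.mul 0 (.c 2) (.mul 1 (.v 0) (.v 8))) (.add (.mul 0 (.c 2) (.mul 1 (.v 0) (.v 9))) (.add (.mul 1 (.v 1) (.v 5)) (.add (.mul 1 (.v 1) (.v 10)) (.add (.mul 0 (.c 2) (.mul 1 (.v 2) (.v 7))) (.add (.mul 0 (.c 2) (.mul 1 (.v 2) (.v 11))) (.add (.mul 1 (.v 3) (.v 4)) (.add (.mul 1 (.v 5) (.v 7)) (.add (.mul 1 (.v 5) (.v 11)) (.add (.mul 1 (.v 6) (.v 6)) (.add (.mul 0 (.c 2) (.mul 1 (.v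 6) (.v 8))) (.add (.mul 1 (.v 6) (.v 9)) (.add (.mul 1 (.v 7) (.v 10)) (.add (.mul 1 (.v 8) (.v 8)) (.add (.mul 1 (.v 8) (.v 9)) (.mul 1 (.v 10) (.v 11)))))))))))))))))),
  (.add (.mul 0 (.c 2) (.mul 1 (.v 0) (.v 4))) (.add (.mul 1 (.v 2) (.v 5)) (.add (.mul 1 (.v 2) (.v 10)) (.add (.mul 0 (.c 2) (.mul 1 (.v 4) (.v 6))) (.add (.mul 0 (.c 2) (.mul 1 (.v 4) (.v 8))) (.mul 1 (.v 4) (.v 9)))))))]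
theorem L11j0 : lchk side0 0 2 et11 X11p X11n = true := by
  decide +kernel
theorem L11j1 : lchk side1 1 2 et11 X11p X11n = true := by
  decide +kernel
theorem L11j2 : lchk side2 2 2 et11 X11p X11n = true := by
  decide +kernel
theorem L11j3 : lchk side3 3 2 et11 X11p X11n = true := by
  decide +kernel
noncomputable def X12p : List Ex := [
  (.add (.mul 0 (.c 2) (.mul 1 (.v 0) (.v 5))) (.add (.mul 0 (.c 6) (.mul 1 (.v 1) (.v 4))) (.add (.mul 1 (.v 3) (.v 8)) (.add (.mul 0 (.c 5) (.mul 1 (.v 3) (.v 9))) (.add (.mul 0 (.c 5) (.mul 1 (.v 4) (.v 7))) (.mul 1 (.v 4) (.v 11))))))),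
  (.add (.mul 0 (.c 2) (.mul 1 (.v 0) (.v 9))) (.add (.mul 0 (.c 2) (.mul 1 (.v 2) (.v 7))) (.add (.mul 1 (.v 3) (.v 4)) (.add (.mul 0 (.c 4) (.mul 1 (.v 3) (.v 7))) (.add (.mul 0 (.c 2) (.mul 1 (.v 4) (.v 10))) (.add (.mul 1 (.v 6) (.v 8)) (.add (.mul 0 (.c 2) (.mul 1 (.v 6) (.v 9))) (.mul 0 (.c 2) (.mul 1 (.v 7) (.v 10)))))))))),
  (.add (.mul 0 (.c 2) (.mul 1 (.v 0) (.v 4))) (.add (.mul 0 (.c 2) (.mul 1 (.v 0) (.v 7))) (.add (.mul 1 (.v 2) (.v 3)) (.add (.mul 1 (.v 2) (.v 10)) (.add (.mul 0 (.c 3) (.mul 1 (.v 4) (.v 6))) (.mul 0 (.c 4) (.mul 1 (.v 4) (.v 9))))))))]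
noncomputable def X12n : List Ex := [
  (.add (.mul 0 (.c 6) (.mul 1 (.v 0) (.v 2))) (.add (.mul 1 (.v 0) (.v 3)) (.add (.mul 0 (.c 3) (.mul 1 (.v 0) (.v 10))) (.mul 1 (.v 4) (.v 4))))),
  (.add (.mul 0 (.c 3) (.mul 1 (.v 0) (.v 0))) (.add (.mul 0 (.c 2) (.mul 1 (.v 0) (.v 8))) (.add (.mul 0 (.c 2) (.mul 1 (.v 1) (.v 5))) (.add (.mul 1 (.v 1) (.v 10)) (.add (.mul 1 (.v 2) (.v 4)) (.add (.mul 0 (.c 2) (.mul 1 (.v 2) (.v 11))) (.add (.mul 1 (.v 3) (.v 11)) (.add (.mul 0 (.c 3) (.mul 1 (.v 4) (.v 5))) (.mul 0 (.c 2) (.mul 1 (.v 10) (.v 11))))))))))),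
  (.add (.mul 0 (.c 2) (.mul 1 (.v 0) (.v 11))) (.add (.mul 0 (.c 2) (.mul 1 (.v 1) (.v 8))) (.add (.mul 0 (.c 4) (.mul 1 (.v 1) (.v 9))) (.add (.mul 0 (.c 2) (.mul 1 (.v 4) (.v 8))) (.add (.mul 1 (.v 7) (.v 8)) (.add (.mul 1 (.v 8) (.v 11)) (.mul 0 (.c 4) (.mul 1 (.v 9) (.v 11)))))))))]
theorem L12j0 : lchk side0 0 2 et12 X12p X12n = true := by
  decide +kernel
theorem L12j1 : lchk side1 1 2 et12 X12p X12n = true := by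
  decide +kernel
theorem L12j2 : lchk side2 2 2 et12 X12p X12n = true := by
  decide +kernel
theorem L12j3 : lchk side3 3 2 et12 X12p X12n = true := by
  decide +kernel
noncomputable def X13p : List Ex := [
  (.add (.mul 0 (.c 4) (.mul 1 (.v 1) (.v 1))) (.add (.mul 0 (.c 2) (.mul 1 (.v 1) (.v 4))) (.add (.mul 0 (.c 4) (.mul 1 (.v 1) (.v 7))) (.add (.mul 0 (.c 4) (.mul 1 (.v 1) (.v 11))) (.add (.mul 1 (.v 3) (.v 8)) (.add (.mul 0 (.c 5) (.mul 1 (.v 3) (.v 9))) (.add (.mul 0 (.c 4) (.mul 1 (.v 4) (.v 7))) (.add (.mul 0 (.c 4) (.mul 1 (.v 7) (.v 11))) (.mul 0 (.c 4) (.mul 1 (.v 9) (.v 10))))))))))),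
  (.add (.mul 0 (.c 2) (.mul 1 (.v 0) (.v 6))) (.add (.mul 1 (.v 3) (.v 4)) (.add (.mul 1 (.v 3) (.v 7)) (.add (.mul 0 (.c 2) (.mul 1 (.v 3) (.v 11))) (.add (.mul 1 (.v 6) (.v 6)) (.add (.mul 0 (.c 4) (.mul 1 (.v 6) (.v 8))) (.add (.mul 0 (.c 2) (.mul 1 (.v 7) (.v 10))) (.mul 1 (.v 10) (.v 11))))))))),
  (.add (.mul 0 (.c 12) (.mul 1 (.v 0) (.v 1))) (.add (.mul 0 (.c 2) (.mul 1 (.v 0) (.v 4))) (.add (.mul 0 (.c 8) (.mul 1 (.v 0) (.v 7))) (.add (.mul 0 (.c 4) (.mul 1 (.v 0) (.v 11))) (.add (.mul 0 (.c 6) (.mul 1 (.v 1) (.v 8))) (.add (.mul 0 (.c 2) (.mul 1 (.v 1) (.v 9))) (.add (.mul 0 (.c 2) (.mul 1 (.v 4) (.v 6))) (.add (.mul 0 (.c 4) (.mul 1 (.v 6) (.v 7))) (.add (.mul 0 (.c 2) (.mul 1 (.v 7) (.v 8))) (.mul 0 (.c 2) (.mul 1 (.v 7) (.v 9))))))))))))]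
noncomputable def X13n : List Ex := [
  (.add (.mul 0 (.c 8) (.mul 1 (.v 0) (.v 2))) (.add (.mul 0 (.c 2) (.mul 1 (.v 0) (.v 3))) (.add (.mul 1 (.v 0) (.v 5)) (.add (.mul 1 (.v 0) (.v 10)) (.add (.mul 0 (.c 4) (.mul 1 (.v 2) (.v 8))) (.add (.mul 0 (.c 4) (.mul 1 (.v 2) (.v 9))) (.add (.mul 1 (.v 3) (.v 6)) (.add (.mul 1 (.v 4) (.v 4)) (.add (.mul 0 (.c 2) (.mul 1 (.v 4) (.v 11))) (.mul 0 (.c 4) (.mul 1 (.v 5) (.v 8)))))))))))),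
  (.add (.mul 0 (.c 3) (.mul 1 (.v 0) (.v 0))) (.add (.mul 0 (.c 2) (.mul 1 (.v 0) (.v 8))) (.add (.mul 0 (.c 3) (.mul 1 (.v 0) (.v 9))) (.add (.mul 0 (.c 9) (.mul 1 (.v 1) (.v 2))) (.add (.mul 1 (.v 1) (.v 3)) (.add (.mul 1 (.v 1) (.v 5)) (.add (.mul 0 (.c 2) (.mul 1 (.v 1) (.v 10))) (.add (.mul 0 (.c 5) (.mul 1 (.v 2) (.v 4))) (.add (.mul 1 (.v 2) (.v 11)) (.add (.mul 1 (.v 4) (.v 5)) (.add (.mul 0 (.c 4) (.mul 1 (.v 4) (.v 10))) (.add (.mul 0 (.c 2) (.mul 1 (.v 5) (.v 7))) (.add (.mul 0 (.c 2) (.mul 1 (.v 5) (.v 11))) (.add (.mul 1 (.v 6) (.v 9)) (.add (.mul 0 (.c 2) (.mul 1 (.v 8) (.v 8))) (.mul 0 (.c 2) (.mul 1 (.v 8) (.v 9)))))))))))))))))),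
  (.add (.mul 0 (.c 2) (.mul 1 (.v 1) (.v 6))) (.add (.mul 0 (.c 3) (.mul 1 (.v 2) (.v 5))) (.add (.mul 0 (.c 3) (.mul 1 (.v 2) (.v 10))) (.add (.mul 0 (.c 3) (.mul 1 (.v 4) (.v 9))) (.mul 0 (.c 2) (.mul 1 (.v 6) (.v 11)))))))]
theorem L13j0 : lchk side0 0 2 et13 X13p X13n = true := by
  decide +kernel
theorem L13j1 : lchk side1 1 2 et13 X13p X13n = true := by
  decide +kernel
theorem L13j2 : lchk side2 2 2 et13 X13p X13n = true := by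
  decide +kernel
theorem L13j3 : lchk side3 3 2 et13 X13p X13n = true := by
  decide +kernel
noncomputable def X14p : List Ex := [
  (.add (.mul 0 (.c 3) (.mul 1 (.v 0) (.mul 1 (.v 0) (.v 9)))) (.add (.mul 0 (.c 5) (.mul 1 (.v 0) (.mul 1 (.v 1) (.v 2)))) (.add (.mul 1 (.v 0) (.mul 1 (.v 1) (.v 10))) (.add (.mul 1 (.v 0) (.mul 1 (.v 2) (.v 11))) (.add (.mul 0 (.c 3) (.mul 1 (.v 0) (.mul 1 (.v 5) (.v 7)))) (.add (.mul 1 (.v 0) (.mul 1 (.v 5) (.v 11))) (.add (.mul 1 (.v 0) (.mul 1 (.v 7) (.v 10))) (.add (.mul 0 (.c 2) (.mul 1 (.v 1) (.mul 1 (.v 1) (.v 1)))) (.add (.mul 0 (.c 2) (.mul 1 (.v 1) (.mul 1 (.v 1) (.v 11)))) (.add (.mul 0 (.c 2) (.mul 1 (.v 1) (.mul 1 (.v 3) (.v 6)))) (.add (.mul 0 (.c 2) (.mul 1 (.v 1) (.mul 1 (.v 3) (.v 9)))) (.add (.mul 0 (.c 2) (.mul 1 (.v 1) (.mul 1 (.v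 5) (.v 6)))) (.add (.mul 0 (.c 2) (.mul 1 (.v 1) (.mul 1 (.v 5) (.v 9)))) (.add (.mul 0 (.c 2) (.mul 1 (.v 2) (.mul 1 (.v 2) (.v 2)))) (.add (.mul 0 (.c 2) (.mul 1 (.v 2) (.mul 1 (.v 2) (.v 10)))) (.add (.mul 0 (.c 2) (.mul 1 (.v 2) (.mul 1 (.v 4) (.v 8)))) (.add (.mul 0 (.c 2) (.mul 1 (.v 2) (.mul 1 (.v 4) (.v 9)))) (.add (.mul 0 (.c 2) (.mul 1 (.v 2) (.mul 1 (.v 7) (.v 8)))) (.add (.mul 0 (.c 2) (.mul 1 (.v 2) (.mul 1 (.v 7) (.v 9)))) (.add (.mul 1 (.v 3) (.mul 1 (.v 4) (.v 9))) (.add (.mul 0 (.c 2) (.mul 1 (.v 3) (.mul 1 (.v 5) (.v 5)))) (.add (.mul 0 (.c 2) (.mul 1 (.v 3) (.mul 1 (.v 6) (.v 7)))) (.add (.mul 1 (.v 3) (.mul 1 (.v 7) (.v 9))) (.add (.mul 0 (.c 2) (.mul 1 (.v 4) (.mul 1 (.v 5) (.v 8)))) (.add (.mul 0 (.c 2) (.mul 1 (.v 4) (.mul 1 (.v 5) (.v 9)))) (.add (.mul 0 (.c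 2) (.mul 1 (.v 4) (.mul 1 (.v 7) (.v 7)))) (.add (.mul 0 (.c 2) (.mul 1 (.v 5) (.mul 1 (.v 6) (.v 7)))) (.add (.mul 0 (.c 2) (.mul 1 (.v 5) (.mul 1 (.v 7) (.v 8)))) (.mul 0 (.c 2) (.mul 1 (.v 6) (.mul 1 (.v 8) (.v 9)))))))))))))))))))))))))))))))),
  (.add (.mul 1 (.v 0) (.mul 1 (.v 0) (.v 1))) (.add (.mul 1 (.v 0) (.mul 1 (.v 1) (.v 8))) (.add (.mul 1 (.v 0) (.mul 1 (.v 2) (.v 10))) (.add (.mul 1 (.v 0) (.mul 1 (.v 5) (.v 10))) (.add (.mul 1 (.v 0) (.mul 1 (.v 7) (.v 8))) (.add (.mul 1 (.v 0) (.mul 1 (.v 7) (.v 9))) (.add (.mul 0 (.c 2) (.mul 1 (.v 0) (.mul 1 (.v 9) (.v 11)))) (.add (.mul 1 (.v 1) (.mul 1 (.v 2) (.v 4))) (.add (.mul 1 (.v 1) (.mul 1 (.v 3) (.v 7))) (.add (.mul 1 (.v 1) (.mul 1 (.v 4) (.v 5))) (.add (.mul 1 (.v 1) (.mul 1 (.v 5) (.v 7))) (.add (.mul 1 (.v 1) (.mul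 1 (.v 6) (.v 9))) (.add (.mul 1 (.v 1) (.mul 1 (.v 8) (.v 8))) (.add (.mul 1 (.v 1) (.mul 1 (.v 8) (.v 9))) (.add (.mul 0 (.c 2) (.mul 1 (.v 1) (.mul 1 (.v 9) (.v 9)))) (.add (.mul 1 (.v 2) (.mul 1 (.v 2) (.v 8))) (.add (.mul 0 (.c 2) (.mul 1 (.v 2) (.mul 1 (.v 3) (.v 9)))) (.add (.mul 1 (.v 2) (.mul 1 (.v 6) (.v 10))) (.add (.mul 0 (.c 2) (.mul 1 (.v 3) (.mul 1 (.v 5) (.v 9)))) (.add (.mul 1 (.v 3) (.mul 1 (.v 7) (.v 7))) (.add (.mul 1 (.v 5) (.mul 1 (.v 6) (.v 10))) (.add (.mul 1 (.v 5) (.mul 1 (.v 7) (.v 7))) (.add (.mul 1 (.v 7) (.mul 1 (.v 8) (.v 8))) (.add (.mul 1 (.v 7) (.mul 1 (.v 8) (.v 9))) (.mul 0 (.c 2) (.mul 1 (.v 8) (.mul 1 (.v 9) (.v 11)))))))))))))))))))))))))))),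
  (.add (.mul 1 (.v 0) (.mul 1 (.v 0) (.v 2))) (.add (.mul 1 (.v 0) (.mul 1 (.v 1) (.v 11))) (.add (.mul 1 (.v 0) (.mul 1 (.v 2) (.v 6))) (.add (.mul 1 (.v 0) (.mul 1 (.v 2) (.v 9))) (.add (.mul 1 (.v 0) (.mul 1 (.v 5) (.v 6))) (.add (.mul 0 (.c 2) (.mul 1 (.v 0) (.mul 1 (.v 5) (.v 9)))) (.add (.mul 1 (.v 0) (.mul 1 (.v 7) (.v 11))) (.add (.mul 1 (.v 1) (.mul 1 (.v 1) (.v 6))) (.add (.mul 0 (.c 2) (.mul 1 (.v 1) (.mul 1 (.v 1) (.v 9)))) (.add (.mul 1 (.v 1) (.mul 1 (.v 2) (.v 3))) (.add (.mul 1 (.v 1) (.mul 1 (.v 8) (.v 11))) (.add (.mul 1 (.v 2) (.mul 1 (.v 3) (.v 7))) (.add (.mul 1 (.v 2) (.mul 1 (.v 4) (.v 5))) (.add (.mul 1 (.v 2) (.mul 1 (.v 5) (.v 7))) (.add (.mul 1 (.v 2) (.mul 1 (.v 6) (.v 6))) (.add (.mul 1 (.v 2) (.mul 1 (.v 6) (.v 9))) (.add (.mul 1 (.v 3) (.mul 1 (.v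 6) (.v 9))) (.add (.mul 1 (.v 4) (.mul 1 (.v 5) (.v 5))) (.add (.mul 0 (.c 2) (.mul 1 (.v 4) (.mul 1 (.v 9) (.v 11)))) (.add (.mul 1 (.v 5) (.mul 1 (.v 5) (.v 7))) (.add (.mul 1 (.v 5) (.mul 1 (.v 6) (.v 6))) (.add (.mul 1 (.v 5) (.mul 1 (.v 6) (.v 9))) (.add (.mul 1 (.v 5) (.mul 1 (.v 8) (.v 9))) (.add (.mul 1 (.v 7) (.mul 1 (.v 8) (.v 11))) (.mul 1 (.v 8) (.mul 1 (.v 9) (.v 10)))))))))))))))))))))))))))]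
noncomputable def X14n : List Ex := [
  (.add (.mul 1 (.v 0) (.mul 1 (.v 0) (.v 0))) (.add (.mul 1 (.v 0) (.mul 1 (.v 1) (.v 3))) (.add (.mul 1 (.v 0) (.mul 1 (.v 2) (.v 4))) (.add (.mul 1 (.v 0) (.mul 1 (.v 3) (.v 7))) (.add (.mul 1 (.v 0) (.mul 1 (.v 4) (.v 5))) (.add (.mul 0 (.c 2) (.mul 1 (.v 0) (.mul 1 (.v 6) (.v 8)))) (.add (.mul 1 (.v 0) (.mul 1 (.v 6) (.v 9))) (.add (.mul 0 (.c 2) (.mul 1 (.v 0) (.mul 1 (.v 9) (.v 9)))) (.add (.mul 0 (.c 2) (.mul 1 (.v 1) (.mul 1 (.v 1) (.v 4)))) (.add (.mul 0 (.c 4) (.mul 1 (.v 1) (.mul 1 (.v 2) (.v 9)))) (.add (.mul 0 (.c 2) (.mul 1 (.v 1) (.mul 1 (.v 6) (.v 10)))) (.add (.mul 0 (.c 2) (.mul 1 (.v 1) (.mul 1 (.v 7) (.v 7)))) (.add (.mul 0 (.c 2) (.mul 1 (.v 1) (.mul 1 (.v 9) (.v 10)))) (.add (.mul 0 (.c 2) (.mul 1 (.v 2) (.mul 1 (.v 2)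 (.v 3)))) (.add (.mul 0 (.c 2) (.mul 1 (.v 2) (.mul 1 (.v 5) (.v 5)))) (.add (.mul 0 (.c 2) (.mul 1 (.v 2) (.mul 1 (.v 8) (.v 11)))) (.add (.mul 0 (.c 2) (.mul 1 (.v 2) (.mul 1 (.v 9) (.v 11)))) (.add (.mul 1 (.v 3) (.mul 1 (.v 9) (.v 11))) (.add (.mul 0 (.c 2) (.mul 1 (.v 5) (.mul 1 (.v 5) (.v 10)))) (.add (.mul 0 (.c 2) (.mul 1 (.v 5) (.mul 1 (.v 8) (.v 11)))) (.add (.mul 0 (.c 2) (.mul 1 (.v 5) (.mul 1 (.v 9) (.v 11)))) (.add (.mul 0 (.c 2) (.mul 1 (.v 6) (.mul 1 (.v 7) (.v 10)))) (.add (.mul 0 (.c 2) (.mul 1 (.v 7) (.mul 1 (.v 7) (.v 11)))) (.mul 0 (.c 2) (.mul 1 (.v 7) (.mul 1 (.v 9) (.v 10))))))))))))))))))))))))))),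
  (.add (.mul 0 (.c 2) (.mul 1 (.v 0) (.mul 1 (.v 1) (.v 9)))) (.add (.mul 1 (.v 0) (.mul 1 (.v 2) (.v 3))) (.add (.mul 1 (.v 0) (.mul 1 (.v 2) (.v 5))) (.add (.mul 1 (.v 0) (.mul 1 (.v 3) (.v 5))) (.add (.mul 0 (.c 2) (.mul 1 (.v 0) (.mul 1 (.v 4) (.v 9)))) (.add (.mul 1 (.v 0) (.mul 1 (.v 5) (.v 5))) (.add (.mul 1 (.v 1) (.mul 1 (.v 1) (.v 2))) (.add (.mul 1 (.v 1) (.mul 1 (.v 1) (.v 5))) (.add (.mul 1 (.v 1) (.mul 1 (.v 2) (.v 11))) (.add (.mul 1 (.v 1) (.mul 1 (.v 5) (.v 11))) (.add (.mul 1 (.v 1) (.mul 1 (.v 7) (.v 10))) (.add (.mul 1 (.v 2) (.mul 1 (.v 2) (.v 9))) (.add (.mul 1 (.v 2) (.mul 1 (.v 3) (.v 6))) (.add (.mul 1 (.v 2) (.mul 1 (.v 5) (.v 6))) (.add (.mul 0 (.c 2) (.mul 1 (.v 2) (.mul 1 (.v 5) (.v 9)))) (.add (.mul 0 (.c 2) (.mul 1 (.v 2) (.mul 1 (.v 9) (.v 10))))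 (.add (.mul 1 (.v 3) (.mul 1 (.v 5) (.v 6))) (.add (.mul 0 (.c 2) (.mul 1 (.v 4) (.mul 1 (.v 8) (.v 9)))) (.add (.mul 1 (.v 5) (.mul 1 (.v 5) (.v 6))) (.add (.mul 1 (.v 5) (.mul 1 (.v 5) (.v 8))) (.add (.mul 1 (.v 5) (.mul 1 (.v 5) (.v 9))) (.add (.mul 0 (.c 2) (.mul 1 (.v 5) (.mul 1 (.v 9) (.v 10)))) (.mul 1 (.v 7) (.mul 1 (.v 7) (.v 10))))))))))))))))))))))))),
  (.add (.mul 1 (.v 0) (.mul 1 (.v 1) (.v 4))) (.add (.mul 1 (.v 0) (.mul 1 (.v 1) (.v 7))) (.add (.mul 1 (.v 0) (.mul 1 (.v 4) (.v 7))) (.add (.mul 1 (.v 0) (.mul 1 (.v 7) (.v 7))) (.add (.mul 1 (.v 1) (.mul 1 (.v 2) (.v 2))) (.add (.mul 1 (.v 1) (.mul 1 (.v 2) (.v 10))) (.add (.mul 1 (.v 1) (.mul 1 (.v 4) (.v 8))) (.add (.mul 1 (.v 1) (.mul 1 (.v 7) (.v 8))) (.add (.mul 1 (.v 2) (.mul 1 (.v 2) (.v 7))) (.add (.mul 1 (.v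 2) (.mul 1 (.v 5) (.v 11))) (.add (.mul 1 (.v 2) (.mul 1 (.v 7) (.v 10))) (.add (.mul 1 (.v 3) (.mul 1 (.v 8) (.v 9))) (.add (.mul 1 (.v 4) (.mul 1 (.v 4) (.v 9))) (.add (.mul 1 (.v 4) (.mul 1 (.v 7) (.v 8))) (.add (.mul 1 (.v 5) (.mul 1 (.v 5) (.v 11))) (.add (.mul 1 (.v 6) (.mul 1 (.v 7) (.v 7))) (.add (.mul 1 (.v 6) (.mul 1 (.v 9) (.v 10))) (.add (.mul 1 (.v 7) (.mul 1 (.v 7) (.v 8))) (.add (.mul 1 (.v 7) (.mul 1 (.v 7) (.v 9))) (.mul 1 (.v 9) (.mul 1 (.v 11) (.v 11))))))))))))))))))))))]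
theorem L14j0 : lchk side0 0 3 et14 X14p X14n = true := by
  decide +kernel
theorem L14j1 : lchk side1 1 3 et14 X14p X14n = true := by
  decide +kernel
theorem L14j2 : lchk side2 2 3 et14 X14p X14n = true := by
  decide +kernel
theorem L14j3 : lchk side3 3 3 et14 X14p X14n = true := by
  decide +kernel

end Pool.Agent.Mond56
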