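import Pool.Agent.LibMond56.LT
import Pool.Agent.LibMV18.F15
import Pool.Agent.LibMV18.F16
import Pool.Agent.LibMV18.F17
import Pool.Agent.LibMV18.F18
import Pool.Agent.LibMV18.F19

set_option autoImplicit false
set_option maxRecDepth 100000

/-! MP_ed98ad_ag: liftability identities of the mother fields 15..19 -/

namespace Pool.Agent.Mond56

open Pool.Agent.Mond61 Pool.Agent.LibMV18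

noncomputable def X15p : List Ex := [
  (.add (.mul 1 (.v 0) (.mul 1 (.v 1) (.v 2))) (.add (.mul 0 (.c 4) (.mul 1 (.v 0) (.mul 1 (.v 1) (.v 5)))) (.add (.mul 1 (.v 0) (.mul 1 (.v 1) (.v 10))) (.add (.mul 1 (.v 0) (.mul 1 (.v 2) (.v 11))) (.add (.mul 0 (.c 3) (.mul 1 (.v 0) (.mul 1 (.v 5) (.v 7)))) (.add (.mul 1 (.v 0) (.mul 1 (.v 5) (.v 11))) (.add (.mul 0 (.c 2) (.mul 1 (.v 0) (.mul 1 (.v 6) (.v 8)))) (.add (.mul 0 (.c 2) (.mul 1 (.v 1) (.mul 1 (.v 1) (.v 1)))) (.add (.mul 1 (.v 1) (.mul 1 (.v 1) (.v 4))) (.add (.mul 0 (.c 2) (.mul 1 (.v 1) (.mul 1 (.v 1) (.v 7)))) (.add (.mul 0 (.c 2) (.mul 1 (.v 1) (.mul 1 (.v 1) (.v 11)))) (.add (.mul 0 (.c 4) (.mul 1 (.v 1) (.mul 1 (.v 4) (.v 7)))) (.add (.mul 0 (.c 2) (.mul 1 (.v 1) (.mul 1 (.v 5) (.v 6)))) (.add (.mul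 0 (.c 2) (.mul 1 (.v 1) (.mul 1 (.v 5) (.v 9)))) (.add (.mul 0 (.c 2) (.mul 1 (.v 1) (.mul 1 (.v 7) (.v 11)))) (.add (.mul 0 (.c 2) (.mul 1 (.v 2) (.mul 1 (.v 2) (.v 2)))) (.add (.mul 1 (.v 2) (.mul 1 (.v 2) (.v 3))) (.add (.mul 0 (.c 2) (.mul 1 (.v 2) (.mul 1 (.v 2) (.v 10)))) (.add (.mul 1 (.v 3) (.mul 1 (.v 7) (.v 8))) (.add (.mul 0 (.c 2) (.mul 1 (.v 3) (.mul 1 (.v 7) (.v 9)))) (.add (.mul 1 (.v 4) (.mul 1 (.v 7) (.v 7))) (.add (.mul 0 (.c 2) (.mul 1 (.v 5) (.mul 1 (.v 6) (.v 7)))) (.mul 0 (.c 2) (.mul 1 (.v 6) (.mul 1 (.v 8) (.v 9)))))))))))))))))))))))))),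
  (.add (.mul 0 (.c 3) (.mul 1 (.v 0) (.mul 1 (.v 1) (.v 8)))) (.add (.mul 0 (.c 2) (.mul 1 (.v 0) (.mul 1 (.v 2) (.v 2)))) (.add (.mul 0 (.c 2) (.mul 1 (.v 0) (.mul 1 (.v 2) (.v 3)))) (.add (.mul 1 (.v 0) (.mul 1 (.v 2) (.v 10))) (.add (.mul 0 (.c 2) (.mul 1 (.v 0) (.mul 1 (.v 3) (.v 5)))) (.add (.mul 1 (.v 0) (.mul 1 (.v 5) (.v 10))) (.add (.mul 1 (.v 0) (.mul 1 (.v 7) (.v 9))) (.add (.mul 1 (.v 1) (.mul 1 (.v 8) (.v 8))) (.add (.mul 1 (.v 1) (.mul 1 (.v 8) (.v 9))) (.add (.mul 1 (.v 1) (.mul 1 (.v 9) (.v 9))) (.add (.mul 1 (.v 2) (.mul 1 (.v 2) (.v 8))) (.add (.mul 1 (.v 2) (.mul 1 (.v 2) (.v 9))) (.add (.mul 0 (.c 2) (.mul 1 (.v 2) (.mul 1 (.v 3) (.v 6)))) (.add (.mul 1 (.v 2) (.mul 1 (.v 4) (.v 7))) (.add (.mul 1 (.v 2) (.mul 1 (.v 6) (.v 10))) (.add (.mul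 0 (.c 2) (.mul 1 (.v 3) (.mul 1 (.v 5) (.v 6)))) (.add (.mul 0 (.c 3) (.mul 1 (.v 3) (.mul 1 (.v 7) (.v 7)))) (.add (.mul 0 (.c 3) (.mul 1 (.v 4) (.mul 1 (.v 7) (.v 10)))) (.add (.mul 1 (.v 5) (.mul 1 (.v 6) (.v 10))) (.mul 1 (.v 6) (.mul 1 (.v 7) (.v 9)))))))))))))))))))))),
  (.add (.mul 0 (.c 2) (.mul 1 (.v 0) (.mul 1 (.v 0) (.v 5)))) (.add (.mul 0 (.c 2) (.mul 1 (.v 0) (.mul 1 (.v 1) (.v 1)))) (.add (.mul 0 (.c 2) (.mul 1 (.v 0) (.mul 1 (.v 1) (.v 4)))) (.add (.mul 1 (.v 0) (.mul 1 (.v 1) (.v 11))) (.add (.mul 0 (.c 3) (.mul 1 (.v 0) (.mul 1 (.v 2) (.v 6)))) (.add (.mul 0 (.c 2) (.mul 1 (.v 0) (.mul 1 (.v 4) (.v 7)))) (.add (.mul 0 (.c 3) (.mul 1 (.v 0) (.mul 1 (.v 5) (.v 6)))) (.add (.mul 1 (.v 0) (.mul 1 (.v 5) (.v 9))) (.add (.mul 1 (.v 0) (.mul 1 (.v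 7) (.v 7))) (.add (.mul 1 (.v 0) (.mul 1 (.v 7) (.v 11))) (.add (.mul 1 (.v 1) (.mul 1 (.v 1) (.v 6))) (.add (.mul 1 (.v 1) (.mul 1 (.v 1) (.v 9))) (.add (.mul 0 (.c 2) (.mul 1 (.v 1) (.mul 1 (.v 4) (.v 8)))) (.add (.mul 0 (.c 2) (.mul 1 (.v 1) (.mul 1 (.v 6) (.v 7)))) (.add (.mul 1 (.v 1) (.mul 1 (.v 8) (.v 11))) (.add (.mul 1 (.v 2) (.mul 1 (.v 3) (.v 7))) (.add (.mul 1 (.v 2) (.mul 1 (.v 5) (.v 7))) (.add (.mul 1 (.v 2) (.mul 1 (.v 6) (.v 6))) (.add (.mul 1 (.v 2) (.mul 1 (.v 6) (.v 9))) (.add (.mul 1 (.v 2) (.mul 1 (.v 9) (.v 9))) (.add (.mul 1 (.v 4) (.mul 1 (.v 6) (.v 7))) (.add (.mul 0 (.c 3) (.mul 1 (.v 4) (.mul 1 (.v 7) (.v 9)))) (.add (.mul 1 (.v 5) (.mul 1 (.v 5) (.v 7))) (.add (.mul 1 (.v 5) (.mul 1 (.v 6) (.v 6))) (.add (.mul 1 (.v 5) (.mul 1 (.v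 6) (.v 9))) (.add (.mul 1 (.v 6) (.mul 1 (.v 7) (.v 7))) (.add (.mul 0 (.c 2) (.mul 1 (.v 6) (.mul 1 (.v 7) (.v 11)))) (.mul 0 (.c 2) (.mul 1 (.v 7) (.mul 1 (.v 8) (.v 11)))))))))))))))))))))))))))))))]
noncomputable def X15n : List Ex := [
  (.add (.mul 1 (.v 0) (.mul 1 (.v 0) (.v 9))) (.add (.mul 1 (.v 0) (.mul 1 (.v 1) (.v 3))) (.add (.mul 1 (.v 0) (.mul 1 (.v 2) (.v 4))) (.add (.mul 0 (.c 2) (.mul 1 (.v 0) (.mul 1 (.v 7) (.v 10)))) (.add (.mul 1 (.v 0) (.mul 1 (.v 9) (.v 9))) (.add (.mul 0 (.c 4) (.mul 1 (.v 1) (.mul 1 (.v 2) (.v 9)))) (.add (.mul 0 (.c 2) (.mul 1 (.v 1) (.mul 1 (.v 3) (.v 6)))) (.add (.mul 1 (.v 1) (.mul 1 (.v 3) (.v 8))) (.add (.mul 0 (.c 2) (.mul 1 (.v 1) (.mul 1 (.v 3) (.v 9)))) (.add (.mul 0 (.c 2) (.mul 1 (.v 1) (.mul 1 (.v 6) (.v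 10)))) (.add (.mul 0 (.c 2) (.mul 1 (.v 1) (.mul 1 (.v 9) (.v 10)))) (.add (.mul 1 (.v 2) (.mul 1 (.v 4) (.v 6))) (.add (.mul 0 (.c 2) (.mul 1 (.v 2) (.mul 1 (.v 4) (.v 8)))) (.add (.mul 0 (.c 2) (.mul 1 (.v 2) (.mul 1 (.v 4) (.v 9)))) (.add (.mul 0 (.c 2) (.mul 1 (.v 2) (.mul 1 (.v 5) (.v 5)))) (.add (.mul 0 (.c 2) (.mul 1 (.v 2) (.mul 1 (.v 8) (.v 11)))) (.add (.mul 0 (.c 2) (.mul 1 (.v 2) (.mul 1 (.v 9) (.v 11)))) (.add (.mul 1 (.v 3) (.mul 1 (.v 5) (.v 5))) (.add (.mul 1 (.v 3) (.mul 1 (.v 6) (.v 7))) (.add (.mul 1 (.v 4) (.mul 1 (.v 5) (.v 6))) (.add (.mul 0 (.c 2) (.mul 1 (.v 4) (.mul 1 (.v 5) (.v 8)))) (.add (.mul 0 (.c 2) (.mul 1 (.v 4) (.mul 1 (.v 5) (.v 9)))) (.add (.mul 0 (.c 2) (.mul 1 (.v 5) (.mul 1 (.v 5) (.v 10)))) (.add (.mul 0 (.c 2) (.mul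 1 (.v 5) (.mul 1 (.v 8) (.v 11)))) (.add (.mul 0 (.c 2) (.mul 1 (.v 5) (.mul 1 (.v 9) (.v 11)))) (.mul 0 (.c 2) (.mul 1 (.v 6) (.mul 1 (.v 7) (.v 10))))))))))))))))))))))))))))),
  (.add (.mul 1 (.v 0) (.mul 1 (.v 0) (.v 7))) (.add (.mul 1 (.v 0) (.mul 1 (.v 2) (.v 5))) (.add (.mul 0 (.c 3) (.mul 1 (.v 0) (.mul 1 (.v 5) (.v 5)))) (.add (.mul 0 (.c 2) (.mul 1 (.v 0) (.mul 1 (.v 6) (.v 7)))) (.add (.mul 1 (.v 0) (.mul 1 (.v 7) (.v 8))) (.add (.mul 1 (.v 1) (.mul 1 (.v 1) (.v 2))) (.add (.mul 1 (.v 1) (.mul 1 (.v 1) (.v 5))) (.add (.mul 0 (.c 2) (.mul 1 (.v 1) (.mul 1 (.v 2) (.v 4)))) (.add (.mul 1 (.v 1) (.mul 1 (.v 2) (.v 11))) (.add (.mul 1 (.v 1) (.mul 1 (.v 4) (.v 5))) (.add (.mul 1 (.v 1) (.mul 1 (.v 5) (.v 7))) (.add (.mul 1 (.v 1) (.mul 1 (.v 5) (.v 11)))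 (.add (.mul 0 (.c 2) (.mul 1 (.v 1) (.mul 1 (.v 7) (.v 10)))) (.add (.mul 1 (.v 2) (.mul 1 (.v 5) (.v 6))) (.add (.mul 0 (.c 4) (.mul 1 (.v 2) (.mul 1 (.v 7) (.v 11)))) (.add (.mul 0 (.c 2) (.mul 1 (.v 4) (.mul 1 (.v 5) (.v 7)))) (.add (.mul 1 (.v 5) (.mul 1 (.v 5) (.v 6))) (.add (.mul 1 (.v 5) (.mul 1 (.v 5) (.v 8))) (.add (.mul 1 (.v 5) (.mul 1 (.v 5) (.v 9))) (.add (.mul 1 (.v 5) (.mul 1 (.v 7) (.v 11))) (.add (.mul 1 (.v 6) (.mul 1 (.v 6) (.v 7))) (.add (.mul 1 (.v 6) (.mul 1 (.v 7) (.v 8))) (.mul 0 (.c 3) (.mul 1 (.v 7) (.mul 1 (.v 10) (.v 11)))))))))))))))))))))))))),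
  (.add (.mul 1 (.v 0) (.mul 1 (.v 1) (.v 7))) (.add (.mul 1 (.v 1) (.mul 1 (.v 2) (.v 2))) (.add (.mul 0 (.c 2) (.mul 1 (.v 1) (.mul 1 (.v 2) (.v 3)))) (.add (.mul 1 (.v 1) (.mul 1 (.v 2) (.v 10))) (.add (.mul 1 (.v 1) (.mul 1 (.v 7) (.v 8))) (.add (.mul 0 (.c 2) (.mul 1 (.v 1) (.mul 1 (.v 7) (.v 9)))) (.add (.mul 1 (.v 2) (.mul 1 (.v 2) (.v 7))) (.add (.mul 1 (.v 2) (.mul 1 (.v 4) (.v 5))) (.add (.mul 1 (.v 2) (.mul 1 (.v 5) (.v 11))) (.add (.mul 0 (.c 2) (.mul 1 (.v 4) (.mul 1 (.v 5) (.v 5)))) (.add (.mul 0 (.c 2) (.mul 1 (.v 4) (.mul 1 (.v 7) (.v 8)))) (.add (.mul 1 (.v 5) (.mul 1 (.v 5) (.v 11))) (.mul 0 (.c 3) (.mul 1 (.v 7) (.mul 1 (.v 9) (.v 11))))))))))))))))]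
theorem L15j0 : lchk side0 0 3 et15 X15p X15n = true := by
  decide +kernel
theorem L15j1 : lchk side1 1 3 et15 X15p X15n = true := by
  decide +kernel
theorem L15j2 : lchk side2 2 3 et15 X15p X15n = true := by
  decide +kernel
theorem L15j3 : lchk side3 3 3 et15 X15p X15n = true := by
  decide +kernel
noncomputable def X16p : List Ex := [
  (.add (.mul 1 (.v 0) (.mul 1 (.v 0) (.v 1))) (.add (.mul 1 (.v 0) (.mul 1 (.v 0) (.v 7))) (.add (.mul 0 (.c 2) (.mul 1 (.v 0) (.mul 1 (.v 1) (.v 6)))) (.add (.mul 0 (.c 3) (.mul 1 (.v 0) (.mul 1 (.v 1) (.v 8)))) (.add (.mul 0 (.c 2) (.mul 1 (.v 0) (.mul 1 (.v 1) (.v 9)))) (.add (.mul 1 (.v 0) (.mul 1 (.v 2) (.v 2))) (.add (.mul 1 (.v 0) (.mul 1 (.v 2) (.v 3))) (.add (.mul 1 (.v 0) (.mul 1 (.v 4) (.v 9))) (.add (.mul 1 (.v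 0) (.mul 1 (.v 6) (.v 7))) (.add (.mul 1 (.v 0) (.mul 1 (.v 6) (.v 11))) (.add (.mul 1 (.v 0) (.mul 1 (.v 8) (.v 11))) (.add (.mul 1 (.v 1) (.mul 1 (.v 2) (.v 4))) (.add (.mul 1 (.v 1) (.mul 1 (.v 3) (.v 4))) (.add (.mul 1 (.v 1) (.mul 1 (.v 4) (.v 10))) (.add (.mul 1 (.v 2) (.mul 1 (.v 4) (.v 4))) (.add (.mul 1 (.v 3) (.mul 1 (.v 4) (.v 7))) (.mul 1 (.v 4) (.mul 1 (.v 4) (.v 5))))))))))))))))))),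
  (.add (.mul 1 (.v 0) (.mul 1 (.v 0) (.v 3))) (.add (.mul 1 (.v 0) (.mul 1 (.v 1) (.v 1))) (.add (.mul 0 (.c 3) (.mul 1 (.v 0) (.mul 1 (.v 1) (.v 7)))) (.add (.mul 0 (.c 3) (.mul 1 (.v 0) (.mul 1 (.v 1) (.v 11)))) (.add (.mul 1 (.v 0) (.mul 1 (.v 7) (.v 11))) (.add (.mul 1 (.v 0) (.mul 1 (.v 9) (.v 10))) (.add (.mul 1 (.v 1) (.mul 1 (.v 1) (.v 6))) (.add (.mul 1 (.v 1) (.mul 1 (.v 2) (.v 2))) (.add (.mul 1 (.v 1) (.mul 1 (.v 2) (.v 3))) (.add (.mul 1 (.v 1) (.mul 1 (.v 3) (.v 3))) (.add (.mul 1 (.v 1) (.mul 1 (.v 6) (.v 7))) (.add (.mul 1 (.v 1) (.mul 1 (.v 6) (.v 11))) (.add (.mul 0 (.c 2) (.mul 1 (.v 1) (.mul 1 (.v 8) (.v 11)))) (.add (.mul 1 (.v 1) (.mul 1 (.v 10) (.v 10))) (.add (.mul 1 (.v 2) (.mul 1 (.v 2) (.v 11))) (.add (.mul 1 (.v 2) (.mul 1 (.v 3)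 (.v 4))) (.add (.mul 1 (.v 2) (.mul 1 (.v 5) (.v 11))) (.add (.mul 1 (.v 2) (.mul 1 (.v 10) (.v 11))) (.add (.mul 1 (.v 3) (.mul 1 (.v 4) (.v 5))) (.add (.mul 1 (.v 3) (.mul 1 (.v 6) (.v 6))) (.add (.mul 1 (.v 5) (.mul 1 (.v 10) (.v 11))) (.mul 1 (.v 6) (.mul 1 (.v 7) (.v 11)))))))))))))))))))))))),
  (.add (.mul 0 (.c 2) (.mul 1 (.v 0) (.mul 1 (.v 0) (.v 0)))) (.add (.mul 0 (.c 2) (.mul 1 (.v 0) (.mul 1 (.v 0) (.v 6)))) (.add (.mul 0 (.c 3) (.mul 1 (.v 0) (.mul 1 (.v 0) (.v 8)))) (.add (.mul 0 (.c 2) (.mul 1 (.v 0) (.mul 1 (.v 1) (.v 5)))) (.add (.mul 0 (.c 2) (.mul 1 (.v 0) (.mul 1 (.v 1) (.v 10)))) (.add (.mul 1 (.v 0) (.mul 1 (.v 5) (.v 7))) (.add (.mul 0 (.c 2) (.mul 1 (.v 0) (.mul 1 (.v 6) (.v 8)))) (.add (.mul 0 (.c 4) (.mul 1 (.v 0) (.mul 1 (.v 7) (.v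 10)))) (.add (.mul 0 (.c 2) (.mul 1 (.v 1) (.mul 1 (.v 1) (.v 4)))) (.add (.mul 0 (.c 4) (.mul 1 (.v 1) (.mul 1 (.v 2) (.v 9)))) (.add (.mul 0 (.c 2) (.mul 1 (.v 1) (.mul 1 (.v 4) (.v 7)))) (.add (.mul 0 (.c 4) (.mul 1 (.v 1) (.mul 1 (.v 5) (.v 8)))) (.add (.mul 1 (.v 1) (.mul 1 (.v 8) (.v 10))) (.add (.mul 0 (.c 3) (.mul 1 (.v 2) (.mul 1 (.v 3) (.v 5)))) (.add (.mul 1 (.v 2) (.mul 1 (.v 4) (.v 6))) (.add (.mul 1 (.v 4) (.mul 1 (.v 4) (.v 7))) (.add (.mul 0 (.c 3) (.mul 1 (.v 5) (.mul 1 (.v 8) (.v 11)))) (.add (.mul 0 (.c 3) (.mul 1 (.v 6) (.mul 1 (.v 7) (.v 10)))) (.mul 1 (.v 7) (.mul 1 (.v 11) (.v 11)))))))))))))))))))))]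
noncomputable def X16n : List Ex := [
  (.add (.mul 1 (.v 0) (.mul 1 (.v 0) (.v 4))) (.add (.mul 0 (.c 2) (.mul 1 (.v 0) (.mul 1 (.v 2) (.v 5)))) (.add (.mul 0 (.c 2) (.mul 1 (.v 0) (.mul 1 (.v 2) (.v 10)))) (.add (.mul 1 (.v 0) (.mul 1 (.v 4) (.v 6))) (.add (.mul 1 (.v 0) (.mul 1 (.v 4) (.v 8))) (.add (.mul 1 (.v 0) (.mul 1 (.v 5) (.v 10))) (.add (.mul 1 (.v 1) (.mul 1 (.v 1) (.v 3))) (.add (.mul 0 (.c 2) (.mul 1 (.v 1) (.mul 1 (.v 3) (.v 7)))) (.add (.mul 0 (.c 2) (.mul 1 (.v 1) (.mul 1 (.v 3) (.v 11)))) (.add (.mul 1 (.v 2) (.mul 1 (.v 3) (.v 6))) (.add (.mul 0 (.c 2) (.mul 1 (.v 2) (.mul 1 (.v 4) (.v 7)))) (.add (.mul 1 (.v 2) (.mul 1 (.v 4) (.v 11))) (.add (.mul 1 (.v 3) (.mul 1 (.v 5) (.v 6))) (.add (.mul 1 (.v 3) (.mul 1 (.v 7) (.v 11))) (.add (.mul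 1 (.v 4) (.mul 1 (.v 5) (.v 11))) (.mul 1 (.v 4) (.mul 1 (.v 6) (.v 8)))))))))))))))))),
  (.add (.mul 1 (.v 0) (.mul 1 (.v 0) (.v 5))) (.add (.mul 1 (.v 0) (.mul 1 (.v 0) (.v 10))) (.add (.mul 0 (.c 3) (.mul 1 (.v 0) (.mul 1 (.v 1) (.v 4)))) (.add (.mul 1 (.v 0) (.mul 1 (.v 2) (.v 6))) (.add (.mul 0 (.c 3) (.mul 1 (.v 0) (.mul 1 (.v 2) (.v 8)))) (.add (.mul 0 (.c 2) (.mul 1 (.v 0) (.mul 1 (.v 2) (.v 9)))) (.add (.mul 1 (.v 0) (.mul 1 (.v 3) (.v 9))) (.add (.mul 1 (.v 0) (.mul 1 (.v 4) (.v 7))) (.add (.mul 1 (.v 0) (.mul 1 (.v 5) (.v 6))) (.add (.mul 0 (.c 3) (.mul 1 (.v 0) (.mul 1 (.v 5) (.v 8)))) (.add (.mul 1 (.v 0) (.mul 1 (.v 5) (.v 9))) (.add (.mul 1 (.v 1) (.mul 1 (.v 2) (.v 5))) (.add (.mul 1 (.v 1) (.mul 1 (.v 2) (.v 10))) (.add (.mul 0 (.c 2) (.mul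 1 (.v 1) (.mul 1 (.v 3) (.v 10)))) (.add (.mul 1 (.v 1) (.mul 1 (.v 4) (.v 6))) (.add (.mul 0 (.c 2) (.mul 1 (.v 1) (.mul 1 (.v 4) (.v 8)))) (.add (.mul 1 (.v 2) (.mul 1 (.v 2) (.v 4))) (.add (.mul 1 (.v 2) (.mul 1 (.v 3) (.v 11))) (.add (.mul 1 (.v 2) (.mul 1 (.v 4) (.v 5))) (.add (.mul 1 (.v 2) (.mul 1 (.v 4) (.v 10))) (.add (.mul 1 (.v 2) (.mul 1 (.v 6) (.v 6))) (.add (.mul 0 (.c 3) (.mul 1 (.v 2) (.mul 1 (.v 6) (.v 8)))) (.add (.mul 0 (.c 2) (.mul 1 (.v 2) (.mul 1 (.v 6) (.v 9)))) (.add (.mul 1 (.v 3) (.mul 1 (.v 5) (.v 11))) (.add (.mul 1 (.v 4) (.mul 1 (.v 5) (.v 10))) (.add (.mul 1 (.v 4) (.mul 1 (.v 6) (.v 7))) (.add (.mul 1 (.v 5) (.mul 1 (.v 6) (.v 8))) (.mul 1 (.v 6) (.mul 1 (.v 6) (.v 10)))))))))))))))))))))))))))))),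
  (.add (.mul 0 (.c 2) (.mul 1 (.v 0) (.mul 1 (.v 0) (.v 9)))) (.add (.mul 0 (.c 5) (.mul 1 (.v 0) (.mul 1 (.v 1) (.v 2)))) (.add (.mul 0 (.c 2) (.mul 1 (.v 0) (.mul 1 (.v 1) (.v 3)))) (.add (.mul 0 (.c 4) (.mul 1 (.v 0) (.mul 1 (.v 3) (.v 7)))) (.add (.mul 0 (.c 2) (.mul 1 (.v 0) (.mul 1 (.v 6) (.v 9)))) (.add (.mul 0 (.c 3) (.mul 1 (.v 0) (.mul 1 (.v 8) (.v 9)))) (.add (.mul 0 (.c 2) (.mul 1 (.v 1) (.mul 1 (.v 1) (.v 1)))) (.add (.mul 0 (.c 3) (.mul 1 (.v 1) (.mul 1 (.v 1) (.v 7)))) (.add (.mul 0 (.c 2) (.mul 1 (.v 1) (.mul 1 (.v 1) (.v 11)))) (.add (.mul 1 (.v 1) (.mul 1 (.v 3) (.v 8))) (.add (.mul 0 (.c 2) (.mul 1 (.v 1) (.mul 1 (.v 7) (.v 11)))) (.add (.mul 1 (.v 2) (.mul 1 (.v 2) (.v 2))) (.add (.mul 0 (.c 3) (.mul 1 (.v 2) (.mul 1 (.v 5) (.v 10)))) (.add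 (.mul 1 (.v 2) (.mul 1 (.v 6) (.v 11))) (.add (.mul 0 (.c 3) (.mul 1 (.v 3) (.mul 1 (.v 6) (.v 7)))) (.add (.mul 0 (.c 3) (.mul 1 (.v 4) (.mul 1 (.v 5) (.v 8)))) (.add (.mul 0 (.c 2) (.mul 1 (.v 4) (.mul 1 (.v 7) (.v 11)))) (.add (.mul 1 (.v 6) (.mul 1 (.v 6) (.v 8))) (.mul 0 (.c 3) (.mul 1 (.v 6) (.mul 1 (.v 8) (.v 9))))))))))))))))))))))]
theorem L16j0 : lchk side0 0 3 et16 X16p X16n = true := by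
  decide +kernel
theorem L16j1 : lchk side1 1 3 et16 X16p X16n = true := by
  decide +kernel
theorem L16j2 : lchk side2 2 3 et16 X16p X16n = true := by
  decide +kernel
theorem L16j3 : lchk side3 3 3 et16 X16p X16n = true := by
  decide +kernel
noncomputable def X17p : List Ex := [
  (.add (.mul 1 (.v 0) (.mul 1 (.v 2) (.v 3))) (.add (.mul 0 (.c 2) (.mul 1 (.v 0) (.mul 1 (.v 3) (.v 5)))) (.add (.mul 1 (.v 0) (.mul 1 (.v 4) (.v 9))) (.add (.mul 0 (.c 3) (.mul 1 (.v 0) (.mul 1 (.v 6) (.v 7)))) (.add (.mul 0 (.c 2) (.mul 1 (.v 0) (.mul 1 (.v 7) (.v 9)))) (.add (.mul 1 (.v 1) (.mul 1 (.v 1) (.v 3))) (.add (.mul 1 (.v 2) (.mul 1 (.v 3) (.v 6))) (.add (.mul 1 (.v 3) (.mul 1 (.v 7) (.v 11))) (.add (.mul 1 (.v 3) (.mul 1 (.v 9) (.v 10))) (.add (.mul 1 (.v 4) (.mul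 1 (.v 6) (.v 9))) (.add (.mul 1 (.v 4) (.mul 1 (.v 8) (.v 9))) (.mul 1 (.v 4) (.mul 1 (.v 9) (.v 9)))))))))))))),
  (.add (.mul 1 (.v 0) (.mul 1 (.v 0) (.v 5))) (.add (.mul 1 (.v 0) (.mul 1 (.v 1) (.v 1))) (.add (.mul 0 (.c 3) (.mul 1 (.v 0) (.mul 1 (.v 1) (.v 7)))) (.add (.mul 0 (.c 3) (.mul 1 (.v 0) (.mul 1 (.v 1) (.v 11)))) (.add (.mul 0 (.c 2) (.mul 1 (.v 0) (.mul 1 (.v 4) (.v 7)))) (.add (.mul 1 (.v 0) (.mul 1 (.v 5) (.v 6))) (.add (.mul 1 (.v 0) (.mul 1 (.v 7) (.v 11))) (.add (.mul 1 (.v 0) (.mul 1 (.v 9) (.v 10))) (.add (.mul 1 (.v 1) (.mul 1 (.v 1) (.v 6))) (.add (.mul 0 (.c 3) (.mul 1 (.v 1) (.mul 1 (.v 2) (.v 2)))) (.add (.mul 0 (.c 3) (.mul 1 (.v 1) (.mul 1 (.v 2) (.v 10)))) (.add (.mul 0 (.c 2) (.mul 1 (.v 1) (.mul 1 (.v 5) (.v 10)))) (.add (.mul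 0 (.c 2) (.mul 1 (.v 1) (.mul 1 (.v 8) (.v 11)))) (.add (.mul 1 (.v 1) (.mul 1 (.v 9) (.v 11))) (.add (.mul 0 (.c 3) (.mul 1 (.v 1) (.mul 1 (.v 10) (.v 10)))) (.add (.mul 0 (.c 3) (.mul 1 (.v 2) (.mul 1 (.v 2) (.v 11)))) (.add (.mul 0 (.c 3) (.mul 1 (.v 2) (.mul 1 (.v 4) (.v 5)))) (.add (.mul 1 (.v 2) (.mul 1 (.v 6) (.v 6))) (.add (.mul 0 (.c 3) (.mul 1 (.v 2) (.mul 1 (.v 10) (.v 11)))) (.add (.mul 1 (.v 3) (.mul 1 (.v 6) (.v 9))) (.add (.mul 0 (.c 2) (.mul 1 (.v 3) (.mul 1 (.v 8) (.v 9)))) (.add (.mul 0 (.c 2) (.mul 1 (.v 3) (.mul 1 (.v 9) (.v 9)))) (.add (.mul 0 (.c 3) (.mul 1 (.v 4) (.mul 1 (.v 5) (.v 10)))) (.add (.mul 0 (.c 3) (.mul 1 (.v 4) (.mul 1 (.v 7) (.v 8)))) (.mul 1 (.v 6) (.mul 1 (.v 7) (.v 11))))))))))))))))))))))))))),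
  (.add (.mul 1 (.v 0) (.mul 1 (.v 2) (.v 7))) (.add (.mul 1 (.v 0) (.mul 1 (.v 9) (.v 9))) (.add (.mul 1 (.v 1) (.mul 1 (.v 2) (.v 8))) (.add (.mul 0 (.c 3) (.mul 1 (.v 1) (.mul 1 (.v 2) (.v 9)))) (.add (.mul 0 (.c 2) (.mul 1 (.v 1) (.mul 1 (.v 4) (.v 7)))) (.add (.mul 0 (.c 2) (.mul 1 (.v 1) (.mul 1 (.v 5) (.v 8)))) (.add (.mul 1 (.v 1) (.mul 1 (.v 9) (.v 10))) (.add (.mul 1 (.v 2) (.mul 1 (.v 2) (.v 2))) (.add (.mul 1 (.v 2) (.mul 1 (.v 6) (.v 7))) (.add (.mul 1 (.v 3) (.mul 1 (.v 4) (.v 9))) (.add (.mul 1 (.v 4) (.mul 1 (.v 4) (.v 7))) (.add (.mul 1 (.v 4) (.mul 1 (.v 5) (.v 8))) (.add (.mul 0 (.c 3) (.mul 1 (.v 4) (.mul 1 (.v 5) (.v 9)))) (.add (.mul 1 (.v 4) (.mul 1 (.v 7) (.v 11))) (.add (.mul 0 (.c 2) (.mul 1 (.v 5) (.mul 1 (.v 8) (.v 11)))) (.add (.mul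 1 (.v 8) (.mul 1 (.v 8) (.v 9))) (.add (.mul 1 (.v 8) (.mul 1 (.v 9) (.v 9))) (.mul 1 (.v 9) (.mul 1 (.v 10) (.v 11))))))))))))))))))))]
noncomputable def X17n : List Ex := [
  (.add (.mul 1 (.v 0) (.mul 1 (.v 0) (.v 1))) (.add (.mul 1 (.v 0) (.mul 1 (.v 0) (.v 7))) (.add (.mul 1 (.v 0) (.mul 1 (.v 1) (.v 8))) (.add (.mul 1 (.v 0) (.mul 1 (.v 2) (.v 2))) (.add (.mul 0 (.c 2) (.mul 1 (.v 0) (.mul 1 (.v 5) (.v 10)))) (.add (.mul 1 (.v 0) (.mul 1 (.v 8) (.v 11))) (.add (.mul 1 (.v 0) (.mul 1 (.v 9) (.v 11))) (.add (.mul 1 (.v 3) (.mul 1 (.v 3) (.v 9))) (.add (.mul 1 (.v 3) (.mul 1 (.v 4) (.v 7))) (.mul 1 (.v 3) (.mul 1 (.v 5) (.v 8)))))))))))),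
  (.add (.mul 0 (.c 2) (.mul 1 (.v 0) (.mul 1 (.v 0) (.v 2)))) (.add (.mul 1 (.v 0) (.mul 1 (.v 2) (.v 6))) (.add (.mul 0 (.c 3) (.mul 1 (.v 0) (.mul 1 (.v 2) (.v 8)))) (.add (.mul 1 (.v 0) (.mul 1 (.v 3) (.v 9))) (.add (.mul 1 (.v 0) (.mul 1 (.v 5) (.v 8))) (.add (.mul 0 (.c 3) (.mul 1 (.v 1) (.mul 1 (.v 2) (.v 3)))) (.add (.mul 0 (.c 3) (.mul 1 (.v 1) (.mul 1 (.v 3) (.v 10)))) (.add (.mul 1 (.v 1) (.mul 1 (.v 4) (.v 9))) (.add (.mul 1 (.v 1) (.mul 1 (.v 6) (.v 7))) (.add (.mul 0 (.c 3) (.mul 1 (.v 2) (.mul 1 (.v 3) (.v 11)))) (.add (.mul 0 (.c 3) (.mul 1 (.v 2) (.mul 1 (.v 6) (.v 8)))) (.add (.mul 0 (.c 2) (.mul 1 (.v 2) (.mul 1 (.v 6) (.v 9)))) (.add (.mul 0 (.c 2) (.mul 1 (.v 2) (.mul 1 (.v 8) (.v 9)))) (.add (.mul 0 (.c 2) (.mul 1 (.v 2) (.mul 1 (.v 9)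 (.v 9)))) (.add (.mul 0 (.c 3) (.mul 1 (.v 3) (.mul 1 (.v 5) (.v 7)))) (.add (.mul 0 (.c 3) (.mul 1 (.v 3) (.mul 1 (.v 5) (.v 11)))) (.add (.mul 1 (.v 4) (.mul 1 (.v 6) (.v 7))) (.add (.mul 1 (.v 5) (.mul 1 (.v 6) (.v 8))) (.add (.mul 1 (.v 6) (.mul 1 (.v 9) (.v 10))) (.add (.mul 0 (.c 2) (.mul 1 (.v 8) (.mul 1 (.v 9) (.v 10)))) (.mul 0 (.c 2) (.mul 1 (.v 9) (.mul 1 (.v 9) (.v 10)))))))))))))))))))))))),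
  (.add (.mul 0 (.c 3) (.mul 1 (.v 0) (.mul 1 (.v 0) (.v 9)))) (.add (.mul 1 (.v 0) (.mul 1 (.v 1) (.v 2))) (.add (.mul 0 (.c 2) (.mul 1 (.v 0) (.mul 1 (.v 1) (.v 5)))) (.add (.mul 1 (.v 0) (.mul 1 (.v 2) (.v 4))) (.add (.mul 0 (.c 2) (.mul 1 (.v 0) (.mul 1 (.v 2) (.v 11)))) (.add (.mul 1 (.v 0) (.mul 1 (.v 4) (.v 5))) (.add (.mul 0 (.c 2) (.mul 1 (.v 0) (.mul 1 (.v 5) (.v 11)))) (.add (.mul 0 (.c 2) (.mul 1 (.v 0) (.mul 1 (.v 6) (.v 9)))) (.add (.mul 0 (.c 2) (.mul 1 (.v 0) (.mul 1 (.v 8) (.v 9)))) (.add (.mul 0 (.c 2) (.mul 1 (.v 1) (.mul 1 (.v 1) (.v 1)))) (.add (.mul 1 (.v 1) (.mul 1 (.v 1) (.v 4))) (.add (.mul 0 (.c 2) (.mul 1 (.v 1) (.mul 1 (.v 1) (.v 11)))) (.add (.mul 0 (.c 2) (.mul 1 (.v 1) (.mul 1 (.v 2) (.v 6)))) (.add (.mul 1 (.v 1) (.mul 1 (.v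 3) (.v 9))) (.add (.mul 0 (.c 2) (.mul 1 (.v 1) (.mul 1 (.v 7) (.v 11)))) (.add (.mul 1 (.v 2) (.mul 1 (.v 3) (.v 5))) (.add (.mul 1 (.v 2) (.mul 1 (.v 4) (.v 6))) (.add (.mul 0 (.c 2) (.mul 1 (.v 2) (.mul 1 (.v 6) (.v 11)))) (.add (.mul 0 (.c 2) (.mul 1 (.v 2) (.mul 1 (.v 7) (.v 9)))) (.add (.mul 1 (.v 2) (.mul 1 (.v 8) (.v 11))) (.add (.mul 1 (.v 3) (.mul 1 (.v 9) (.v 11))) (.add (.mul 1 (.v 4) (.mul 1 (.v 9) (.v 10))) (.add (.mul 0 (.c 2) (.mul 1 (.v 6) (.mul 1 (.v 8) (.v 9)))) (.mul 0 (.c 2) (.mul 1 (.v 7) (.mul 1 (.v 11) (.v 11)))))))))))))))))))))))))))]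
theorem L17j0 : lchk side0 0 3 et17 X17p X17n = true := by
  decide +kernel
theorem L17j1 : lchk side1 1 3 et17 X17p X17n = true := by
  decide +kernel
theorem L17j2 : lchk side2 2 3 et17 X17p X17n = true := by
  decide +kernel
theorem L17j3 : lchk side3 3 3 et17 X17p X17n = true := by
  decide +kernel
noncomputable def X18p : List Ex := [
  (.add (.mul 1 (.v 0) (.mul 1 (.v 0) (.v 3))) (.add (.mul 0 (.c 2) (.mul 1 (.v 0) (.mul 1 (.v 1) (.v 7)))) (.add (.mul 0 (.c 2) (.mul 1 (.v 0) (.mul 1 (.v 1) (.v 11)))) (.add (.mul 1 (.v 0) (.mul 1 (.v 3) (.v 6))) (.add (.mul 1 (.v 0) (.mul 1 (.v 3) (.v 8))) (.add (.mul 1 (.v 0) (.mul 1 (.v 7) (.v 11))) (.add (.mul 0 (.c 2) (.mul 1 (.v 1) (.mul 1 (.v 3) (.v 5)))) (.add (.mul 1 (.v 1) (.mul 1 (.v 3) (.v 10))) (.add (.mul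 1 (.v 1) (.mul 1 (.v 4) (.v 8))) (.add (.mul 1 (.v 2) (.mul 1 (.v 2) (.v 4))) (.add (.mul 0 (.c 2) (.mul 1 (.v 2) (.mul 1 (.v 4) (.v 5)))) (.add (.mul 0 (.c 2) (.mul 1 (.v 2) (.mul 1 (.v 4) (.v 10)))) (.add (.mul 1 (.v 3) (.mul 1 (.v 6) (.v 8))) (.add (.mul 1 (.v 3) (.mul 1 (.v 7) (.v 10))) (.add (.mul 1 (.v 4) (.mul 1 (.v 5) (.v 10))) (.mul 1 (.v 4) (.mul 1 (.v 7) (.v 8)))))))))))))))))),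
  (.add (.mul 0 (.c 2) (.mul 1 (.v 0) (.mul 1 (.v 0) (.v 9)))) (.add (.mul 0 (.c 5) (.mul 1 (.v 0) (.mul 1 (.v 1) (.v 2)))) (.add (.mul 0 (.c 2) (.mul 1 (.v 0) (.mul 1 (.v 2) (.v 4)))) (.add (.mul 0 (.c 4) (.mul 1 (.v 0) (.mul 1 (.v 4) (.v 5)))) (.add (.mul 0 (.c 3) (.mul 1 (.v 0) (.mul 1 (.v 6) (.v 9)))) (.add (.mul 0 (.c 2) (.mul 1 (.v 0) (.mul 1 (.v 8) (.v 9)))) (.add (.mul 1 (.v 1) (.mul 1 (.v 1) (.v 1))) (.add (.mul 0 (.c 3) (.mul 1 (.v 1) (.mul 1 (.v 7) (.v 11)))) (.add (.mul 1 (.v 1) (.mul 1 (.v 8) (.v 10))) (.add (.mul 0 (.c 2) (.mul 1 (.v 2) (.mul 1 (.v 2) (.v 2)))) (.add (.mul 0 (.c 3) (.mul 1 (.v 2) (.mul 1 (.v 2) (.v 5)))) (.add (.mul 0 (.c 2) (.mul 1 (.v 2) (.mul 1 (.v 2) (.v 10)))) (.add (.mul 1 (.v 2) (.mul 1 (.v 4) (.v 6))) (.add (.mul 0 (.c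 2) (.mul 1 (.v 2) (.mul 1 (.v 5) (.v 10)))) (.add (.mul 0 (.c 2) (.mul 1 (.v 3) (.mul 1 (.v 5) (.v 10)))) (.add (.mul 0 (.c 3) (.mul 1 (.v 3) (.mul 1 (.v 6) (.v 7)))) (.add (.mul 0 (.c 3) (.mul 1 (.v 4) (.mul 1 (.v 5) (.v 8)))) (.add (.mul 1 (.v 6) (.mul 1 (.v 8) (.v 8))) (.mul 0 (.c 3) (.mul 1 (.v 6) (.mul 1 (.v 8) (.v 9)))))))))))))))))))))),
  (.add (.mul 1 (.v 0) (.mul 1 (.v 0) (.v 7))) (.add (.mul 1 (.v 0) (.mul 1 (.v 0) (.v 11))) (.add (.mul 0 (.c 3) (.mul 1 (.v 0) (.mul 1 (.v 1) (.v 6)))) (.add (.mul 1 (.v 0) (.mul 1 (.v 1) (.v 8))) (.add (.mul 0 (.c 2) (.mul 1 (.v 0) (.mul 1 (.v 1) (.v 9)))) (.add (.mul 0 (.c 3) (.mul 1 (.v 0) (.mul 1 (.v 2) (.v 3)))) (.add (.mul 1 (.v 0) (.mul 1 (.v 3) (.v 5))) (.add (.mul 1 (.v 0) (.mul 1 (.v 4) (.v 9))) (.add (.mul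 0 (.c 3) (.mul 1 (.v 0) (.mul 1 (.v 6) (.v 7)))) (.add (.mul 1 (.v 0) (.mul 1 (.v 7) (.v 8))) (.add (.mul 1 (.v 0) (.mul 1 (.v 7) (.v 9))) (.add (.mul 1 (.v 1) (.mul 1 (.v 1) (.v 3))) (.add (.mul 1 (.v 1) (.mul 1 (.v 2) (.v 7))) (.add (.mul 1 (.v 1) (.mul 1 (.v 2) (.v 11))) (.add (.mul 1 (.v 1) (.mul 1 (.v 3) (.v 7))) (.add (.mul 1 (.v 1) (.mul 1 (.v 3) (.v 11))) (.add (.mul 1 (.v 1) (.mul 1 (.v 4) (.v 10))) (.add (.mul 0 (.c 3) (.mul 1 (.v 1) (.mul 1 (.v 6) (.v 8)))) (.add (.mul 1 (.v 1) (.mul 1 (.v 8) (.v 8))) (.add (.mul 0 (.c 2) (.mul 1 (.v 1) (.mul 1 (.v 8) (.v 9)))) (.add (.mul 0 (.c 2) (.mul 1 (.v 2) (.mul 1 (.v 3) (.v 6)))) (.add (.mul 1 (.v 2) (.mul 1 (.v 3) (.v 8))) (.add (.mul 0 (.c 2) (.mul 1 (.v 2) (.mul 1 (.v 4) (.v 11)))) (.add (.mul 1 (.v 3)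 (.mul 1 (.v 5) (.v 8))) (.add (.mul 1 (.v 3) (.mul 1 (.v 7) (.v 11))) (.add (.mul 1 (.v 4) (.mul 1 (.v 7) (.v 10))) (.add (.mul 1 (.v 6) (.mul 1 (.v 7) (.v 8))) (.mul 1 (.v 8) (.mul 1 (.v 8) (.v 11))))))))))))))))))))))))))))))]
noncomputable def X18n : List Ex := [
  (.add (.mul 1 (.v 0) (.mul 1 (.v 0) (.v 2))) (.add (.mul 1 (.v 0) (.mul 1 (.v 0) (.v 5))) (.add (.mul 1 (.v 0) (.mul 1 (.v 1) (.v 1))) (.add (.mul 1 (.v 0) (.mul 1 (.v 1) (.v 4))) (.add (.mul 0 (.c 3) (.mul 1 (.v 0) (.mul 1 (.v 2) (.v 6)))) (.add (.mul 0 (.c 2) (.mul 1 (.v 0) (.mul 1 (.v 2) (.v 8)))) (.add (.mul 0 (.c 2) (.mul 1 (.v 0) (.mul 1 (.v 2) (.v 9)))) (.add (.mul 1 (.v 0) (.mul 1 (.v 3) (.v 9))) (.add (.mul 1 (.v 0) (.mul 1 (.v 5) (.v 8))) (.add (.mul 1 (.v 0) (.mul 1 (.v 6) (.v 10)))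 (.add (.mul 1 (.v 0) (.mul 1 (.v 8) (.v 10))) (.add (.mul 1 (.v 1) (.mul 1 (.v 2) (.v 3))) (.add (.mul 1 (.v 1) (.mul 1 (.v 3) (.v 3))) (.add (.mul 1 (.v 2) (.mul 1 (.v 3) (.v 4))) (.add (.mul 1 (.v 2) (.mul 1 (.v 3) (.v 11))) (.add (.mul 1 (.v 3) (.mul 1 (.v 3) (.v 7))) (.mul 1 (.v 3) (.mul 1 (.v 4) (.v 5))))))))))))))))))),
  (.add (.mul 0 (.c 2) (.mul 1 (.v 0) (.mul 1 (.v 0) (.v 0)))) (.add (.mul 0 (.c 3) (.mul 1 (.v 0) (.mul 1 (.v 0) (.v 6)))) (.add (.mul 0 (.c 2) (.mul 1 (.v 0) (.mul 1 (.v 0) (.v 8)))) (.add (.mul 0 (.c 2) (.mul 1 (.v 0) (.mul 1 (.v 2) (.v 7)))) (.add (.mul 0 (.c 2) (.mul 1 (.v 0) (.mul 1 (.v 2) (.v 11)))) (.add (.mul 1 (.v 0) (.mul 1 (.v 5) (.v 7))) (.add (.mul 0 (.c 4) (.mul 1 (.v 0) (.mul 1 (.v 5) (.v 11)))) (.add (.mul 0 (.c 2) (.mul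 1 (.v 0) (.mul 1 (.v 6) (.v 8)))) (.add (.mul 0 (.c 4) (.mul 1 (.v 1) (.mul 1 (.v 2) (.v 9)))) (.add (.mul 1 (.v 1) (.mul 1 (.v 3) (.v 8))) (.add (.mul 0 (.c 3) (.mul 1 (.v 1) (.mul 1 (.v 4) (.v 7)))) (.add (.mul 0 (.c 2) (.mul 1 (.v 2) (.mul 1 (.v 2) (.v 3)))) (.add (.mul 0 (.c 2) (.mul 1 (.v 2) (.mul 1 (.v 3) (.v 5)))) (.add (.mul 0 (.c 4) (.mul 1 (.v 2) (.mul 1 (.v 6) (.v 7)))) (.add (.mul 1 (.v 2) (.mul 1 (.v 6) (.v 11))) (.add (.mul 1 (.v 3) (.mul 1 (.v 3) (.v 5))) (.add (.mul 0 (.c 3) (.mul 1 (.v 5) (.mul 1 (.v 8) (.v 11)))) (.add (.mul 1 (.v 5) (.mul 1 (.v 10) (.v 10))) (.mul 0 (.c 3) (.mul 1 (.v 6) (.mul 1 (.v 7) (.v 10)))))))))))))))))))))),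
  (.add (.mul 1 (.v 0) (.mul 1 (.v 0) (.v 4))) (.add (.mul 1 (.v 0) (.mul 1 (.v 2) (.v 2))) (.add (.mul 0 (.c 3) (.mul 1 (.v 0) (.mul 1 (.v 2) (.v 5)))) (.add (.mul 0 (.c 3) (.mul 1 (.v 0) (.mul 1 (.v 2) (.v 10)))) (.add (.mul 1 (.v 0) (.mul 1 (.v 5) (.v 10))) (.add (.mul 1 (.v 0) (.mul 1 (.v 9) (.v 11))) (.add (.mul 1 (.v 1) (.mul 1 (.v 1) (.v 2))) (.add (.mul 1 (.v 1) (.mul 1 (.v 1) (.v 10))) (.add (.mul 1 (.v 1) (.mul 1 (.v 2) (.v 4))) (.add (.mul 1 (.v 1) (.mul 1 (.v 3) (.v 4))) (.add (.mul 1 (.v 1) (.mul 1 (.v 7) (.v 10))) (.add (.mul 1 (.v 1) (.mul 1 (.v 10) (.v 11))) (.add (.mul 1 (.v 2) (.mul 1 (.v 2) (.v 8))) (.add (.mul 1 (.v 2) (.mul 1 (.v 4) (.v 4))) (.add (.mul 1 (.v 2) (.mul 1 (.v 5) (.v 8))) (.add (.mul 0 (.c 2) (.mul 1 (.v 2) (.mul 1 (.v 6)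 (.v 10)))) (.add (.mul 1 (.v 2) (.mul 1 (.v 8) (.v 10))) (.add (.mul 1 (.v 2) (.mul 1 (.v 11) (.v 11))) (.add (.mul 1 (.v 3) (.mul 1 (.v 4) (.v 7))) (.add (.mul 1 (.v 4) (.mul 1 (.v 8) (.v 8))) (.add (.mul 1 (.v 5) (.mul 1 (.v 8) (.v 10))) (.mul 1 (.v 7) (.mul 1 (.v 10) (.v 11))))))))))))))))))))))))]
theorem L18j0 : lchk side0 0 3 et18 X18p X18n = true := by
  decide +kernel
theorem L18j1 : lchk side1 1 3 et18 X18p X18n = true := by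
  decide +kernel
theorem L18j2 : lchk side2 2 3 et18 X18p X18n = true := by
  decide +kernel
theorem L18j3 : lchk side3 3 3 et18 X18p X18n = true := by
  decide +kernel
noncomputable def X19p : List Ex := [
  (.add (.mul 1 (.v 0) (.mul 1 (.v 0) (.v 2))) (.add (.mul 1 (.v 0) (.mul 1 (.v 0) (.v 5))) (.add (.mul 1 (.v 0) (.mul 1 (.v 1) (.v 1))) (.add (.mul 1 (.v 0) (.mul 1 (.v 2) (.v 6))) (.add (.mul 1 (.v 0) (.mul 1 (.v 6) (.v 10))) (.add (.mul 0 (.c 2) (.mul 1 (.v 0) (.mul 1 (.v 7) (.v 11)))) (.add (.mul 1 (.v 0) (.mul 1 (.v 9) (.v 10))) (.add (.mul 1 (.v 3) (.mul 1 (.v 4) (.v 5))) (.add (.mul 1 (.v 4) (.mul 1 (.v 4) (.v 9))) (.mul 1 (.v 4) (.mul 1 (.v 6) (.v 7)))))))))))),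
  (.add (.mul 0 (.c 3) (.mul 1 (.v 0) (.mul 1 (.v 0) (.v 9)))) (.add (.mul 1 (.v 0) (.mul 1 (.v 1) (.v 2))) (.add (.mul 1 (.v 0) (.mul 1 (.v 1) (.v 3))) (.add (.mul 0 (.c 2) (.mul 1 (.v 0) (.mul 1 (.v 1) (.v 10)))) (.add (.mul 0 (.c 2) (.mul 1 (.v 0) (.mul 1 (.v 2) (.v 7)))) (.add (.mul 1 (.v 0) (.mul 1 (.v 3) (.v 7))) (.add (.mul 0 (.c 2) (.mul 1 (.v 0) (.mul 1 (.v 6) (.v 9)))) (.add (.mul 0 (.c 2) (.mul 1 (.v 0) (.mul 1 (.v 7) (.v 10)))) (.add (.mul 0 (.c 2) (.mul 1 (.v 0) (.mul 1 (.v 8) (.v 9)))) (.add (.mul 0 (.c 2) (.mul 1 (.v 1) (.mul 1 (.v 2) (.v 8)))) (.add (.mul 1 (.v 1) (.mul 1 (.v 3) (.v 8))) (.add (.mul 1 (.v 1) (.mul 1 (.v 4) (.v 7))) (.add (.mul 0 (.c 2) (.mul 1 (.v 1) (.mul 1 (.v 5) (.v 9)))) (.add (.mul 1 (.v 1) (.mul 1 (.v 6) (.v 10))) (.add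 (.mul 0 (.c 2) (.mul 1 (.v 1) (.mul 1 (.v 8) (.v 10)))) (.add (.mul 0 (.c 2) (.mul 1 (.v 2) (.mul 1 (.v 2) (.v 2)))) (.add (.mul 1 (.v 2) (.mul 1 (.v 2) (.v 3))) (.add (.mul 0 (.c 2) (.mul 1 (.v 2) (.mul 1 (.v 2) (.v 10)))) (.add (.mul 1 (.v 2) (.mul 1 (.v 4) (.v 9))) (.add (.mul 0 (.c 2) (.mul 1 (.v 2) (.mul 1 (.v 5) (.v 10)))) (.add (.mul 1 (.v 3) (.mul 1 (.v 9) (.v 11))) (.add (.mul 1 (.v 4) (.mul 1 (.v 9) (.v 10))) (.add (.mul 0 (.c 2) (.mul 1 (.v 5) (.mul 1 (.v 10) (.v 10)))) (.mul 0 (.c 2) (.mul 1 (.v 6) (.mul 1 (.v 8) (.v 9))))))))))))))))))))))))))),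
  (.add (.mul 0 (.c 2) (.mul 1 (.v 0) (.mul 1 (.v 0) (.v 1)))) (.add (.mul 0 (.c 3) (.mul 1 (.v 0) (.mul 1 (.v 1) (.v 6)))) (.add (.mul 1 (.v 0) (.mul 1 (.v 1) (.v 8))) (.add (.mul 1 (.v 0) (.mul 1 (.v 4) (.v 9))) (.add (.mul 1 (.v 0) (.mul 1 (.v 6) (.v 7))) (.add (.mul 0 (.c 3) (.mul 1 (.v 1) (.mul 1 (.v 2) (.v 4)))) (.add (.mul 0 (.c 3) (.mul 1 (.v 1) (.mul 1 (.v 4) (.v 10)))) (.add (.mul 0 (.c 3) (.mul 1 (.v 1) (.mul 1 (.v 6) (.v 8)))) (.add (.mul 0 (.c 2) (.mul 1 (.v 1) (.mul 1 (.v 6) (.v 9)))) (.add (.mul 0 (.c 2) (.mul 1 (.v 1) (.mul 1 (.v 8) (.v 9)))) (.add (.mul 0 (.c 2) (.mul 1 (.v 1) (.mul 1 (.v 9) (.v 9)))) (.add (.mul 1 (.v 2) (.mul 1 (.v 3) (.v 9))) (.add (.mul 0 (.c 3) (.mul 1 (.v 2) (.mul 1 (.v 4) (.v 11)))) (.add (.mul 1 (.v 2) (.mul 1 (.v 5)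 (.v 8))) (.add (.mul 1 (.v 3) (.mul 1 (.v 5) (.v 8))) (.add (.mul 0 (.c 3) (.mul 1 (.v 4) (.mul 1 (.v 5) (.v 7)))) (.add (.mul 0 (.c 3) (.mul 1 (.v 4) (.mul 1 (.v 7) (.v 10)))) (.add (.mul 1 (.v 6) (.mul 1 (.v 7) (.v 8))) (.add (.mul 0 (.c 2) (.mul 1 (.v 6) (.mul 1 (.v 9) (.v 11)))) (.add (.mul 1 (.v 8) (.mul 1 (.v 9) (.v 11))) (.mul 0 (.c 2) (.mul 1 (.v 9) (.mul 1 (.v 9) (.v 11))))))))))))))))))))))))]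
noncomputable def X19n : List Ex := [
  (.add (.mul 1 (.v 0) (.mul 1 (.v 1) (.v 4))) (.add (.mul 1 (.v 0) (.mul 1 (.v 3) (.v 9))) (.add (.mul 0 (.c 2) (.mul 1 (.v 0) (.mul 1 (.v 4) (.v 7)))) (.add (.mul 0 (.c 3) (.mul 1 (.v 0) (.mul 1 (.v 5) (.v 8)))) (.add (.mul 0 (.c 2) (.mul 1 (.v 0) (.mul 1 (.v 5) (.v 9)))) (.add (.mul 1 (.v 1) (.mul 1 (.v 4) (.v 8))) (.add (.mul 1 (.v 2) (.mul 1 (.v 2) (.v 4))) (.add (.mul 1 (.v 3) (.mul 1 (.v 6) (.v 9))) (.add (.mul 1 (.v 3) (.mul 1 (.v 8) (.v 9))) (.add (.mul 1 (.v 3) (.mul 1 (.v 9) (.v 9))) (.add (.mul 1 (.v 4) (.mul 1 (.v 5) (.v 10))) (.mul 1 (.v 4) (.mul 1 (.v 9) (.v 11)))))))))))))),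
  (.add (.mul 1 (.v 0) (.mul 1 (.v 1) (.v 5))) (.add (.mul 1 (.v 0) (.mul 1 (.v 9) (.v 9))) (.add (.mul 1 (.v 1) (.mul 1 (.v 1) (.v 1))) (.add (.mul 1 (.v 1) (.mul 1 (.v 2) (.v 6))) (.add (.mul 0 (.c 3) (.mul 1 (.v 1) (.mul 1 (.v 2) (.v 9)))) (.add (.mul 1 (.v 1) (.mul 1 (.v 5) (.v 8))) (.add (.mul 0 (.c 2) (.mul 1 (.v 2) (.mul 1 (.v 3) (.v 5)))) (.add (.mul 0 (.c 2) (.mul 1 (.v 2) (.mul 1 (.v 6) (.v 7)))) (.add (.mul 1 (.v 2) (.mul 1 (.v 9) (.v 11))) (.add (.mul 1 (.v 3) (.mul 1 (.v 3) (.v 5))) (.add (.mul 1 (.v 3) (.mul 1 (.v 4) (.v 9))) (.add (.mul 1 (.v 3) (.mul 1 (.v 5) (.v 10))) (.add (.mul 1 (.v 3) (.mul 1 (.v 6) (.v 7))) (.add (.mul 0 (.c 3) (.mul 1 (.v 3) (.mul 1 (.v 7) (.v 9)))) (.add (.mul 1 (.v 6) (.mul 1 (.v 6) (.v 9))) (.add (.mul 0 (.c 2) (.mul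 1 (.v 6) (.mul 1 (.v 7) (.v 10)))) (.add (.mul 1 (.v 6) (.mul 1 (.v 9) (.v 9))) (.mul 1 (.v 9) (.mul 1 (.v 10) (.v 11)))))))))))))))))))),
  (.add (.mul 1 (.v 0) (.mul 1 (.v 0) (.v 7))) (.add (.mul 1 (.v 0) (.mul 1 (.v 2) (.v 2))) (.add (.mul 0 (.c 3) (.mul 1 (.v 0) (.mul 1 (.v 2) (.v 5)))) (.add (.mul 0 (.c 3) (.mul 1 (.v 0) (.mul 1 (.v 2) (.v 10)))) (.add (.mul 0 (.c 2) (.mul 1 (.v 0) (.mul 1 (.v 3) (.v 5)))) (.add (.mul 1 (.v 0) (.mul 1 (.v 5) (.v 10))) (.add (.mul 1 (.v 0) (.mul 1 (.v 7) (.v 8))) (.add (.mul 1 (.v 0) (.mul 1 (.v 9) (.v 11))) (.add (.mul 0 (.c 3) (.mul 1 (.v 1) (.mul 1 (.v 1) (.v 2)))) (.add (.mul 0 (.c 3) (.mul 1 (.v 1) (.mul 1 (.v 1) (.v 10)))) (.add (.mul 0 (.c 3) (.mul 1 (.v 1) (.mul 1 (.v 2) (.v 11)))) (.add (.mul 0 (.c 3) (.mul 1 (.v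 1) (.mul 1 (.v 3) (.v 7)))) (.add (.mul 1 (.v 1) (.mul 1 (.v 8) (.v 8))) (.add (.mul 0 (.c 3) (.mul 1 (.v 1) (.mul 1 (.v 10) (.v 11)))) (.add (.mul 1 (.v 2) (.mul 1 (.v 2) (.v 8))) (.add (.mul 0 (.c 2) (.mul 1 (.v 2) (.mul 1 (.v 6) (.v 10)))) (.add (.mul 0 (.c 2) (.mul 1 (.v 2) (.mul 1 (.v 7) (.v 11)))) (.add (.mul 1 (.v 2) (.mul 1 (.v 9) (.v 10))) (.add (.mul 0 (.c 3) (.mul 1 (.v 2) (.mul 1 (.v 11) (.v 11)))) (.add (.mul 0 (.c 3) (.mul 1 (.v 3) (.mul 1 (.v 5) (.v 6)))) (.add (.mul 0 (.c 3) (.mul 1 (.v 3) (.mul 1 (.v 7) (.v 11)))) (.add (.mul 0 (.c 2) (.mul 1 (.v 4) (.mul 1 (.v 6) (.v 9)))) (.add (.mul 1 (.v 4) (.mul 1 (.v 8) (.v 9))) (.add (.mul 0 (.c 2) (.mul 1 (.v 4) (.mul 1 (.v 9) (.v 9)))) (.mul 1 (.v 5) (.mul 1 (.v 8) (.v 10)))))))))))))))))))))))))))]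
theorem L19j0 : lchk side0 0 3 et19 X19p X19n = true := by
  decide +kernel
theorem L19j1 : lchk side1 1 3 et19 X19p X19n = true := by
  decide +kernel
theorem L19j2 : lchk side2 2 3 et19 X19p X19n = true := by
  decide +kernel
theorem L19j3 : lchk side3 3 3 et19 X19p X19n = true := by
  decide +kernel

end Pool.Agent.Mond56
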