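import Pool.Agent.LibMond56.LC0
import Pool.Agent.LibMond56.LC1
import Pool.Agent.LibMond56.LC2
import Pool.Agent.LibMond56.LC3
import Pool.Agent.LibMV18.Main
import Pool.Agent.LibGF7.ExA

set_option autoImplicit false
set_option maxRecDepth 100000

/-! MP_ed98ad_ag: the mother fields of LibMV18 are liftable. -/

namespace Pool.Agent.Mond56

open Pool.Agent.Mond61 Pool.Agent.LibMV18 Pool.Agent.LibMX34 Pool.Agent.LibGF7

/-- the variables `x, y, z, v1..v9` of the source ring -/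
noncomputable def xB (n : ℕ) : MvPolynomial (Fin 12) ℤ := if h : n < 12 then MvPolynomial.X ⟨n, h⟩ else 0

/-- positive part of the lifts -/
noncomputable def Xp : Fin 20 → List Ex :=
  ![X0p, X1p, X2p, X3p, X4p, X5p, X6p, X7p, X8p, X9p, X10p, X11p, X12p, X13p, X14p, X15p, X16p, X17p, X18p, X19p]

/-- negative part of the lifts -/
noncomputable def Xn : Fin 20 → List Ex :=
  ![X0n, X1n, X2n, X3n, X4n, X5n, X6n, X7n, X8n, X9n, X10n, X11n, X12n, X13n, X14n, X15n, X16n, X17n, X18n, X19n]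

/-- the lifts of the mother fields -/
noncomputable def xiP (i : Fin 20) (a : Fin 3) : MvPolynomial (Fin 12) ℤ :=
  (rowAt (Xp i) a).ev Ts Tw 16 xB - (rowAt (Xn i) a).ev Ts Tw 16 xB

theorem Tspt (d : ℕ) (hd : d < 13) : (Tsub.getD d (Ex.c 1)).ev Ts Tw 16 xB = FUs (xT d) := by
  have hv : ∀ i : ℕ, i < 12 → (Ex.v i).ev Ts Tw 16 xB = xB i := fun i hi => Ex.ev_v _ _ _ _ _ hi
  have hX : ∀ t : Fin 13, FUs (MvPolynomial.X t) =
      (Fin.append FU (fun k : Fin 9 => (MvPolynomial.X (Fin.natAdd 3 k) : MvPolynomial (Fin 12) ℤ)) : Fin (4 + 9) → MvPolynomial (Fin 12) ℤ) t :=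
    fun t => MvPolynomial.aeval_X _ _
  interval_cases d
  · change _ = FUs (MvPolynomial.X 4); rw [hX]; exact hv 3 (by decide)
  · change _ = FUs (MvPolynomial.X 5); rw [hX]; exact hv 4 (by decide)
  · change _ = FUs (MvPolynomial.X 6); rw [hX]; exact hv 5 (by decide)
  · change _ = FUs (MvPolynomial.X 7); rw [hX]; exact hv 6 (by decide)
  · change _ = FUs (MvPolynomial.X 8); rw [hX]; exact hv 7 (by decide)
  · change _ = FUs (MvPolynomial.X 9); rw [hX]; exact hv 8 (by decide)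
  · change _ = FUs (MvPolynomial.X 10); rw [hX]; exact hv 9 (by decide)
  · change _ = FUs (MvPolynomial.X 11); rw [hX]; exact hv 10 (by decide)
  · change _ = FUs (MvPolynomial.X 12); rw [hX]; exact hv 11 (by decide)
  · change _ = FUs (MvPolynomial.X 0)
    rw [hX]
    change (Ex.add (.mul 1 (.v 0) (.v 0)) (.add (.mul 1 (.v 3) (.v 1)) (.mul 1 (.v 4) (.v 2)))).ev Ts Tw 16 xB =
      MvPolynomial.X 0 ^ 2 + MvPolynomial.X 3 * MvPolynomial.X 1 + MvPolynomial.X 4 * MvPolynomial.X 2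
    simp only [Ex.ev_add, Ex.ev_mul, hv 0 (by decide), hv 1 (by decide), hv 2 (by decide), hv 3 (by decide), hv 4 (by decide)]
    change MvPolynomial.X 0 * MvPolynomial.X 0 + (MvPolynomial.X 3 * MvPolynomial.X 1 + MvPolynomial.X 4 * MvPolynomial.X 2) = _
    ring
  · change _ = FUs (MvPolynomial.X 1)
    rw [hX]
    change (Ex.add (.mul 1 (.v 1) (.v 1)) (.add (.mul 1 (.v 0) (.v 2)) (.add (.mul 1 (.v 5) (.v 0)) (.mul 1 (.v 6) (.v 2))))).ev Ts Tw 16 xB =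
      MvPolynomial.X 1 ^ 2 + MvPolynomial.X 0 * MvPolynomial.X 2 + MvPolynomial.X 5 * MvPolynomial.X 0 + MvPolynomial.X 6 * MvPolynomial.X 2
    simp only [Ex.ev_add, Ex.ev_mul, hv 0 (by decide), hv 1 (by decide), hv 2 (by decide), hv 5 (by decide), hv 6 (by decide)]
    change MvPolynomial.X 1 * MvPolynomial.X 1 + (MvPolynomial.X 0 * MvPolynomial.X 2 + (MvPolynomial.X 5 * MvPolynomial.X 0 +
      MvPolynomial.X 6 * MvPolynomial.X 2)) = _
    ring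
  · change _ = FUs (MvPolynomial.X 2)
    rw [hX]
    change (Ex.add (.mul 1 (.v 2) (.v 2)) (.add (.mul 1 (.v 0) (.v 1)) (.add (.mul 1 (.v 7) (.v 0)) (.mul 1 (.v 8) (.v 1))))).ev Ts Tw 16 xB =
      MvPolynomial.X 2 ^ 2 + MvPolynomial.X 0 * MvPolynomial.X 1 + MvPolynomial.X 7 * MvPolynomial.X 0 + MvPolynomial.X 8 * MvPolynomial.X 1
    simp only [Ex.ev_add, Ex.ev_mul, hv 0 (by decide), hv 1 (by decide), hv 2 (by decide), hv 7 (by decide), hv 8 (by decide)]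
    change MvPolynomial.X 2 * MvPolynomial.X 2 + (MvPolynomial.X 0 * MvPolynomial.X 1 + (MvPolynomial.X 7 * MvPolynomial.X 0 +
      MvPolynomial.X 8 * MvPolynomial.X 1)) = _
    ring
  · change _ = FUs (MvPolynomial.X 3)
    rw [hX]
    change (Ex.add (.mul 1 (.v 1) (.v 2)) (.add (.mul 1 (.v 9) (.v 0)) (.add (.mul 1 (.v 10) (.v 1)) (.mul 1 (.v 11) (.v 2))))).ev Ts Tw 16 xB =
      MvPolynomial.X 1 * MvPolynomial.X 2 + MvPolynomial.X 9 * MvPolynomial.X 0 + MvPolynomial.X 10 * MvPolynomial.X 1 +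
        MvPolynomial.X 11 * MvPolynomial.X 2
    simp only [Ex.ev_add, Ex.ev_mul, hv 0 (by decide), hv 1 (by decide), hv 2 (by decide), hv 9 (by decide), hv 10 (by decide),
      hv 11 (by decide)]
    change MvPolynomial.X 1 * MvPolynomial.X 2 + (MvPolynomial.X 9 * MvPolynomial.X 0 + (MvPolynomial.X 10 * MvPolynomial.X 1 +
      MvPolynomial.X 11 * MvPolynomial.X 2)) = _
    ring

/-- a coefficient of a mother field on the source -/
theorem evL (i : Fin 20) (t : Fin 13) : FUs (etaP i t) =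
    pv (fun d => (Tsub.getD d (Ex.c 1)).ev Ts Tw 16 xB) ((flds i).et.getD (toI t) (0, 0)).1 -
      pv (fun d => (Tsub.getD d (Ex.c 1)).ev Ts Tw 16 xB) ((flds i).et.getD (toI t) (0, 0)).2 := by
  have h : ∀ N : ℕ, FUs (pv xT N) = pv (fun d => (Tsub.getD d (Ex.c 1)).ev Ts Tw 16 xB) N := by
    intro N
    have := map_pv FUs.toRingHom xT N
    exact Eq.trans this (pv_congr (fun d hd => (Tspt d hd).symm) N)
  unfold etaP sv
  rw [map_sub, h, h]
  rfl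

open MvPolynomial in
theorem dFU (j : Fin 4) (a : Fin 12) : pderiv a (FU j) =
    (![![2 * X 0, X 3, X 4, X 1, X 2, 0, 0, 0, 0, 0, 0, 0],
      ![X 2 + X 5, 2 * X 1, X 0 + X 6, 0, 0, X 0, X 2, 0, 0, 0, 0, 0],
      ![X 1 + X 7, X 0 + X 8, 2 * X 2, 0, 0, 0, 0, X 0, X 1, 0, 0, 0],
      ![X 9, X 2 + X 10, X 1 + X 11, 0, 0, 0, 0, 0, 0, X 0, X 1, X 2]] : Fin 4 → Fin 12 → MvPolynomial (Fin 12) ℤ) j a := by
  fin_cases j <;> fin_cases a <;> simp [FU, pderiv_X, Pi.single_apply, Derivation.leibniz] <;> ring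

theorem sum3 (j : Fin 4) (g : Fin 3 → MvPolynomial (Fin 12) ℤ) :
    ∑ a : Fin 3, g a * MvPolynomial.pderiv (Fin.castLE (by omega) a : Fin 12) (FU j) =
      g 0 * MvPolynomial.pderiv 0 (FU j) + g 1 * MvPolynomial.pderiv 1 (FU j) + g 2 * MvPolynomial.pderiv 2 (FU j) := by
  rw [Fin.sum_univ_three]
  rfl

theorem sum9 (j : Fin 4) (g : Fin 9 → MvPolynomial (Fin 12) ℤ) :
    ∑ t, g t * MvPolynomial.pderiv (ivB t) (FU j) =
      g 0 * MvPolynomial.pderiv 3 (FU j) + g 1 * MvPolynomial.pderiv 4 (FU j) + g 2 * MvPolynomial.pderiv 5 (FU j) +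
      g 3 * MvPolynomial.pderiv 6 (FU j) + g 4 * MvPolynomial.pderiv 7 (FU j) + g 5 * MvPolynomial.pderiv 8 (FU j) +
      g 6 * MvPolynomial.pderiv 9 (FU j) + g 7 * MvPolynomial.pderiv 10 (FU j) + g 8 * MvPolynomial.pderiv 11 (FU j) := by
  rw [Fin.sum_univ_castSucc, Fin.sum_univ_eight]
  rfl

theorem hl0 (i : Fin 20) {D : ℕ} (h : lchk side0 0 D (flds i).et (Xp i) (Xn i) = true) :
    FUs (etaP i (ijO 0)) = ∑ a : Fin 3, xiP i a * MvPolynomial.pderiv (Fin.castLE (by omega) a : Fin 12) (FU 0) +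
      ∑ t, FUs (etaP i (ivO t)) * MvPolynomial.pderiv (ivB t) (FU 0) := by
  rw [sum3, sum9]
  simp only [dFU, evL]
  have h1 := lchk0 xB _ rfl D (flds i).et (Xp i) (Xn i) _ _ (fun _ => rfl) (fun _ => rfl) h
  refine Eq.trans h1 ?_
  change xiP i 0 * (2 * MvPolynomial.X 0) + xiP i 1 * MvPolynomial.X 3 + xiP i 2 * MvPolynomial.X 4 + _ * MvPolynomial.X 1 +
    _ * MvPolynomial.X 2 = xiP i 0 * (2 * MvPolynomial.X 0) + xiP i 1 * MvPolynomial.X 3 + xiP i 2 * MvPolynomial.X 4 +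
      (_ * MvPolynomial.X 1 + _ * MvPolynomial.X 2 + _ * 0 + _ * 0 + _ * 0 + _ * 0 + _ * 0 + _ * 0 + _ * 0)
  simp only [mul_zero, add_zero]
  exact add_assoc _ _ _

theorem hl1 (i : Fin 20) {D : ℕ} (h : lchk side1 1 D (flds i).et (Xp i) (Xn i) = true) :
    FUs (etaP i (ijO 1)) = ∑ a : Fin 3, xiP i a * MvPolynomial.pderiv (Fin.castLE (by omega) a : Fin 12) (FU 1) +
      ∑ t, FUs (etaP i (ivO t)) * MvPolynomial.pderiv (ivB t) (FU 1) := by
  rw [sum3, sum9]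
  simp only [dFU, evL]
  have h1 := lchk1 xB _ rfl D (flds i).et (Xp i) (Xn i) _ _ (fun _ => rfl) (fun _ => rfl) h
  refine Eq.trans h1 ?_
  change xiP i 0 * (MvPolynomial.X 2 + MvPolynomial.X 5) + xiP i 1 * (2 * MvPolynomial.X 1) + xiP i 2 * (MvPolynomial.X 0 + MvPolynomial.X 6) + _ * MvPolynomial.X 0 + _ * MvPolynomial.X 2 = xiP i 0 * (MvPolynomial.X 2 + MvPolynomial.X 5) + xiP i 1 * (2 * MvPolynomial.X 1) + xiP i 2 * (MvPolynomial.X 0 + MvPolynomial.X 6) + (_ * 0 + _ * 0 + _ * MvPolynomial.X 0 + _ * MvPolynomial.X 2 + _ * 0 + _ * 0 + _ * 0 + _ * 0 + _ * 0)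
  simp only [mul_zero, add_zero, zero_add]
  simp only [add_assoc]
  rfl

theorem hl2 (i : Fin 20) {D : ℕ} (h : lchk side2 2 D (flds i).et (Xp i) (Xn i) = true) :
    FUs (etaP i (ijO 2)) = ∑ a : Fin 3, xiP i a * MvPolynomial.pderiv (Fin.castLE (by omega) a : Fin 12) (FU 2) +
      ∑ t, FUs (etaP i (ivO t)) * MvPolynomial.pderiv (ivB t) (FU 2) := by
  rw [sum3, sum9]
  simp only [dFU, evL]
  have h1 := lchk2 xB _ rfl D (flds i).et (Xp i) (Xn i) _ _ (fun _ => rfl) (fun _ => rfl) h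
  refine Eq.trans h1 ?_
  change xiP i 0 * (MvPolynomial.X 1 + MvPolynomial.X 7) + xiP i 1 * (MvPolynomial.X 0 + MvPolynomial.X 8) + xiP i 2 * (2 * MvPolynomial.X 2) + _ * MvPolynomial.X 0 + _ * MvPolynomial.X 1 = xiP i 0 * (MvPolynomial.X 1 + MvPolynomial.X 7) + xiP i 1 * (MvPolynomial.X 0 + MvPolynomial.X 8) + xiP i 2 * (2 * MvPolynomial.X 2) + (_ * 0 + _ * 0 + _ * 0 + _ * 0 + _ * MvPolynomial.X 0 + _ * MvPolynomial.X 1 + _ * 0 + _ * 0 + _ * 0)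
  simp only [mul_zero, add_zero, zero_add]
  simp only [add_assoc]
  rfl

theorem hl3 (i : Fin 20) {D : ℕ} (h : lchk side3 3 D (flds i).et (Xp i) (Xn i) = true) :
    FUs (etaP i (ijO 3)) = ∑ a : Fin 3, xiP i a * MvPolynomial.pderiv (Fin.castLE (by omega) a : Fin 12) (FU 3) +
      ∑ t, FUs (etaP i (ivO t)) * MvPolynomial.pderiv (ivB t) (FU 3) := by
  rw [sum3, sum9]
  simp only [dFU, evL]
  have h1 := lchk3 xB _ rfl D (flds i).et (Xp i) (Xn i) _ _ (fun _ => rfl) (fun _ => rfl) h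
  refine Eq.trans h1 ?_
  change xiP i 0 * MvPolynomial.X 9 + xiP i 1 * (MvPolynomial.X 2 + MvPolynomial.X 10) + xiP i 2 * (MvPolynomial.X 1 + MvPolynomial.X 11) + _ * MvPolynomial.X 0 + _ * MvPolynomial.X 1 + _ * MvPolynomial.X 2 = xiP i 0 * MvPolynomial.X 9 + xiP i 1 * (MvPolynomial.X 2 + MvPolynomial.X 10) + xiP i 2 * (MvPolynomial.X 1 + MvPolynomial.X 11) + (_ * 0 + _ * 0 + _ * 0 + _ * 0 + _ * 0 + _ * 0 + _ * MvPolynomial.X 0 + _ * MvPolynomial.X 1 + _ * MvPolynomial.X 2)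
  simp only [mul_zero, add_zero, zero_add]
  simp only [add_assoc]
  rfl

theorem lall (i : Fin 20) : ∃ D : ℕ, lchk side0 0 D (flds i).et (Xp i) (Xn i) = true ∧ lchk side1 1 D (flds i).et (Xp i) (Xn i) = true ∧
    lchk side2 2 D (flds i).et (Xp i) (Xn i) = true ∧ lchk side3 3 D (flds i).et (Xp i) (Xn i) = true := by
  fin_cases i
  · exact ⟨2, L0j0, L0j1, L0j2, L0j3⟩
  · exact ⟨2, L1j0, L1j1, L1j2, L1j3⟩
  · exact ⟨2, L2j0, L2j1, L2j2, L2j3⟩
  · exact ⟨2, L3j0, L3j1, L3j2, L3j3⟩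
  · exact ⟨2, L4j0, L4j1, L4j2, L4j3⟩
  · exact ⟨2, L5j0, L5j1, L5j2, L5j3⟩
  · exact ⟨2, L6j0, L6j1, L6j2, L6j3⟩
  · exact ⟨2, L7j0, L7j1, L7j2, L7j3⟩
  · exact ⟨2, L8j0, L8j1, L8j2, L8j3⟩
  · exact ⟨2, L9j0, L9j1, L9j2, L9j3⟩
  · exact ⟨2, L10j0, L10j1, L10j2, L10j3⟩
  · exact ⟨2, L11j0, L11j1, L11j2, L11j3⟩
  · exact ⟨2, L12j0, L12j1, L12j2, L12j3⟩
  · exact ⟨2, L13j0, L13j1, L13j2, L13j3⟩
  · exact ⟨3, L14j0, L14j1, L14j2, L14j3⟩
  · exact ⟨3, L15j0, L15j1, L15j2, L15j3⟩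
  · exact ⟨3, L16j0, L16j1, L16j2, L16j3⟩
  · exact ⟨3, L17j0, L17j1, L17j2, L17j3⟩
  · exact ⟨3, L18j0, L18j1, L18j2, L18j3⟩
  · exact ⟨3, L19j0, L19j1, L19j2, L19j3⟩

/-- the mother fields are liftable -/
theorem hlift (i : Fin 20) : LibGF7.Lift (etaP i) (xiP i) := by
  obtain ⟨D, h0, h1, h2, h3⟩ := lall i
  intro j
  fin_cases j
  · exact hl0 i h0
  · exact hl1 i h1
  · exact hl2 i h2
  · exact hl3 i h3

end Pool.Agent.Mond56
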