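import Pool.Agent.LibMond56.D6U00
import Pool.Agent.LibMond56.D6U01
import Pool.Agent.LibMond56.D6U02
import Pool.Agent.LibMond56.D6U10
import Pool.Agent.LibMond56.D6U11
import Pool.Agent.LibMond56.D6U12
import Pool.Agent.LibMond56.D6U20
import Pool.Agent.LibMond56.D6U21
import Pool.Agent.LibMond56.D6U22
import Pool.Agent.LibMond56.D6U30
import Pool.Agent.LibMond56.D6U31
import Pool.Agent.LibMond56.D6U32
import Pool.Agent.LibMond56.D6U40
import Pool.Agent.LibMond56.D6U41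
import Pool.Agent.LibMond56.D6U42
import Pool.Agent.LibMond56.D6U50
import Pool.Agent.LibMond56.D6U51
import Pool.Agent.LibMond56.D6U52
import Pool.Agent.LibMond56.D6Y0
import Pool.Agent.LibMond56.D6Y1
import Pool.Agent.LibMond56.D6Y2
import Pool.Agent.LibMond56.D6Y3

set_option autoImplicit false
set_option maxRecDepth 100000

/-! MP_ed98ad_ag: summary for r = 6 -/

namespace Pool.Agent.Mond56

open Pool.Agent.Mond61

section

variable {A : Type*} [CommRing A] (hp : ((29 : ℕ) : A) = 0) (x : ℕ → A) {M : Type*} [AddCommGroup M] [Module A M]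
  (l : Fin 3 → M) (hl : ∀ r ∈ R6rows, ∑ k : Fin 3, ((rowAt r k).ev C6s C6w 16 x) • l k = 0)

include hp hl

theorem K6u0g0 : x 0 ^ 8 • l ⟨0, by decide⟩ = 0 := by
  have h := kill C6ok (k₀ := 0) (by decide) (by decide) R6u0g0 hp x l hl
  rwa [ev_vpow _ _ _ _ _ _ _ (by decide)] at h
theorem K6u0g1 : x 0 ^ 8 • l ⟨1, by decide⟩ = 0 := by
  have h := kill C6ok (k₀ := 1) (by decide) (by decide) R6u0g1 hp x l hl
  rwa [ev_vpow _ _ _ _ _ _ _ (by decide)] at h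
theorem K6u0g2 : x 0 ^ 8 • l ⟨2, by decide⟩ = 0 := by
  have h := kill C6ok (k₀ := 2) (by decide) (by decide) R6u0g2 hp x l hl
  rwa [ev_vpow _ _ _ _ _ _ _ (by decide)] at h
theorem K6u1g0 : x 1 ^ 8 • l ⟨0, by decide⟩ = 0 := by
  have h := kill C6ok (k₀ := 0) (by decide) (by decide) R6u1g0 hp x l hl
  rwa [ev_vpow _ _ _ _ _ _ _ (by decide)] at h
theorem K6u1g1 : x 1 ^ 8 • l ⟨1, by decide⟩ = 0 := by
  have h := kill C6ok (k₀ := 1) (by decide) (by decide) R6u1g1 hp x l hl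
  rwa [ev_vpow _ _ _ _ _ _ _ (by decide)] at h
theorem K6u1g2 : x 1 ^ 8 • l ⟨2, by decide⟩ = 0 := by
  have h := kill C6ok (k₀ := 2) (by decide) (by decide) R6u1g2 hp x l hl
  rwa [ev_vpow _ _ _ _ _ _ _ (by decide)] at h
theorem K6u2g0 : x 2 ^ 8 • l ⟨0, by decide⟩ = 0 := by
  have h := kill C6ok (k₀ := 0) (by decide) (by decide) R6u2g0 hp x l hl
  rwa [ev_vpow _ _ _ _ _ _ _ (by decide)] at h
theorem K6u2g1 : x 2 ^ 8 • l ⟨1, by decide⟩ = 0 := by
  have h := kill C6ok (k₀ := 1) (by decide) (by decide) R6u2g1 hp x l hl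
  rwa [ev_vpow _ _ _ _ _ _ _ (by decide)] at h
theorem K6u2g2 : x 2 ^ 8 • l ⟨2, by decide⟩ = 0 := by
  have h := kill C6ok (k₀ := 2) (by decide) (by decide) R6u2g2 hp x l hl
  rwa [ev_vpow _ _ _ _ _ _ _ (by decide)] at h
theorem K6u3g0 : x 3 ^ 8 • l ⟨0, by decide⟩ = 0 := by
  have h := kill C6ok (k₀ := 0) (by decide) (by decide) R6u3g0 hp x l hl
  rwa [ev_vpow _ _ _ _ _ _ _ (by decide)] at h
theorem K6u3g1 : x 3 ^ 8 • l ⟨1, by decide⟩ = 0 := by
  have h := kill C6ok (k₀ := 1) (by decide) (by decide) R6u3g1 hp x l hl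
  rwa [ev_vpow _ _ _ _ _ _ _ (by decide)] at h
theorem K6u3g2 : x 3 ^ 8 • l ⟨2, by decide⟩ = 0 := by
  have h := kill C6ok (k₀ := 2) (by decide) (by decide) R6u3g2 hp x l hl
  rwa [ev_vpow _ _ _ _ _ _ _ (by decide)] at h
theorem K6u4g0 : x 4 ^ 8 • l ⟨0, by decide⟩ = 0 := by
  have h := kill C6ok (k₀ := 0) (by decide) (by decide) R6u4g0 hp x l hl
  rwa [ev_vpow _ _ _ _ _ _ _ (by decide)] at h
theorem K6u4g1 : x 4 ^ 8 • l ⟨1, by decide⟩ = 0 := by
  have h := kill C6ok (k₀ := 1) (by decide) (by decide) R6u4g1 hp x l hl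
  rwa [ev_vpow _ _ _ _ _ _ _ (by decide)] at h
theorem K6u4g2 : x 4 ^ 8 • l ⟨2, by decide⟩ = 0 := by
  have h := kill C6ok (k₀ := 2) (by decide) (by decide) R6u4g2 hp x l hl
  rwa [ev_vpow _ _ _ _ _ _ _ (by decide)] at h
theorem K6u5g0 : x 5 ^ 8 • l ⟨0, by decide⟩ = 0 := by
  have h := kill C6ok (k₀ := 0) (by decide) (by decide) R6u5g0 hp x l hl
  rwa [ev_vpow _ _ _ _ _ _ _ (by decide)] at h
theorem K6u5g1 : x 5 ^ 8 • l ⟨1, by decide⟩ = 0 := by
  have h := kill C6ok (k₀ := 1) (by decide) (by decide) R6u5g1 hp x l hl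
  rwa [ev_vpow _ _ _ _ _ _ _ (by decide)] at h
theorem K6u5g2 : x 5 ^ 8 • l ⟨2, by decide⟩ = 0 := by
  have h := kill C6ok (k₀ := 2) (by decide) (by decide) R6u5g2 hp x l hl
  rwa [ev_vpow _ _ _ _ _ _ _ (by decide)] at h
theorem K6y0g0 : x 6 • l ⟨0, by decide⟩ = ∑ k : Fin 3, ((rowAt R6y0g0ds k).ev C6s C6w 16 x) • l k :=
  killY C6ok (j := 6) (g := 0) (by decide) (by decide) (by decide) R6y0g0 hp x l hl
theorem K6y0g1 : x 6 • l ⟨1, by decide⟩ = ∑ k : Fin 3, ((rowAt R6y0g1ds k).ev C6s C6w 16 x) • l k :=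
  killY C6ok (j := 6) (g := 1) (by decide) (by decide) (by decide) R6y0g1 hp x l hl
theorem K6y0g2 : x 6 • l ⟨2, by decide⟩ = ∑ k : Fin 3, ((rowAt R6y0g2ds k).ev C6s C6w 16 x) • l k :=
  killY C6ok (j := 6) (g := 2) (by decide) (by decide) (by decide) R6y0g2 hp x l hl
theorem K6y1g0 : x 7 • l ⟨0, by decide⟩ = ∑ k : Fin 3, ((rowAt R6y1g0ds k).ev C6s C6w 16 x) • l k :=
  killY C6ok (j := 7) (g := 0) (by decide) (by decide) (by decide) R6y1g0 hp x l hl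
theorem K6y1g1 : x 7 • l ⟨1, by decide⟩ = ∑ k : Fin 3, ((rowAt R6y1g1ds k).ev C6s C6w 16 x) • l k :=
  killY C6ok (j := 7) (g := 1) (by decide) (by decide) (by decide) R6y1g1 hp x l hl
theorem K6y1g2 : x 7 • l ⟨2, by decide⟩ = ∑ k : Fin 3, ((rowAt R6y1g2ds k).ev C6s C6w 16 x) • l k :=
  killY C6ok (j := 7) (g := 2) (by decide) (by decide) (by decide) R6y1g2 hp x l hl
theorem K6y2g0 : x 8 • l ⟨0, by decide⟩ = ∑ k : Fin 3, ((rowAt R6y2g0ds k).ev C6s C6w 16 x) • l k :=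
  killY C6ok (j := 8) (g := 0) (by decide) (by decide) (by decide) R6y2g0 hp x l hl
theorem K6y2g1 : x 8 • l ⟨1, by decide⟩ = ∑ k : Fin 3, ((rowAt R6y2g1ds k).ev C6s C6w 16 x) • l k :=
  killY C6ok (j := 8) (g := 1) (by decide) (by decide) (by decide) R6y2g1 hp x l hl
theorem K6y2g2 : x 8 • l ⟨2, by decide⟩ = ∑ k : Fin 3, ((rowAt R6y2g2ds k).ev C6s C6w 16 x) • l k :=
  killY C6ok (j := 8) (g := 2) (by decide) (by decide) (by decide) R6y2g2 hp x l hl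
theorem K6y3g0 : x 9 • l ⟨0, by decide⟩ = ∑ k : Fin 3, ((rowAt R6y3g0ds k).ev C6s C6w 16 x) • l k :=
  killY C6ok (j := 9) (g := 0) (by decide) (by decide) (by decide) R6y3g0 hp x l hl
theorem K6y3g1 : x 9 • l ⟨1, by decide⟩ = ∑ k : Fin 3, ((rowAt R6y3g1ds k).ev C6s C6w 16 x) • l k :=
  killY C6ok (j := 9) (g := 1) (by decide) (by decide) (by decide) R6y3g1 hp x l hl
theorem K6y3g2 : x 9 • l ⟨2, by decide⟩ = ∑ k : Fin 3, ((rowAt R6y3g2ds k).ev C6s C6w 16 x) • l k :=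
  killY C6ok (j := 9) (g := 2) (by decide) (by decide) (by decide) R6y3g2 hp x l hl

/-- modulo 29, `8`-th powers of the parameters kill the generators -/
theorem M6u : ∀ a < 6, ∀ k : Fin 3, x a ^ 8 • l k = 0 := by
  intro a ha k
  fin_cases k <;> interval_cases a
  · exact K6u0g0 hp x l hl
  · exact K6u1g0 hp x l hl
  · exact K6u2g0 hp x l hl
  · exact K6u3g0 hp x l hl
  · exact K6u4g0 hp x l hl
  · exact K6u5g0 hp x l hl
  · exact K6u0g1 hp x l hl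
  · exact K6u1g1 hp x l hl
  · exact K6u2g1 hp x l hl
  · exact K6u3g1 hp x l hl
  · exact K6u4g1 hp x l hl
  · exact K6u5g1 hp x l hl
  · exact K6u0g2 hp x l hl
  · exact K6u1g2 hp x l hl
  · exact K6u2g2 hp x l hl
  · exact K6u3g2 hp x l hl
  · exact K6u4g2 hp x l hl
  · exact K6u5g2 hp x l hl

/-- modulo 29, `Y_j` times a generator is a combination of the generators over every subring containing the parameters -/
theorem M6y (S : Subring A) (hS : ∀ a < 6, x a ∈ S) : ∀ j < 4, ∀ g : Fin 3, ∃ d : Fin 3 → A,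
    (∀ k, d k ∈ S) ∧ x (6 + j) • l g = ∑ k, d k • l k := by
  intro j hj g
  fin_cases g <;> interval_cases j
  · exact ⟨_, fun k => onlyLt_mem (by decide) x S hS _ (R6y0g0l k k.2), K6y0g0 hp x l hl⟩
  · exact ⟨_, fun k => onlyLt_mem (by decide) x S hS _ (R6y1g0l k k.2), K6y1g0 hp x l hl⟩
  · exact ⟨_, fun k => onlyLt_mem (by decide) x S hS _ (R6y2g0l k k.2), K6y2g0 hp x l hl⟩
  · exact ⟨_, fun k => onlyLt_mem (by decide) x S hS _ (R6y3g0l k k.2), K6y3g0 hp x l hl⟩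
  · exact ⟨_, fun k => onlyLt_mem (by decide) x S hS _ (R6y0g1l k k.2), K6y0g1 hp x l hl⟩
  · exact ⟨_, fun k => onlyLt_mem (by decide) x S hS _ (R6y1g1l k k.2), K6y1g1 hp x l hl⟩
  · exact ⟨_, fun k => onlyLt_mem (by decide) x S hS _ (R6y2g1l k k.2), K6y2g1 hp x l hl⟩
  · exact ⟨_, fun k => onlyLt_mem (by decide) x S hS _ (R6y3g1l k k.2), K6y3g1 hp x l hl⟩
  · exact ⟨_, fun k => onlyLt_mem (by decide) x S hS _ (R6y0g2l k k.2), K6y0g2 hp x l hl⟩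
  · exact ⟨_, fun k => onlyLt_mem (by decide) x S hS _ (R6y1g2l k k.2), K6y1g2 hp x l hl⟩
  · exact ⟨_, fun k => onlyLt_mem (by decide) x S hS _ (R6y2g2l k k.2), K6y2g2 hp x l hl⟩
  · exact ⟨_, fun k => onlyLt_mem (by decide) x S hS _ (R6y3g2l k k.2), K6y3g2 hp x l hl⟩

end

end Pool.Agent.Mond56
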