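import Pool.Agent.LibMond56.D7U00
import Pool.Agent.LibMond56.D7U01
import Pool.Agent.LibMond56.D7U10
import Pool.Agent.LibMond56.D7U11
import Pool.Agent.LibMond56.D7U20
import Pool.Agent.LibMond56.D7U21
import Pool.Agent.LibMond56.D7U30
import Pool.Agent.LibMond56.D7U31
import Pool.Agent.LibMond56.D7U40
import Pool.Agent.LibMond56.D7U41
import Pool.Agent.LibMond56.D7U50
import Pool.Agent.LibMond56.D7U51
import Pool.Agent.LibMond56.D7U60
import Pool.Agent.LibMond56.D7U61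
import Pool.Agent.LibMond56.D7Y0
import Pool.Agent.LibMond56.D7Y1
import Pool.Agent.LibMond56.D7Y2
import Pool.Agent.LibMond56.D7Y3

set_option autoImplicit false
set_option maxRecDepth 100000

/-! MP_ed98ad_ag: summary for r = 7 -/

namespace Pool.Agent.Mond56

open Pool.Agent.Mond61

section

variable {A : Type*} [CommRing A] (hp : ((29 : ℕ) : A) = 0) (x : ℕ → A) {M : Type*} [AddCommGroup M] [Module A M]
  (l : Fin 2 → M) (hl : ∀ r ∈ R7rows, ∑ k : Fin 2, ((rowAt r k).ev C7s C7w 16 x) • l k = 0)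

include hp hl

theorem K7u0g0 : x 0 ^ 7 • l ⟨0, by decide⟩ = 0 := by
  have h := kill C7ok (k₀ := 0) (by decide) (by decide) R7u0g0 hp x l hl
  rwa [ev_vpow _ _ _ _ _ _ _ (by decide)] at h
theorem K7u0g1 : x 0 ^ 7 • l ⟨1, by decide⟩ = 0 := by
  have h := kill C7ok (k₀ := 1) (by decide) (by decide) R7u0g1 hp x l hl
  rwa [ev_vpow _ _ _ _ _ _ _ (by decide)] at h
theorem K7u1g0 : x 1 ^ 7 • l ⟨0, by decide⟩ = 0 := by
  have h := kill C7ok (k₀ := 0) (by decide) (by decide) R7u1g0 hp x l hl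
  rwa [ev_vpow _ _ _ _ _ _ _ (by decide)] at h
theorem K7u1g1 : x 1 ^ 7 • l ⟨1, by decide⟩ = 0 := by
  have h := kill C7ok (k₀ := 1) (by decide) (by decide) R7u1g1 hp x l hl
  rwa [ev_vpow _ _ _ _ _ _ _ (by decide)] at h
theorem K7u2g0 : x 2 ^ 7 • l ⟨0, by decide⟩ = 0 := by
  have h := kill C7ok (k₀ := 0) (by decide) (by decide) R7u2g0 hp x l hl
  rwa [ev_vpow _ _ _ _ _ _ _ (by decide)] at h
theorem K7u2g1 : x 2 ^ 7 • l ⟨1, by decide⟩ = 0 := by
  have h := kill C7ok (k₀ := 1) (by decide) (by decide) R7u2g1 hp x l hl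
  rwa [ev_vpow _ _ _ _ _ _ _ (by decide)] at h
theorem K7u3g0 : x 3 ^ 7 • l ⟨0, by decide⟩ = 0 := by
  have h := kill C7ok (k₀ := 0) (by decide) (by decide) R7u3g0 hp x l hl
  rwa [ev_vpow _ _ _ _ _ _ _ (by decide)] at h
theorem K7u3g1 : x 3 ^ 7 • l ⟨1, by decide⟩ = 0 := by
  have h := kill C7ok (k₀ := 1) (by decide) (by decide) R7u3g1 hp x l hl
  rwa [ev_vpow _ _ _ _ _ _ _ (by decide)] at h
theorem K7u4g0 : x 4 ^ 7 • l ⟨0, by decide⟩ = 0 := by
  have h := kill C7ok (k₀ := 0) (by decide) (by decide) R7u4g0 hp x l hl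
  rwa [ev_vpow _ _ _ _ _ _ _ (by decide)] at h
theorem K7u4g1 : x 4 ^ 7 • l ⟨1, by decide⟩ = 0 := by
  have h := kill C7ok (k₀ := 1) (by decide) (by decide) R7u4g1 hp x l hl
  rwa [ev_vpow _ _ _ _ _ _ _ (by decide)] at h
theorem K7u5g0 : x 5 ^ 7 • l ⟨0, by decide⟩ = 0 := by
  have h := kill C7ok (k₀ := 0) (by decide) (by decide) R7u5g0 hp x l hl
  rwa [ev_vpow _ _ _ _ _ _ _ (by decide)] at h
theorem K7u5g1 : x 5 ^ 7 • l ⟨1, by decide⟩ = 0 := by
  have h := kill C7ok (k₀ := 1) (by decide) (by decide) R7u5g1 hp x l hl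
  rwa [ev_vpow _ _ _ _ _ _ _ (by decide)] at h
theorem K7u6g0 : x 6 ^ 7 • l ⟨0, by decide⟩ = 0 := by
  have h := kill C7ok (k₀ := 0) (by decide) (by decide) R7u6g0 hp x l hl
  rwa [ev_vpow _ _ _ _ _ _ _ (by decide)] at h
theorem K7u6g1 : x 6 ^ 7 • l ⟨1, by decide⟩ = 0 := by
  have h := kill C7ok (k₀ := 1) (by decide) (by decide) R7u6g1 hp x l hl
  rwa [ev_vpow _ _ _ _ _ _ _ (by decide)] at h
theorem K7y0g0 : x 7 • l ⟨0, by decide⟩ = ∑ k : Fin 2, ((rowAt R7y0g0ds k).ev C7s C7w 16 x) • l k :=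
  killY C7ok (j := 7) (g := 0) (by decide) (by decide) (by decide) R7y0g0 hp x l hl
theorem K7y0g1 : x 7 • l ⟨1, by decide⟩ = ∑ k : Fin 2, ((rowAt R7y0g1ds k).ev C7s C7w 16 x) • l k :=
  killY C7ok (j := 7) (g := 1) (by decide) (by decide) (by decide) R7y0g1 hp x l hl
theorem K7y1g0 : x 8 • l ⟨0, by decide⟩ = ∑ k : Fin 2, ((rowAt R7y1g0ds k).ev C7s C7w 16 x) • l k :=
  killY C7ok (j := 8) (g := 0) (by decide) (by decide) (by decide) R7y1g0 hp x l hl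
theorem K7y1g1 : x 8 • l ⟨1, by decide⟩ = ∑ k : Fin 2, ((rowAt R7y1g1ds k).ev C7s C7w 16 x) • l k :=
  killY C7ok (j := 8) (g := 1) (by decide) (by decide) (by decide) R7y1g1 hp x l hl
theorem K7y2g0 : x 9 • l ⟨0, by decide⟩ = ∑ k : Fin 2, ((rowAt R7y2g0ds k).ev C7s C7w 16 x) • l k :=
  killY C7ok (j := 9) (g := 0) (by decide) (by decide) (by decide) R7y2g0 hp x l hl
theorem K7y2g1 : x 9 • l ⟨1, by decide⟩ = ∑ k : Fin 2, ((rowAt R7y2g1ds k).ev C7s C7w 16 x) • l k :=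
  killY C7ok (j := 9) (g := 1) (by decide) (by decide) (by decide) R7y2g1 hp x l hl
theorem K7y3g0 : x 10 • l ⟨0, by decide⟩ = ∑ k : Fin 2, ((rowAt R7y3g0ds k).ev C7s C7w 16 x) • l k :=
  killY C7ok (j := 10) (g := 0) (by decide) (by decide) (by decide) R7y3g0 hp x l hl
theorem K7y3g1 : x 10 • l ⟨1, by decide⟩ = ∑ k : Fin 2, ((rowAt R7y3g1ds k).ev C7s C7w 16 x) • l k :=
  killY C7ok (j := 10) (g := 1) (by decide) (by decide) (by decide) R7y3g1 hp x l hl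

/-- modulo 29, `7`-th powers of the parameters kill the generators -/
theorem M7u : ∀ a < 7, ∀ k : Fin 2, x a ^ 7 • l k = 0 := by
  intro a ha k
  fin_cases k <;> interval_cases a
  · exact K7u0g0 hp x l hl
  · exact K7u1g0 hp x l hl
  · exact K7u2g0 hp x l hl
  · exact K7u3g0 hp x l hl
  · exact K7u4g0 hp x l hl
  · exact K7u5g0 hp x l hl
  · exact K7u6g0 hp x l hl
  · exact K7u0g1 hp x l hl
  · exact K7u1g1 hp x l hl
  · exact K7u2g1 hp x l hl
  · exact K7u3g1 hp x l hl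
  · exact K7u4g1 hp x l hl
  · exact K7u5g1 hp x l hl
  · exact K7u6g1 hp x l hl

/-- modulo 29, `Y_j` times a generator is a combination of the generators over every subring containing the parameters -/
theorem M7y (S : Subring A) (hS : ∀ a < 7, x a ∈ S) : ∀ j < 4, ∀ g : Fin 2, ∃ d : Fin 2 → A,
    (∀ k, d k ∈ S) ∧ x (7 + j) • l g = ∑ k, d k • l k := by
  intro j hj g
  fin_cases g <;> interval_cases j
  · exact ⟨_, fun k => onlyLt_mem (by decide) x S hS _ (R7y0g0l k k.2), K7y0g0 hp x l hl⟩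
  · exact ⟨_, fun k => onlyLt_mem (by decide) x S hS _ (R7y1g0l k k.2), K7y1g0 hp x l hl⟩
  · exact ⟨_, fun k => onlyLt_mem (by decide) x S hS _ (R7y2g0l k k.2), K7y2g0 hp x l hl⟩
  · exact ⟨_, fun k => onlyLt_mem (by decide) x S hS _ (R7y3g0l k k.2), K7y3g0 hp x l hl⟩
  · exact ⟨_, fun k => onlyLt_mem (by decide) x S hS _ (R7y0g1l k k.2), K7y0g1 hp x l hl⟩
  · exact ⟨_, fun k => onlyLt_mem (by decide) x S hS _ (R7y1g1l k k.2), K7y1g1 hp x l hl⟩
  · exact ⟨_, fun k => onlyLt_mem (by decide) x S hS _ (R7y2g1l k k.2), K7y2g1 hp x l hl⟩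
  · exact ⟨_, fun k => onlyLt_mem (by decide) x S hS _ (R7y3g1l k k.2), K7y3g1 hp x l hl⟩

end

end Pool.Agent.Mond56
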